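import Pool.Agent.T9h26.BD.To

/-!
# Precise large deviations of sums over primes of local functions, over intervals
-/

set_option autoImplicit false

namespace Pool.Agent.T9h26.BD

open Finset Filter Topology MeasureTheory Pool.Agent.N430.CLT Pool.Agent.T9h58.LN

/-- the scale -/
noncomputable def Px (u : ℝ) (x : ℕ) : ℝ := √(2 * Real.pi * ll x) * Real.exp (u ^ 2 / 2 * ll x)

lemma Px_nonneg (u : ℝ) (x : ℕ) : 0 ≤ Px u x := by unfold Px; positivity

lemma Px_eq (u : ℝ) (x : ℕ) : Px u x = √(2 * Real.pi) * (√(ll x) * Real.exp (u ^ 2 / 2 * ll x)) := by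
  unfold Px
  rw [Real.sqrt_mul (by positivity)]
  ring

/-- the majorant of the indicator function of a half-line -/
lemma major {J : ℕ} {B Y : ℝ} (h1 : B < Y) (h2 : Y - B < J) :
    (1 : ℝ) ≤ ∑ j ∈ range J, Real.exp (1 / 2) * Real.exp (-(Y - (B + j)) ^ 2 / 2) := by
  have h4 : 0 ≤ Y - B := by linarith
  have hj : ⌊Y - B⌋₊ ∈ range J := by
    rw [mem_range]
    exact (Nat.floor_lt h4).2 h2
  have h5 := Nat.floor_le h4
  have h6 := Nat.lt_floor_add_one (Y - B)
  refine le_trans ?_ (single_le_sum (f := fun j : ℕ => Real.exp (1 / 2) *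
    Real.exp (-(Y - (B + j)) ^ 2 / 2)) (fun j _ => by positivity) hj)
  rw [← Real.exp_add]
  apply Real.one_le_exp
  have h7 : (Y - (B + (⌊Y - B⌋₊ : ℝ))) ^ 2 ≤ 1 := by
    rw [sq_le_one_iff_abs_le_one, abs_le]
    constructor <;> linarith
  linarith

open Classical in
/-- **the tail over intervals** -/
theorem tailN (l : Loc) {u : ℝ} (hu : 0 < u) {A : ℝ} (hA : Tendsto (Ax l u) atTop (𝓝 A)) :
    ∃ C₂ : ℝ, 0 ≤ C₂ ∧ ∃ r : ℕ → ℝ, Tendsto r atTop (𝓝 0) ∧ ∀ᶠ x : ℕ in atTop, ∀ N : ℕ,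
      (x : ℝ) ^ (ll x ^ 3) ≤ N → ∀ B : ℝ, 0 ≤ B →
      Px u x * avg N (fun m => if B < Yx l u x m then (1 : ℝ) else 0) ≤
        C₂ * Real.exp (-u * B) + r x := by
  obtain ⟨K, hK, hmod⟩ := model_bd l u
  obtain ⟨Km, hKm, hMe⟩ := l.mean_near
  have hC0 : 0 < l.C := lt_of_lt_of_le one_pos l.hC
  have hr0 : 0 ≤ Real.exp (-u) := (Real.exp_pos _).le
  have hr1 : Real.exp (-u) < 1 := by rw [Real.exp_lt_one_iff]; linarith
  have hg0 : 0 ≤ (1 - Real.exp (-u))⁻¹ := inv_nonneg.2 (by linarith)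
  set D : ℝ := 2 * l.C + Km + |u| + 2 with hD
  have hD0 : 0 ≤ D := by positivity
  set E₀ : ℝ := √(2 * Real.pi) * (1 + D * (Real.exp (1 / 2) * cη 0)) with hE₀
  have hA1 : ∀ᶠ x in atTop, Ax l u x < A + 1 := hA.eventually (gt_mem_nhds (by linarith))
  have hApos : 0 ≤ A := ge_of_tendsto' hA fun x => (Ax_pos l u x).le
  refine ⟨Real.exp (1 / 2) * (√(2 * Real.pi) * (K * (A + 1))) * (1 - Real.exp (-u))⁻¹, by positivity,
    fun x => E₀ * (ll x ^ 3 * Real.exp (-ll x)), by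
      have := y3_exp.const_mul E₀
      rwa [mul_zero] at this, ?_⟩
  have hA8 : 0 < u ^ 2 / 2 + 1 := by positivity
  filter_upwards [hmod, gcmp_real l u, F2 l hA8, hA1, tendsto_ll.eventually_ge_atTop 1,
    eventually_ge_atTop 3, evK 0 le_rfl] with x h1 h2 h3 h4 h5 h6 h7 N hN B hB
  have hN0 : 0 < N := (h7 N hN 0 (by simp)).2
  set y : ℝ := ll x with hy
  have hy0 : 0 < y := by linarith
  have hyy : y ≤ y ^ 2 := by nlinarith
  have hy2 : 1 ≤ y ^ 2 := by nlinarith
  set J : ℕ := ⌈2 * l.C * y ^ 2 + Km + |u| * y⌉₊ + 1 with hJ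
  have hJ1 : 2 * l.C * y ^ 2 + Km + |u| * y < J := by
    have := Nat.le_ceil (2 * l.C * y ^ 2 + Km + |u| * y)
    rw [hJ]
    push_cast
    linarith
  have hJ2 : (J : ℝ) ≤ D * y ^ 2 := by
    have h8 := (Nat.ceil_lt_add_one (by positivity : 0 ≤ 2 * l.C * y ^ 2 + Km + |u| * y)).le
    have h9 : Km ≤ Km * y ^ 2 := by nlinarith
    have h10 : |u| * y ≤ |u| * y ^ 2 := mul_le_mul_of_nonneg_left hyy (abs_nonneg _)
    rw [hJ, hD]
    push_cast
    linarith
  -- the pointwise majorant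
  have hpt : ∀ m, (if B < Yx l u x m then (1 : ℝ) else 0) ≤
      (if y ^ 2 < |l.dat.S x m| then (1 : ℝ) else 0) + ∑ j ∈ range J, Real.exp (1 / 2) *
        Real.exp (-(Sx l x m - (l.κ + u) * y - (B + j)) ^ 2 / 2) := by
    intro m
    have hs0 : 0 ≤ ∑ j ∈ range J, Real.exp (1 / 2) *
        Real.exp (-(Sx l x m - (l.κ + u) * y - (B + j)) ^ 2 / 2) := by positivity
    split_ifs with c1 c2 c2
    · linarith
    · have c3 := not_lt.1 c2
      have c4 := (le_abs_self _).trans c3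
      have c5 := (abs_le.1 (hMe x h6)).2
      have c6 : Yx l u x m - B < J := by
        have e1 : Yx l u x m = 2 * l.C * l.dat.S x m + (∑ p ∈ PP x, avgP p (l.G p) - l.κ * y) -
            u * y := by
          unfold Yx
          rw [Sx_eq]
          ring
        have c7 : 2 * l.C * l.dat.S x m ≤ 2 * l.C * y ^ 2 :=
          mul_le_mul_of_nonneg_left c4 (by linarith)
        have c8 : -(u * y) ≤ |u| * y := by
          have := neg_abs_le u
          nlinarith
        have c9 : ∑ p ∈ PP x, avgP p (l.G p) - l.κ * y ≤ Km := c5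
        rw [e1]
        linarith
      have := major c1 c6
      rw [zero_add]
      exact this
    · linarith
    · linarith
  have a1 := avg_mono (N := N) _ _ hpt
  rw [avg_add, avg_sum] at a1
  have a2 : ∀ j ∈ range J, avg N (fun m => Real.exp (1 / 2) *
      Real.exp (-(Sx l x m - (l.κ + u) * y - (B + j)) ^ 2 / 2)) ≤ Real.exp (1 / 2) *
      (avgP (prim x) (fun m => Real.exp (-(Sx l x m - (l.κ + u) * y - (B + j)) ^ 2 / 2)) +
        cη 0 * Real.exp (-((u ^ 2 / 2 + 1) * y))) := by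
    intro j _
    rw [avg_mul_left]
    exact mul_le_mul_of_nonneg_left (h2 N hN ((l.κ + u) * y) (B + j)) (Real.exp_pos _).le
  have a3 := (add_le_add (h3 N hN) (sum_le_sum a2))
  have a4 := a1.trans a3
  have hP := Px_nonneg u x
  have a5 := mul_le_mul_of_nonneg_left a4 hP
  refine a5.trans ?_
  rw [mul_add]
  -- the model
  have b1 : ∀ j ∈ range J, Px u x * (Real.exp (1 / 2) *
      (avgP (prim x) (fun m => Real.exp (-(Sx l x m - (l.κ + u) * y - (B + j)) ^ 2 / 2)) +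
        cη 0 * Real.exp (-((u ^ 2 / 2 + 1) * y)))) ≤
      (Real.exp (1 / 2) * (√(2 * Real.pi) * (K * (A + 1))) * Real.exp (-u * B)) *
        Real.exp (-u) ^ j + √(2 * Real.pi) * (√y * (Real.exp (1 / 2) * cη 0) * Real.exp (-y)) := by
    intro j _
    have c1 := h1 (B + j)
    have e1 : Real.exp (-u * (B + j)) = Real.exp (-u * B) * Real.exp (-u) ^ j := by
      rw [← Real.exp_nat_mul, ← Real.exp_add]
      congr 1
      ring
    rw [e1] at c1
    have e2 : Real.exp (u ^ 2 / 2 * y) * Real.exp (-(u ^ 2 / 2 * y)) = 1 := by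
      rw [← Real.exp_add]; simp
    have e3 : Real.exp (u ^ 2 / 2 * y) * Real.exp (-((u ^ 2 / 2 + 1) * y)) = Real.exp (-y) := by
      rw [← Real.exp_add]
      congr 1
      ring
    have c2 : √(2 * Real.pi) * Real.exp (1 / 2) * Real.exp (u ^ 2 / 2 * y) * (√y *
        avgP (prim x) (fun m => Real.exp (-(Sx l x m - (l.κ + u) * y - (B + j)) ^ 2 / 2))) ≤
        √(2 * Real.pi) * Real.exp (1 / 2) * Real.exp (u ^ 2 / 2 * y) * (K * Ax l u x *
          Real.exp (-(u ^ 2 / 2 * y)) * (Real.exp (-u * B) * Real.exp (-u) ^ j)) :=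
      mul_le_mul_of_nonneg_left c1 (by positivity)
    have c3 : √(2 * Real.pi) * Real.exp (1 / 2) * Real.exp (u ^ 2 / 2 * y) * (K * Ax l u x *
          Real.exp (-(u ^ 2 / 2 * y)) * (Real.exp (-u * B) * Real.exp (-u) ^ j)) =
        (√(2 * Real.pi) * Real.exp (1 / 2) * (K * Ax l u x) *
          (Real.exp (-u * B) * Real.exp (-u) ^ j)) *
          (Real.exp (u ^ 2 / 2 * y) * Real.exp (-(u ^ 2 / 2 * y))) := by ring
    rw [c3, e2, mul_one] at c2
    have c4 : √(2 * Real.pi) * Real.exp (1 / 2) * (K * Ax l u x) *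
          (Real.exp (-u * B) * Real.exp (-u) ^ j) ≤ √(2 * Real.pi) * Real.exp (1 / 2) *
          (K * (A + 1)) * (Real.exp (-u * B) * Real.exp (-u) ^ j) := by
      apply mul_le_mul_of_nonneg_right _ (by positivity)
      apply mul_le_mul_of_nonneg_left _ (by positivity)
      exact mul_le_mul_of_nonneg_left h4.le hK
    rw [Px_eq]
    calc _ = √(2 * Real.pi) * Real.exp (1 / 2) * Real.exp (u ^ 2 / 2 * y) * (√y *
        avgP (prim x) (fun m => Real.exp (-(Sx l x m - (l.κ + u) * y - (B + j)) ^ 2 / 2))) +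
          √(2 * Real.pi) * (√y * (Real.exp (1 / 2) * cη 0) *
            (Real.exp (u ^ 2 / 2 * y) * Real.exp (-((u ^ 2 / 2 + 1) * y)))) := by ring
      _ ≤ √(2 * Real.pi) * Real.exp (1 / 2) * (K * (A + 1)) *
          (Real.exp (-u * B) * Real.exp (-u) ^ j) +
          √(2 * Real.pi) * (√y * (Real.exp (1 / 2) * cη 0) *
            (Real.exp (u ^ 2 / 2 * y) * Real.exp (-((u ^ 2 / 2 + 1) * y)))) := by
          have := c2.trans c4
          linarith
      _ = _ := by rw [e3]; ring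
  have b2 : Px u x * ∑ j ∈ range J, Real.exp (1 / 2) *
      (avgP (prim x) (fun m => Real.exp (-(Sx l x m - (l.κ + u) * y - (B + j)) ^ 2 / 2)) +
        cη 0 * Real.exp (-((u ^ 2 / 2 + 1) * y))) ≤
      (Real.exp (1 / 2) * (√(2 * Real.pi) * (K * (A + 1))) * Real.exp (-u * B)) *
        (∑ j ∈ range J, Real.exp (-u) ^ j) +
        J * (√(2 * Real.pi) * (√y * (Real.exp (1 / 2) * cη 0) * Real.exp (-y))) := by
    rw [mul_sum]
    refine (sum_le_sum b1).trans (le_of_eq ?_)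
    rw [sum_add_distrib, ← mul_sum, sum_const, card_range, nsmul_eq_mul]
  have b3 : ∑ j ∈ range J, Real.exp (-u) ^ j ≤ (1 - Real.exp (-u))⁻¹ := by
    rw [← tsum_geometric_of_lt_one hr0 hr1]
    exact (summable_geometric_of_lt_one hr0 hr1).sum_le_tsum _ fun i _ => by positivity
  have b4 := mul_le_mul_of_nonneg_left b3 (by positivity : 0 ≤ Real.exp (1 / 2) *
    (√(2 * Real.pi) * (K * (A + 1))) * Real.exp (-u * B))
  have hsy : √y ≤ y := by
    rw [Real.sqrt_le_left hy0.le]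
    nlinarith
  have hs0 : 0 ≤ √y := Real.sqrt_nonneg _
  have hcη := cη_nonneg 0
  have b5 : (J : ℝ) * (√(2 * Real.pi) * (√y * (Real.exp (1 / 2) * cη 0) * Real.exp (-y))) ≤
      √(2 * Real.pi) * (D * (Real.exp (1 / 2) * cη 0)) * (y ^ 3 * Real.exp (-y)) := by
    calc (J : ℝ) * (√(2 * Real.pi) * (√y * (Real.exp (1 / 2) * cη 0) * Real.exp (-y)))
        ≤ (D * y ^ 2) * (√(2 * Real.pi) * (y * (Real.exp (1 / 2) * cη 0) * Real.exp (-y))) := by
          apply mul_le_mul hJ2 _ (by positivity) (by positivity)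
          apply mul_le_mul_of_nonneg_left _ (by positivity)
          apply mul_le_mul_of_nonneg_right _ (by positivity)
          exact mul_le_mul_of_nonneg_right hsy (by positivity)
      _ = _ := by ring
  have b6 : Px u x * Real.exp (-((u ^ 2 / 2 + 1) * y)) ≤
      √(2 * Real.pi) * 1 * (y ^ 3 * Real.exp (-y)) := by
    rw [Px_eq]
    have e3 : Real.exp (u ^ 2 / 2 * y) * Real.exp (-((u ^ 2 / 2 + 1) * y)) = Real.exp (-y) := by
      rw [← Real.exp_add]
      congr 1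
      ring
    calc _ = √(2 * Real.pi) * (√y * (Real.exp (u ^ 2 / 2 * y) *
          Real.exp (-((u ^ 2 / 2 + 1) * y)))) := by ring
      _ = √(2 * Real.pi) * (√y * Real.exp (-y)) := by rw [e3]
      _ ≤ √(2 * Real.pi) * (y ^ 3 * Real.exp (-y)) := by
          apply mul_le_mul_of_nonneg_left _ (by positivity)
          apply mul_le_mul_of_nonneg_right _ (Real.exp_pos _).le
          have : y ≤ y ^ 3 := le_self_pow₀ h5 (by norm_num)
          linarith
      _ = _ := by ring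
  have e5 : E₀ * (y ^ 3 * Real.exp (-y)) = √(2 * Real.pi) * 1 * (y ^ 3 * Real.exp (-y)) +
      √(2 * Real.pi) * (D * (Real.exp (1 / 2) * cη 0)) * (y ^ 3 * Real.exp (-y)) := by
    rw [hE₀]; ring
  rw [e5]
  have e6 : Real.exp (1 / 2) * (√(2 * Real.pi) * (K * (A + 1))) * (1 - Real.exp (-u))⁻¹ *
      Real.exp (-u * B) = Real.exp (1 / 2) * (√(2 * Real.pi) * (K * (A + 1))) * Real.exp (-u * B) *
      (1 - Real.exp (-u))⁻¹ := by ring
  rw [e6]
  linarith

open Classical in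
/-- **the upper tail** -/
theorem fin_up (l : Loc) {u : ℝ} (hu : 0 < u) {A : ℝ} (hA : Tendsto (Ax l u) atTop (𝓝 A))
    (N : ℕ → ℕ) (hN0 : ∀ x, 0 < N x) (hN : ∀ᶠ x : ℕ in atTop, (x : ℝ) ^ (ll x ^ 3) ≤ N x) :
    Tendsto (fun x : ℕ => Px u x * avg (N x) (fun m => if 0 ≤ Yx l u x m then (1 : ℝ) else 0))
      atTop (𝓝 (A / u)) := by
  obtain ⟨C₂, hC₂, r, hr, htail⟩ := tailN l hu hA
  have hApos : 0 ≤ A := ge_of_tendsto' hA fun x => (Ax_pos l u x).le
  rw [Metric.tendsto_atTop]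
  intro ε hε
  have hlim : Tendsto (fun B : ℝ => (C₂ + A / u) * Real.exp (-u * B)) atTop (𝓝 0) := by
    have h1 : Tendsto (fun B : ℝ => -u * B) atTop atBot :=
      tendsto_id.const_mul_atTop_of_neg (by linarith)
    have h2 := (Real.tendsto_exp_atBot.comp h1).const_mul (C₂ + A / u)
    simpa using h2
  obtain ⟨B, hB1, hB2⟩ := ((hlim.eventually (gt_mem_nhds (show (0 : ℝ) < ε / 3 by positivity))).and
    (eventually_gt_atTop 0)).exists
  have key := fin_window l u hA N hN0 hN (α := 0) (β := B) hB2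
  rw [int_exp hu, Metric.tendsto_atTop] at key
  obtain ⟨n1, hn1⟩ := key (ε / 3) (by positivity)
  have hr3 := hr.eventually (gt_mem_nhds (show (0 : ℝ) < ε / 3 by positivity))
  obtain ⟨n2, hn2⟩ := eventually_atTop.1 ((htail.and hN).and hr3)
  refine ⟨max n1 n2, fun x hx => ?_⟩
  have a1 := hn1 x ((le_max_left _ _).trans hx)
  obtain ⟨⟨b1, b2⟩, b3⟩ := hn2 x ((le_max_right _ _).trans hx)
  have a2 := b1 (N x) b2 B hB2.le
  have e1 : avg (N x) (fun m => if 0 ≤ Yx l u x m then (1 : ℝ) else 0) =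
      avg (N x) (fun m => if 0 ≤ Yx l u x m ∧ Yx l u x m ≤ B then (1 : ℝ) else 0) +
        avg (N x) (fun m => if B < Yx l u x m then (1 : ℝ) else 0) := by
    rw [← avg_add]
    congr 1
    funext m
    by_cases c1 : B < Yx l u x m
    · rw [if_pos (by linarith), if_neg (by intro h; linarith [h.2]), if_pos c1, zero_add]
    · by_cases c2 : 0 ≤ Yx l u x m
      · rw [if_pos c2, if_pos ⟨c2, not_lt.1 c1⟩, if_neg c1, add_zero]
      · rw [if_neg c2, if_neg (fun h => c2 h.1), if_neg c1, add_zero]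
  have h0 : 0 ≤ Px u x * avg (N x) (fun m => if B < Yx l u x m then (1 : ℝ) else 0) := by
    refine mul_nonneg (Px_nonneg u x) (avg_nonneg' _ fun m => ?_)
    split_ifs
    · exact zero_le_one
    · exact le_rfl
  have a3 : √(2 * Real.pi * ll x) * Real.exp (u ^ 2 / 2 * ll x) = Px u x := rfl
  rw [a3] at a1
  have a5 : A * ((1 - Real.exp (-u * B)) / u) = A / u - A / u * Real.exp (-u * B) := by ring
  have a6 : 0 ≤ A / u * Real.exp (-u * B) := by positivity
  have a7 : 0 ≤ C₂ * Real.exp (-u * B) := by positivity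
  rw [e1, mul_add, Real.dist_eq, abs_lt]
  rw [a5, Real.dist_eq, abs_lt] at a1
  rw [add_mul] at hB1
  constructor <;> linarith [a1.1, a1.2]

/-- the opposite local functions -/
def neg (l : Loc) : Loc where
  G p m := -l.G p m
  κ := -l.κ
  C := l.C
  hC := l.hC
  per p hp m := by rw [l.per p hp m]
  bd p hp m := by rw [abs_neg]; exact l.bd p hp m
  mean p hp := by
    have e : avgP p (fun m => -l.G p m) = -avgP p (l.G p) := by
      have h : (fun m => -l.G p m) = fun m => (-1 : ℝ) * l.G p m := by funext m; ring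
      rw [h, avgP_mul_left]
      ring
    have h := l.mean p hp
    have e2 : avgP p (fun m => -l.G p m) - -l.κ / p = -(avgP p (l.G p) - l.κ / p) := by
      rw [e]; ring
    rw [e2, abs_neg]
    exact h
  sq p hp := by
    have h : (fun m => (-l.G p m) ^ 2) = fun m => l.G p m ^ 2 := by funext m; ring
    rw [h]
    exact l.sq p hp

lemma neg_Zp (l : Loc) (u : ℝ) (p : ℕ) : Zp (neg l) (-u) p = Zp l u p := by
  unfold Zp neg
  simp only
  congr 1
  funext m
  congr 1
  ring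

lemma neg_Ax (l : Loc) (u : ℝ) : Ax (neg l) (-u) = Ax l u := by
  funext x
  have e : (neg l).κ * (-u) + (-u) ^ 2 / 2 = l.κ * u + u ^ 2 / 2 := by
    have : (neg l).κ = -l.κ := rfl
    rw [this]
    ring
  unfold Ax Mx
  simp only [neg_Zp, e]

lemma neg_Yx (l : Loc) (u : ℝ) (x m : ℕ) : Yx (neg l) (-u) x m = -Yx l u x m := by
  unfold Yx Sx neg
  simp only
  rw [sum_neg_distrib]
  ring

open Classical in
/-- **the lower tail** -/
theorem fin_down (l : Loc) {u : ℝ} (hu : u < 0) {A : ℝ} (hA : Tendsto (Ax l u) atTop (𝓝 A))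
    (N : ℕ → ℕ) (hN0 : ∀ x, 0 < N x) (hN : ∀ᶠ x : ℕ in atTop, (x : ℝ) ^ (ll x ^ 3) ≤ N x) :
    Tendsto (fun x : ℕ => Px u x * avg (N x) (fun m => if Yx l u x m ≤ 0 then (1 : ℝ) else 0))
      atTop (𝓝 (A / |u|)) := by
  have h := fin_up (neg l) (u := -u) (by linarith) (A := A) (by rw [neg_Ax]; exact hA) N hN0 hN
  rw [abs_of_neg hu]
  refine h.congr fun x => ?_
  have e1 : Px (-u) x = Px u x := by
    unfold Px
    rw [neg_sq]
  rw [e1]
  congr 2
  funext m
  rw [neg_Yx]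
  by_cases c : Yx l u x m ≤ 0
  · rw [if_pos c, if_pos (by linarith)]
  · rw [if_neg c, if_neg (by linarith)]

/-- from sequences to uniform statements -/
lemma unif_of_seq {f : ℕ → ℕ → ℝ} {b : ℕ → ℝ} {L : ℝ}
    (h : ∀ N : ℕ → ℕ, (∀ x, 0 < N x) → (∀ᶠ x in atTop, b x ≤ N x) →
      Tendsto (fun x => f x (N x)) atTop (𝓝 L)) {ε : ℝ} (hε : 0 < ε) :
    ∃ x₀ : ℕ, ∀ x : ℕ, x₀ ≤ x → ∀ N : ℕ, 0 < N → b x ≤ N → |f x N - L| < ε := by
  classical
  set N : ℕ → ℕ := fun x => if h : ∃ N : ℕ, 0 < N ∧ b x ≤ N ∧ ε ≤ |f x N - L| then h.choose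
    else ⌈b x⌉₊ + 1 with hN
  have h1 : ∀ x, 0 < N x ∧ b x ≤ N x := by
    intro x
    rw [hN]
    simp only
    split_ifs with hc
    · exact ⟨hc.choose_spec.1, hc.choose_spec.2.1⟩
    · refine ⟨Nat.succ_pos _, ?_⟩
      have := Nat.le_ceil (b x)
      push_cast
      linarith
  have h2 := h N (fun x => (h1 x).1) (Eventually.of_forall fun x => (h1 x).2)
  rw [Metric.tendsto_atTop] at h2
  obtain ⟨x₀, hx₀⟩ := h2 ε hε
  refine ⟨x₀, fun x hx M hM1 hM2 => ?_⟩
  by_contra hcon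
  have hex : ∃ N : ℕ, 0 < N ∧ b x ≤ N ∧ ε ≤ |f x N - L| := ⟨M, hM1, hM2, not_lt.1 hcon⟩
  have h3 := hx₀ x hx
  have e : N x = hex.choose := by
    rw [hN]
    simp only
    rw [dif_pos hex]
  rw [Real.dist_eq, e] at h3
  exact absurd h3 (not_lt.2 hex.choose_spec.2.2)

end Pool.Agent.T9h26.BD
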