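import Mathlib

/-!
# A local limit theorem for discrete laws: the Gaussian transform
-/

set_option autoImplicit false

namespace Pool.Agent.T9h26.BD

open Finset Filter Topology MeasureTheory ProbabilityTheory

/-- a finite probability distribution: the points `Y m` with the weights `w m`, `m ∈ T` -/
structure Dsc where
  T : Finset ℕ
  w : ℕ → ℝ
  Y : ℕ → ℝ
  w0 : ∀ m, 0 ≤ w m
  w1 : ∑ m ∈ T, w m = 1

/-- the mean value of a function -/
noncomputable def Dsc.E (d : Dsc) (f : ℝ → ℝ) : ℝ := ∑ m ∈ d.T, d.w m * f (d.Y m)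

/-- the characteristic function -/
noncomputable def Dsc.phi (d : Dsc) (ζ : ℝ) : ℂ :=
  ∑ m ∈ d.T, (d.w m : ℂ) * Complex.exp ((ζ * d.Y m : ℝ) * Complex.I)

/-- the characteristic function with the weight `exp (- s ^ 2 / 2)` -/
noncomputable def Dsc.W (d : Dsc) (η : ℝ) : ℂ :=
  ∑ m ∈ d.T, (d.w m : ℂ) *
    (Complex.exp ((η * d.Y m : ℝ) * Complex.I) * (Real.exp (-(d.Y m) ^ 2 / 2) : ℂ))

/-- the normal density -/
noncomputable def gs (x : ℝ) : ℝ := (√(2 * Real.pi))⁻¹ * Real.exp (-x ^ 2 / 2)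

lemma gs_eq (x : ℝ) : gaussianPDFReal 0 1 x = gs x := by
  unfold gaussianPDFReal gs
  simp

lemma gs_nonneg (x : ℝ) : 0 ≤ gs x := by unfold gs; positivity

lemma inv_sqrt_le : (√(2 * Real.pi))⁻¹ ≤ 1 := by
  apply inv_le_one_of_one_le₀
  rw [Real.one_le_sqrt]
  have := Real.pi_gt_three
  linarith

lemma gs_le_one (x : ℝ) : gs x ≤ 1 := by
  unfold gs
  have h3 : Real.exp (-x ^ 2 / 2) ≤ 1 := by
    rw [Real.exp_le_one_iff]
    have : 0 ≤ x ^ 2 := sq_nonneg x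
    linarith
  calc _ ≤ 1 * 1 := mul_le_mul inv_sqrt_le h3 (Real.exp_pos _).le zero_le_one
    _ = 1 := one_mul 1

@[fun_prop]
lemma gs_cont : Continuous gs := by unfold gs; fun_prop

lemma gs_int : Integrable gs := by
  have := integrable_gaussianPDFReal 0 1
  refine this.congr (Eventually.of_forall fun x => gs_eq x)

@[fun_prop]
lemma phi_cont (d : Dsc) : Continuous d.phi := by unfold Dsc.phi; fun_prop

lemma norm_phi_le (d : Dsc) (ζ : ℝ) : ‖d.phi ζ‖ ≤ 1 := by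
  unfold Dsc.phi
  refine (norm_sum_le _ _).trans ?_
  rw [← d.w1]
  refine sum_le_sum fun m _ => ?_
  rw [norm_mul, Complex.norm_exp_ofReal_mul_I, mul_one, Complex.norm_real, Real.norm_eq_abs,
    abs_of_nonneg (d.w0 m)]

/-- the Fourier transform of the normal density -/
lemma fourier_gs (y : ℝ) : ∫ ξ : ℝ, Complex.exp ((ξ * y : ℝ) * Complex.I) * (gs ξ : ℂ) =
    (Real.exp (-y ^ 2 / 2) : ℂ) := by
  have h1 := charFun_gaussianReal (μ := 0) (v := 1) y
  rw [charFun_apply_real, integral_gaussianReal_eq_integral_smul one_ne_zero] at h1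
  have e : ∀ x : ℝ, gaussianPDFReal 0 1 x • Complex.exp (y * x * Complex.I) =
      Complex.exp ((x * y : ℝ) * Complex.I) * (gs x : ℂ) := by
    intro x
    rw [gs_eq, Complex.real_smul, mul_comm]
    congr 2
    push_cast
    ring
  simp only [e] at h1
  rw [h1]
  push_cast
  congr 1
  simp
  ring

/-- the transform as a mean value of the characteristic function -/
lemma W_eq (d : Dsc) (η : ℝ) : d.W η = ∫ ζ : ℝ, d.phi ζ * (gs (ζ - η) : ℂ) := by
  have e1 : ∫ ζ : ℝ, d.phi ζ * (gs (ζ - η) : ℂ) = ∫ ζ : ℝ, d.phi (ζ + η) * (gs ζ : ℂ) := by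
    have := integral_sub_right_eq_self (μ := volume) (fun ζ : ℝ => d.phi (ζ + η) * (gs ζ : ℂ)) η
    rw [← this]
    simp only [sub_add_cancel]
  have e2 : ∀ ζ : ℝ, d.phi (ζ + η) * (gs ζ : ℂ) = ∑ m ∈ d.T,
      ((d.w m : ℂ) * Complex.exp ((η * d.Y m : ℝ) * Complex.I)) *
        (Complex.exp ((ζ * d.Y m : ℝ) * Complex.I) * (gs ζ : ℂ)) := by
    intro ζ
    unfold Dsc.phi
    rw [sum_mul]
    refine sum_congr rfl fun m _ => ?_
    have : ((((ζ + η) * d.Y m : ℝ) : ℂ)) * Complex.I =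
        ((η * d.Y m : ℝ) : ℂ) * Complex.I + ((ζ * d.Y m : ℝ) : ℂ) * Complex.I := by
      push_cast; ring
    rw [this, Complex.exp_add]
    ring
  have hint : ∀ y : ℝ, Integrable (fun ζ : ℝ => Complex.exp ((ζ * y : ℝ) * Complex.I) * (gs ζ : ℂ)) := by
    intro y
    refine gs_int.mono (by fun_prop) (Eventually.of_forall fun ζ => ?_)
    rw [norm_mul, Complex.norm_exp_ofReal_mul_I, one_mul, Complex.norm_real]
  rw [e1]
  simp only [e2]
  rw [integral_finsetSum _ (fun m _ => (hint (d.Y m)).const_mul _)]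
  unfold Dsc.W
  refine sum_congr rfl fun m _ => ?_
  rw [integral_const_mul, fourier_gs]
  ring

lemma W_scale (d : Dsc) (η : ℝ) {s : ℝ} (hs : 0 < s) :
    (s : ℂ) * d.W η = ∫ t : ℝ, d.phi (t / s) * (gs (t / s - η) : ℂ) := by
  have := Measure.integral_comp_div (fun ζ : ℝ => d.phi ζ * (gs (ζ - η) : ℂ)) s
  rw [this, abs_of_pos hs, W_eq, Complex.real_smul]

/-- the tail of the normal density -/
lemma gs_tail (ζ η : ℝ) : gs (ζ - η) ≤ 33 * Real.exp (η ^ 2 / 2) / (1 + ζ ^ 4) := by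
  have h1 : gs (ζ - η) ≤ Real.exp (η ^ 2 / 2) * Real.exp (-(ζ ^ 2 / 4)) := by
    unfold gs
    rw [← Real.exp_add]
    have h2 : Real.exp (-(ζ - η) ^ 2 / 2) ≤ Real.exp (η ^ 2 / 2 + -(ζ ^ 2 / 4)) := by
      apply Real.exp_le_exp.2
      have := sq_nonneg (ζ - 2 * η)
      nlinarith
    calc _ ≤ 1 * Real.exp (-(ζ - η) ^ 2 / 2) :=
          mul_le_mul_of_nonneg_right inv_sqrt_le (Real.exp_pos _).le
      _ ≤ _ := by rw [one_mul]; exact h2
  have h3 : 1 + ζ ^ 4 ≤ 33 * Real.exp (ζ ^ 2 / 4) := by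
    have h4 := Real.quadratic_le_exp_of_nonneg (x := ζ ^ 2 / 4) (by positivity)
    have h5 : 0 ≤ ζ ^ 2 := sq_nonneg ζ
    nlinarith
  rw [le_div_iff₀ (by positivity)]
  calc gs (ζ - η) * (1 + ζ ^ 4)
      ≤ (Real.exp (η ^ 2 / 2) * Real.exp (-(ζ ^ 2 / 4))) * (33 * Real.exp (ζ ^ 2 / 4)) :=
        mul_le_mul h1 h3 (by positivity) (by positivity)
    _ = 33 * Real.exp (η ^ 2 / 2) := by
        rw [Real.exp_neg]
        field_simp

/-- the domination -/
lemma dom (d : Dsc) {L K : ℝ} (hL : 0 < L) (hK : 0 ≤ K)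
    (h : ∀ ζ : ℝ, |ζ| ≤ √L → ‖d.phi ζ‖ * (1 + ζ ^ 2 * L) ≤ K) (η t : ℝ) :
    ‖d.phi (t / √L) * (gs (t / √L - η) : ℂ)‖ ≤ (K + 33 * Real.exp (η ^ 2 / 2)) * (1 + t ^ 2)⁻¹ := by
  have hs : 0 < √L := Real.sqrt_pos.2 hL
  have hsL : √L ^ 2 = L := Real.sq_sqrt hL.le
  have ht : 0 < 1 + t ^ 2 := by positivity
  rw [norm_mul, Complex.norm_real, Real.norm_eq_abs, abs_of_nonneg (gs_nonneg _),
    ← div_eq_mul_inv, le_div_iff₀ ht]
  have hE : 0 < Real.exp (η ^ 2 / 2) := Real.exp_pos _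
  by_cases hc : |t / √L| ≤ √L
  · have h1 := h _ hc
    have e : (t / √L) ^ 2 * L = t ^ 2 := by
      rw [div_pow, hsL]
      field_simp
    rw [e] at h1
    calc ‖d.phi (t / √L)‖ * gs (t / √L - η) * (1 + t ^ 2)
        = (‖d.phi (t / √L)‖ * (1 + t ^ 2)) * gs (t / √L - η) := by ring
      _ ≤ K * 1 := mul_le_mul h1 (gs_le_one _) (gs_nonneg _) hK
      _ ≤ _ := by linarith
  · have hc' := not_le.1 hc
    set ζ : ℝ := t / √L with hζ
    have e : t ^ 2 = ζ ^ 2 * L := by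
      rw [hζ, div_pow, hsL]
      field_simp
    have h2 : L ≤ ζ ^ 2 := by
      rw [← hsL, ← sq_abs ζ]
      exact pow_le_pow_left₀ hs.le hc'.le 2
    have h3 : t ^ 2 ≤ ζ ^ 4 := by
      rw [e]
      calc ζ ^ 2 * L ≤ ζ ^ 2 * ζ ^ 2 := mul_le_mul_of_nonneg_left h2 (sq_nonneg _)
        _ = ζ ^ 4 := by ring
    have h4 := gs_tail ζ η
    rw [le_div_iff₀ (by positivity)] at h4
    calc ‖d.phi ζ‖ * gs (ζ - η) * (1 + t ^ 2) ≤ 1 * gs (ζ - η) * (1 + ζ ^ 4) := by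
          apply mul_le_mul _ (by linarith) ht.le
            (mul_nonneg zero_le_one (gs_nonneg _))
          exact mul_le_mul_of_nonneg_right (norm_phi_le d ζ) (gs_nonneg _)
      _ = gs (ζ - η) * (1 + ζ ^ 4) := by ring
      _ ≤ _ := by linarith

/-- the uniform bound for the transform -/
lemma W_bd (d : Dsc) {L K : ℝ} (hL : 0 < L) (hK : 0 ≤ K)
    (h : ∀ ζ : ℝ, |ζ| ≤ √L → ‖d.phi ζ‖ * (1 + ζ ^ 2 * L) ≤ K) :
    √L * ‖d.W 0‖ ≤ (K + 33) * Real.pi := by
  have hs : 0 < √L := Real.sqrt_pos.2 hL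
  have e : √L * ‖d.W 0‖ = ‖((√L : ℝ) : ℂ) * d.W 0‖ := by
    rw [norm_mul, Complex.norm_real, Real.norm_eq_abs, abs_of_pos hs]
  rw [e, W_scale d 0 hs]
  have h1 := norm_integral_le_of_norm_le (μ := volume)
    (f := fun t : ℝ => d.phi (t / √L) * (gs (t / √L - 0) : ℂ))
    (g := fun t : ℝ => (K + 33 * Real.exp ((0 : ℝ) ^ 2 / 2)) * (1 + t ^ 2)⁻¹)
    (integrable_inv_one_add_sq.const_mul _) (Eventually.of_forall fun t => dom d hL hK h 0 t)
  refine h1.trans (le_of_eq ?_)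
  rw [integral_const_mul, integral_univ_inv_one_add_sq]
  norm_num

/-- the convergence of the transforms -/
theorem W_tendsto (D : ℕ → Dsc) (L : ℕ → ℝ) (hL : Tendsto L atTop atTop)
    (hP : ∀ t : ℝ, Tendsto (fun n => (D n).phi (t / √(L n))) atTop
      (𝓝 (Real.exp (-t ^ 2 / 2) : ℂ)))
    {K : ℝ} (hK : 0 ≤ K)
    (hD : ∀ᶠ n in atTop, ∀ ζ : ℝ, |ζ| ≤ √(L n) → ‖(D n).phi ζ‖ * (1 + ζ ^ 2 * L n) ≤ K) (η : ℝ) :
    Tendsto (fun n => ((√(L n) : ℝ) : ℂ) * (D n).W η) atTop (𝓝 (Real.exp (-η ^ 2 / 2) : ℂ)) := by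
  have hpos : ∀ᶠ n in atTop, 0 < L n := hL.eventually_gt_atTop 0
  have key : Tendsto (fun n => ∫ t : ℝ, (D n).phi (t / √(L n)) * (gs (t / √(L n) - η) : ℂ)) atTop
      (𝓝 (∫ t : ℝ, (Real.exp (-t ^ 2 / 2) : ℂ) * (gs (0 - η) : ℂ))) := by
    apply tendsto_integral_filter_of_dominated_convergence
      (fun t : ℝ => (K + 33 * Real.exp (η ^ 2 / 2)) * (1 + t ^ 2)⁻¹)
    · exact Eventually.of_forall fun n => by fun_prop
    · filter_upwards [hpos, hD] with n h1 h2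
      exact Eventually.of_forall fun t => dom (D n) h1 hK h2 η t
    · exact integrable_inv_one_add_sq.const_mul _
    · refine Eventually.of_forall fun t => ?_
      refine (hP t).mul ?_
      have h1 : Tendsto (fun n => t / √(L n) - η) atTop (𝓝 (0 - η)) :=
        ((Real.tendsto_sqrt_atTop.comp hL).const_div_atTop t).sub_const η
      have h2 := (gs_cont.tendsto (0 - η)).comp h1
      exact (Complex.continuous_ofReal.tendsto _).comp h2
  have e : ∫ t : ℝ, (Real.exp (-t ^ 2 / 2) : ℂ) * (gs (0 - η) : ℂ) = (Real.exp (-η ^ 2 / 2) : ℂ) := by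
    rw [integral_mul_const, integral_complex_ofReal]
    have h1 := integral_gaussian (1 / 2)
    have h2 : ∫ t : ℝ, Real.exp (-t ^ 2 / 2) = √(2 * Real.pi) := by
      have e1 : ∀ t : ℝ, Real.exp (-t ^ 2 / 2) = Real.exp (-(1 / 2) * t ^ 2) := fun t => by
        congr 1; ring
      simp only [e1]
      rw [h1]
      congr 1
      ring
    rw [h2]
    unfold gs
    have h3 : √(2 * Real.pi) ≠ 0 := by positivity
    rw [← Complex.ofReal_mul]
    congr 1
    field_simp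
    congr 1
    ring
  rw [e] at key
  refine key.congr' ?_
  filter_upwards [hpos] with n hn
  rw [W_scale (D n) η (Real.sqrt_pos.2 hn)]

end Pool.Agent.T9h26.BD
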