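import Pool.Agent.T9h26.BD.Lb

/-!
# A local limit theorem for discrete laws: exponential tails
-/

set_option autoImplicit false

namespace Pool.Agent.T9h26.BD

open Finset Filter Topology MeasureTheory ProbabilityTheory

/-- the shifted law -/
noncomputable def Dsc.sh (d : Dsc) (y : ℝ) : Dsc where
  T := d.T
  w := d.w
  Y m := d.Y m - y
  w0 := d.w0
  w1 := d.w1

lemma norm_sh_phi (d : Dsc) (y ζ : ℝ) : ‖(d.sh y).phi ζ‖ = ‖d.phi ζ‖ := by
  have e : (d.sh y).phi ζ = Complex.exp ((-(ζ * y) : ℝ) * Complex.I) * d.phi ζ := by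
    unfold Dsc.phi Dsc.sh
    simp only
    rw [mul_sum]
    refine sum_congr rfl fun m _ => ?_
    have : ((ζ * (d.Y m - y) : ℝ) : ℂ) * Complex.I =
        ((-(ζ * y) : ℝ) : ℂ) * Complex.I + ((ζ * d.Y m : ℝ) : ℂ) * Complex.I := by
      push_cast; ring
    rw [this, Complex.exp_add]
    ring
  rw [e, norm_mul, Complex.norm_exp_ofReal_mul_I, one_mul]

/-- the uniform bound -/
lemma unif (d : Dsc) {L K : ℝ} (hL : 0 < L) (hK : 0 ≤ K)
    (h : ∀ ζ : ℝ, |ζ| ≤ √L → ‖d.phi ζ‖ * (1 + ζ ^ 2 * L) ≤ K) (y : ℝ) :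
    √L * ∑ m ∈ d.T, d.w m * Real.exp (-(d.Y m - y) ^ 2 / 2) ≤ (K + 33) * Real.pi := by
  have h1 := W_bd (d.sh y) hL hK (fun ζ hζ => by rw [norm_sh_phi]; exact h ζ hζ)
  rw [W_zero, Complex.norm_real, Real.norm_eq_abs, abs_of_pos (Z_pos _)] at h1
  exact h1

open Classical in
/-- the tail -/
lemma tail (d : Dsc) {L K : ℝ} (hL : 0 < L) (hK : 0 ≤ K)
    (h : ∀ ζ : ℝ, |ζ| ≤ √L → ‖d.phi ζ‖ * (1 + ζ ^ 2 * L) ≤ K) {u : ℝ} (hu : 0 < u) (B : ℝ) :
    √L * d.E (fun s => if B < s then Real.exp (-u * s) else 0) ≤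
      Real.exp (1 / 2) * ((K + 33) * Real.pi) * (1 - Real.exp (-u))⁻¹ * Real.exp (-u * B) := by
  set K₂ : ℝ := (K + 33) * Real.pi with hK₂
  have hK₂0 : 0 ≤ K₂ := by
    have := Real.pi_pos
    positivity
  have hr0 : 0 ≤ Real.exp (-u) := (Real.exp_pos _).le
  have hr1 : Real.exp (-u) < 1 := by rw [Real.exp_lt_one_iff]; linarith
  obtain ⟨J, hJ⟩ := exists_nat_gt (∑ m ∈ d.T, |d.Y m - B|)
  have hpt : ∀ m ∈ d.T, (if B < d.Y m then Real.exp (-u * d.Y m) else 0) ≤
      ∑ j ∈ range J, Real.exp (1 / 2) * Real.exp (-u * B) * Real.exp (-u) ^ j *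
        Real.exp (-(d.Y m - (B + j)) ^ 2 / 2) := by
    intro m hm
    split_ifs with hc
    · set s : ℝ := d.Y m with hs
      have h1 : s - B < J := by
        have h2 := single_le_sum (f := fun m => |d.Y m - B|) (fun i _ => abs_nonneg _) hm
        have h3 := le_abs_self (s - B)
        linarith
      have h4 : 0 ≤ s - B := by linarith
      have hj : ⌊s - B⌋₊ ∈ range J := by
        rw [mem_range]
        exact (Nat.floor_lt h4).2 h1
      have h5 := Nat.floor_le h4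
      have h6 := Nat.lt_floor_add_one (s - B)
      refine le_trans ?_ (single_le_sum (f := fun j : ℕ => Real.exp (1 / 2) * Real.exp (-u * B) *
        Real.exp (-u) ^ j * Real.exp (-(s - (B + j)) ^ 2 / 2)) (fun j _ => by positivity) hj)
      rw [← Real.exp_nat_mul, ← Real.exp_add, ← Real.exp_add, ← Real.exp_add]
      apply Real.exp_le_exp.2
      set j : ℝ := (⌊s - B⌋₊ : ℝ)
      have h7 : (s - (B + j)) ^ 2 ≤ 1 := by
        rw [sq_le_one_iff_abs_le_one, abs_le]
        constructor <;> linarith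
      have h8 : u * (B + j) ≤ u * s := mul_le_mul_of_nonneg_left (by linarith) hu.le
      nlinarith
    · positivity
  have h1 : d.E (fun s => if B < s then Real.exp (-u * s) else 0) ≤
      ∑ j ∈ range J, (Real.exp (1 / 2) * Real.exp (-u * B) * Real.exp (-u) ^ j) *
        ∑ m ∈ d.T, d.w m * Real.exp (-(d.Y m - (B + j)) ^ 2 / 2) := by
    unfold Dsc.E
    calc _ ≤ ∑ m ∈ d.T, d.w m * ∑ j ∈ range J, Real.exp (1 / 2) * Real.exp (-u * B) *
          Real.exp (-u) ^ j * Real.exp (-(d.Y m - (B + j)) ^ 2 / 2) :=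
          sum_le_sum fun m hm => mul_le_mul_of_nonneg_left (hpt m hm) (d.w0 m)
      _ = _ := by
          simp only [mul_sum]
          rw [sum_comm]
          refine sum_congr rfl fun j _ => sum_congr rfl fun m _ => ?_
          ring
  have hs : 0 ≤ √L := Real.sqrt_nonneg _
  have h2 := mul_le_mul_of_nonneg_left h1 hs
  refine h2.trans ?_
  rw [mul_sum]
  have h3 : ∀ j ∈ range J, √L * ((Real.exp (1 / 2) * Real.exp (-u * B) * Real.exp (-u) ^ j) *
      ∑ m ∈ d.T, d.w m * Real.exp (-(d.Y m - (B + j)) ^ 2 / 2)) ≤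
      (Real.exp (1 / 2) * Real.exp (-u * B) * K₂) * Real.exp (-u) ^ j := by
    intro j _
    have h4 := unif d hL hK h (B + j)
    calc _ = (Real.exp (1 / 2) * Real.exp (-u * B) * Real.exp (-u) ^ j) *
          (√L * ∑ m ∈ d.T, d.w m * Real.exp (-(d.Y m - (B + j)) ^ 2 / 2)) := by ring
      _ ≤ (Real.exp (1 / 2) * Real.exp (-u * B) * Real.exp (-u) ^ j) * K₂ :=
          mul_le_mul_of_nonneg_left h4 (by positivity)
      _ = _ := by ring
  refine (sum_le_sum h3).trans ?_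
  rw [← mul_sum]
  have h5 : ∑ j ∈ range J, Real.exp (-u) ^ j ≤ (1 - Real.exp (-u))⁻¹ := by
    rw [← tsum_geometric_of_lt_one hr0 hr1]
    exact (summable_geometric_of_lt_one hr0 hr1).sum_le_tsum _ fun i _ => by positivity
  calc _ ≤ (Real.exp (1 / 2) * Real.exp (-u * B) * K₂) * (1 - Real.exp (-u))⁻¹ :=
        mul_le_mul_of_nonneg_left h5 (by positivity)
    _ = _ := by ring

lemma int_exp {u : ℝ} (hu : 0 < u) (B : ℝ) :
    ∫ s in (0 : ℝ)..B, Real.exp (-u * s) = (1 - Real.exp (-u * B)) / u := by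
  have h2 : ∀ s ∈ Set.uIcc (0 : ℝ) B, HasDerivAt (fun s : ℝ => -Real.exp (-u * s) / u)
      (Real.exp (-u * s)) s := by
    intro s _
    have h3 : HasDerivAt (fun s : ℝ => -u * s) (-u) s := by
      simpa using (hasDerivAt_id s).const_mul (-u)
    have h4 := (h3.exp.neg).div_const u
    refine h4.congr_deriv ?_
    field_simp
  rw [intervalIntegral.integral_eq_sub_of_hasDerivAt h2 (by
    apply Continuous.intervalIntegrable
    fun_prop)]
  simp only [mul_zero, Real.exp_zero]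
  ring

open Classical in
/-- **exponential weights on a half-line** -/
theorem llt_up (D : ℕ → Dsc) (L : ℕ → ℝ) (hL : Tendsto L atTop atTop)
    (hP : ∀ t : ℝ, Tendsto (fun n => (D n).phi (t / √(L n))) atTop
      (𝓝 (Real.exp (-t ^ 2 / 2) : ℂ)))
    {K : ℝ} (hK : 0 ≤ K)
    (hD : ∀ᶠ n in atTop, ∀ ζ : ℝ, |ζ| ≤ √(L n) → ‖(D n).phi ζ‖ * (1 + ζ ^ 2 * L n) ≤ K)
    {u : ℝ} (hu : 0 < u) :
    Tendsto (fun n => √(2 * Real.pi * L n) *
      (D n).E (fun s => if 0 ≤ s then Real.exp (-u * s) else 0)) atTop (𝓝 (1 / u)) := by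
  set K₃ : ℝ := √(2 * Real.pi) * (Real.exp (1 / 2) * ((K + 33) * Real.pi) * (1 - Real.exp (-u))⁻¹)
    with hK₃
  have hr1 : Real.exp (-u) < 1 := by rw [Real.exp_lt_one_iff]; linarith
  have hK₃0 : 0 ≤ K₃ := by
    have := Real.pi_pos
    have : 0 ≤ (1 - Real.exp (-u))⁻¹ := inv_nonneg.2 (by linarith)
    positivity
  have hpos : ∀ᶠ n in atTop, 0 < L n := hL.eventually_gt_atTop 0
  rw [Metric.tendsto_atTop]
  intro ε hε
  -- choice of the cut
  have hlim : Tendsto (fun B : ℝ => (K₃ + 1 / u) * Real.exp (-u * B)) atTop (𝓝 0) := by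
    have h1 : Tendsto (fun B : ℝ => -u * B) atTop atBot :=
      tendsto_id.const_mul_atTop_of_neg (by linarith)
    have h2 := (Real.tendsto_exp_atBot.comp h1).const_mul (K₃ + 1 / u)
    simpa using h2
  obtain ⟨B, hB1, hB2⟩ := ((hlim.eventually (gt_mem_nhds (show (0 : ℝ) < ε / 2 by positivity))).and
    (eventually_gt_atTop 0)).exists
  have key := llt D L hL hP hK hD (fun s => Real.exp (-u * s)) (by fun_prop)
    (fun s => (Real.exp_pos _).le) (α := 0) (β := B) hB2
  rw [int_exp hu, Metric.tendsto_atTop] at key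
  obtain ⟨n1, hn1⟩ := key (ε / 2) (by positivity)
  obtain ⟨n2, hn2⟩ := eventually_atTop.1 (hpos.and hD)
  refine ⟨max n1 n2, fun n hn => ?_⟩
  have a1 := hn1 n ((le_max_left _ _).trans hn)
  obtain ⟨b1, b2⟩ := hn2 n ((le_max_right _ _).trans hn)
  have a2 := tail (D n) b1 hK b2 hu B
  have e1 : (D n).E (fun s => if 0 ≤ s then Real.exp (-u * s) else 0) =
      (D n).E (fun s => if 0 ≤ s ∧ s ≤ B then Real.exp (-u * s) else 0) +
        (D n).E (fun s => if B < s then Real.exp (-u * s) else 0) := by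
    unfold Dsc.E
    rw [← sum_add_distrib]
    refine sum_congr rfl fun m _ => ?_
    rw [← mul_add]
    congr 1
    dsimp only
    by_cases c1 : B < (D n).Y m
    · rw [if_pos (by linarith), if_neg (by intro h; linarith [h.2]), if_pos c1, zero_add]
    · by_cases c2 : 0 ≤ (D n).Y m
      · rw [if_pos c2, if_pos ⟨c2, not_lt.1 c1⟩, if_neg c1, add_zero]
      · rw [if_neg c2, if_neg (fun h => c2 h.1), if_neg c1, add_zero]
  have h0 : 0 ≤ (D n).E (fun s => if B < s then Real.exp (-u * s) else 0) := by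
    unfold Dsc.E
    refine sum_nonneg fun m _ => mul_nonneg ((D n).w0 m) ?_
    dsimp only
    split_ifs
    · exact (Real.exp_pos _).le
    · exact le_rfl
  have hs : √(2 * Real.pi * L n) = √(2 * Real.pi) * √(L n) :=
    Real.sqrt_mul (by positivity) _
  have a3 : √(2 * Real.pi * L n) * (D n).E (fun s => if B < s then Real.exp (-u * s) else 0) ≤
      K₃ * Real.exp (-u * B) := by
    rw [hs, mul_assoc, hK₃]
    calc _ ≤ √(2 * Real.pi) * (Real.exp (1 / 2) * ((K + 33) * Real.pi) * (1 - Real.exp (-u))⁻¹ *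
          Real.exp (-u * B)) := mul_le_mul_of_nonneg_left a2 (Real.sqrt_nonneg _)
      _ = _ := by ring
  have a4 : 0 ≤ √(2 * Real.pi * L n) * (D n).E (fun s => if B < s then Real.exp (-u * s) else 0) :=
    mul_nonneg (Real.sqrt_nonneg _) h0
  have a5 : (1 - Real.exp (-u * B)) / u = 1 / u - 1 / u * Real.exp (-u * B) := by ring
  have a6 : 0 ≤ 1 / u * Real.exp (-u * B) := by positivity
  have a7 : 0 ≤ K₃ * Real.exp (-u * B) := by positivity
  rw [e1, mul_add, Real.dist_eq, abs_lt]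
  rw [a5, Real.dist_eq, abs_lt] at a1
  rw [add_mul] at hB1
  constructor <;> linarith [a1.1, a1.2]

/-- the reflected law -/
noncomputable def Dsc.rf (d : Dsc) : Dsc where
  T := d.T
  w := d.w
  Y m := -d.Y m
  w0 := d.w0
  w1 := d.w1

lemma rf_phi (d : Dsc) (ζ : ℝ) : d.rf.phi ζ = d.phi (-ζ) := by
  unfold Dsc.phi Dsc.rf
  simp only
  refine sum_congr rfl fun m _ => ?_
  rw [show ζ * -d.Y m = -ζ * d.Y m by ring]

open Classical in
/-- **exponential weights on a half-line** -/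
theorem llt_down (D : ℕ → Dsc) (L : ℕ → ℝ) (hL : Tendsto L atTop atTop)
    (hP : ∀ t : ℝ, Tendsto (fun n => (D n).phi (t / √(L n))) atTop
      (𝓝 (Real.exp (-t ^ 2 / 2) : ℂ)))
    {K : ℝ} (hK : 0 ≤ K)
    (hD : ∀ᶠ n in atTop, ∀ ζ : ℝ, |ζ| ≤ √(L n) → ‖(D n).phi ζ‖ * (1 + ζ ^ 2 * L n) ≤ K)
    {u : ℝ} (hu : u < 0) :
    Tendsto (fun n => √(2 * Real.pi * L n) *
      (D n).E (fun s => if s ≤ 0 then Real.exp (-u * s) else 0)) atTop (𝓝 (1 / |u|)) := by
  have h := llt_up (fun n => (D n).rf) L hL (fun t => by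
    have := hP (-t)
    have e : ∀ n, (D n).rf.phi (t / √(L n)) = (D n).phi (-t / √(L n)) := fun n => by
      rw [rf_phi, neg_div]
    simp only [e]
    rwa [neg_sq] at this) hK (by
      filter_upwards [hD] with n hn
      intro ζ hζ
      have := hn (-ζ) (by rwa [abs_neg])
      rw [rf_phi]
      rwa [neg_sq] at this) (u := -u) (by linarith)
  rw [abs_of_neg hu]
  refine h.congr fun n => ?_
  congr 1
  unfold Dsc.E Dsc.rf
  simp only
  refine sum_congr rfl fun m _ => ?_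
  congr 1
  by_cases c : (D n).Y m ≤ 0
  · rw [if_pos c, if_pos (by linarith)]
    congr 1
    ring
  · rw [if_neg c, if_neg (by linarith)]

end Pool.Agent.T9h26.BD
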