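import Pool.Agent.T9h26.BD.Lc

/-!
# A local limit theorem for weights
-/

set_option autoImplicit false

namespace Pool.Agent.T9h26.BD

open Finset Filter Topology MeasureTheory ProbabilityTheory

/-- a finite system of the points `Y m` with the weights `w m`, `m ∈ T` -/
structure Wsc where
  T : Finset ℕ
  w : ℕ → ℝ
  Y : ℕ → ℝ
  w0 : ∀ m, 0 ≤ w m
  wpos : 0 < ∑ m ∈ T, w m

/-- the weighted sum of a function -/
noncomputable def Wsc.E (d : Wsc) (f : ℝ → ℝ) : ℝ := ∑ m ∈ d.T, d.w m * f (d.Y m)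

/-- the characteristic function with the weight `exp (- s ^ 2 / 2)` -/
noncomputable def Wsc.W (d : Wsc) (η : ℝ) : ℂ :=
  ∑ m ∈ d.T, (d.w m : ℂ) *
    (Complex.exp ((η * d.Y m : ℝ) * Complex.I) * (Real.exp (-(d.Y m) ^ 2 / 2) : ℂ))

/-- the normalising factor -/
noncomputable def Wsc.Z (d : Wsc) : ℝ := ∑ m ∈ d.T, d.w m * Real.exp (-(d.Y m) ^ 2 / 2)

lemma wZ_pos (d : Wsc) : 0 < d.Z := by
  unfold Wsc.Z
  obtain ⟨m, hm, h2⟩ : ∃ m ∈ d.T, 0 < d.w m := by
    by_contra hcon
    push Not at hcon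
    exact absurd (sum_nonpos hcon) (not_le.2 d.wpos)
  exact sum_pos' (fun i _ => mul_nonneg (d.w0 i) (Real.exp_pos _).le)
    ⟨m, hm, mul_pos h2 (Real.exp_pos _)⟩

lemma wW_zero (d : Wsc) : d.W 0 = (d.Z : ℂ) := by
  unfold Wsc.W Wsc.Z
  rw [Complex.ofReal_sum]
  refine sum_congr rfl fun m _ => ?_
  push_cast
  simp

/-- the law with the weight `exp (- s ^ 2 / 2)` -/
noncomputable def Wsc.tw (d : Wsc) : Dsc where
  T := d.T
  w m := d.w m * Real.exp (-(d.Y m) ^ 2 / 2) / d.Z
  Y := d.Y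
  w0 m := div_nonneg (mul_nonneg (d.w0 m) (Real.exp_pos _).le) (wZ_pos d).le
  w1 := by
    rw [← sum_div]
    exact div_self (wZ_pos d).ne'

lemma wtw_phi (d : Wsc) (η : ℝ) : d.tw.phi η = d.W η / (d.Z : ℂ) := by
  unfold Dsc.phi Wsc.W Wsc.tw
  simp only
  rw [sum_div]
  refine sum_congr rfl fun m _ => ?_
  push_cast
  ring

/-- weak convergence -/
theorem weakW (D : ℕ → Wsc) (L : ℕ → ℝ) (hL : Tendsto L atTop atTop)
    (hW : ∀ η : ℝ, Tendsto (fun n => ((√(L n) : ℝ) : ℂ) * (D n).W η) atTop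
      (𝓝 (Real.exp (-η ^ 2 / 2) : ℂ)))
    (g : ℝ → ℝ) (hg : Continuous g) {a b : ℝ} (hab : a ≤ b) (h0 : ∀ s, s ≤ a ∨ b ≤ s → g s = 0) :
    Tendsto (fun n => √(2 * Real.pi * L n) * (D n).E g) atTop (𝓝 (∫ s in a..b, g s)) := by
  -- the normalised factor
  have hpos : ∀ᶠ n in atTop, 0 < L n := hL.eventually_gt_atTop 0
  have hZ : Tendsto (fun n => √(L n) * (D n).Z) atTop (𝓝 1) := by
    have h1 := hW 0
    have h2 := (Complex.continuous_re.tendsto _).comp h1
    simp only [Function.comp_def] at h2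
    have e : ∀ n, ((((√(L n) : ℝ) : ℂ)) * (D n).W 0).re = √(L n) * (D n).Z := by
      intro n
      rw [wW_zero, ← Complex.ofReal_mul, Complex.ofReal_re]
    simp only [e] at h2
    rw [Complex.ofReal_re] at h2
    simpa using h2
  let μ : ℕ → ProbabilityMeasure ℝ := fun n => ⟨(D n).tw.dm, inferInstance⟩
  let ν : ProbabilityMeasure ℝ := ⟨gaussianReal 0 1, inferInstance⟩
  have h1 : Tendsto μ atTop (𝓝 ν) := by
    rw [ProbabilityMeasure.tendsto_iff_tendsto_charFun]
    intro η
    have h3 : charFun (ν : Measure ℝ) η = (Real.exp (-η ^ 2 / 2) : ℂ) := by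
      change charFun (gaussianReal 0 1) η = _
      rw [charFun_gaussianReal]
      push_cast
      congr 1
      simp
      ring
    rw [h3]
    have h4 : ∀ n, charFun (μ n : Measure ℝ) η = (D n).W η / ((D n).Z : ℂ) := fun n => by
      change charFun (D n).tw.dm η = _
      rw [charFun_dm, wtw_phi]
    simp only [h4]
    have h5 := hW η
    have h6 : Tendsto (fun n => (((√(L n) * (D n).Z : ℝ)) : ℂ)) atTop (𝓝 ((1 : ℝ) : ℂ)) :=
      (Complex.continuous_ofReal.tendsto _).comp hZ
    have h7 := h5.div h6 (by simp)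
    have e7 : (Real.exp (-η ^ 2 / 2) : ℂ) / ((1 : ℝ) : ℂ) = (Real.exp (-η ^ 2 / 2) : ℂ) := by simp
    rw [e7] at h7
    refine h7.congr' ?_
    filter_upwards [hpos] with n hn
    have hs : ((√(L n) : ℝ) : ℂ) ≠ 0 := by
      exact_mod_cast (Real.sqrt_pos.2 hn).ne'
    simp only [Pi.div_apply]
    push_cast
    rw [mul_div_mul_left _ _ hs]
  rw [ProbabilityMeasure.tendsto_iff_forall_integral_tendsto] at h1
  -- the test function
  have hfc : Continuous (fun s : ℝ => g s * Real.exp (s ^ 2 / 2)) := by fun_prop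
  obtain ⟨B, hB⟩ : ∃ B : ℝ, ∀ s, ‖g s * Real.exp (s ^ 2 / 2)‖ ≤ B := by
    obtain ⟨B, hB⟩ := (isCompact_Icc (a := a) (b := b)).exists_bound_of_continuousOn hfc.continuousOn
    refine ⟨B, fun s => ?_⟩
    by_cases hs : s ∈ Set.Icc a b
    · exact hB s hs
    · have hs' : s ≤ a ∨ b ≤ s := by
        rw [Set.mem_Icc, not_and_or, not_le, not_le] at hs
        exact hs.imp le_of_lt le_of_lt
      have h2 := hB a (Set.left_mem_Icc.2 hab)
      rw [h0 s hs', zero_mul, norm_zero]
      exact (norm_nonneg _).trans h2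
  let f : BoundedContinuousFunction ℝ ℝ :=
    BoundedContinuousFunction.ofNormedAddCommGroup (fun s => g s * Real.exp (s ^ 2 / 2)) hfc B hB
  have h2 := h1 f
  have e3 : ∀ n, ∫ s, f s ∂(μ n : Measure ℝ) = (D n).E g / (D n).Z := by
    intro n
    change ∫ s, g s * Real.exp (s ^ 2 / 2) ∂(D n).tw.dm = _
    rw [integral_dm]
    unfold Wsc.E Wsc.tw
    simp only
    rw [sum_div]
    refine sum_congr rfl fun m _ => ?_
    rw [smul_eq_mul]
    have : Real.exp (-(D n).Y m ^ 2 / 2) * Real.exp ((D n).Y m ^ 2 / 2) = 1 := by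
      rw [← Real.exp_add]
      have : -(D n).Y m ^ 2 / 2 + (D n).Y m ^ 2 / 2 = 0 := by ring
      rw [this, Real.exp_zero]
    linear_combination ((D n).w m * g ((D n).Y m) / (D n).Z) * this
  have e4 : ∫ s, f s ∂(ν : Measure ℝ) = (√(2 * Real.pi))⁻¹ * ∫ s in a..b, g s := by
    change ∫ s, g s * Real.exp (s ^ 2 / 2) ∂(gaussianReal 0 1) = _
    rw [integral_gaussianReal_eq_integral_smul one_ne_zero]
    have e5 : ∀ s : ℝ, gaussianPDFReal 0 1 s • (g s * Real.exp (s ^ 2 / 2)) =
        (√(2 * Real.pi))⁻¹ * g s := by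
      intro s
      rw [gs_eq, smul_eq_mul]
      unfold gs
      have : Real.exp (-s ^ 2 / 2) * Real.exp (s ^ 2 / 2) = 1 := by
        rw [← Real.exp_add]
        have : -s ^ 2 / 2 + s ^ 2 / 2 = 0 := by ring
        rw [this, Real.exp_zero]
      linear_combination ((√(2 * Real.pi))⁻¹ * g s) * this
    simp only [e5]
    rw [integral_const_mul]
    congr 1
    symm
    apply intervalIntegral.integral_eq_integral_of_support_subset
    intro s hs
    rw [Function.mem_support] at hs
    rw [Set.mem_Ioc]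
    by_contra hcon
    apply hs
    apply h0
    rw [not_and_or, not_lt, not_le] at hcon
    exact hcon.imp id le_of_lt
  simp only [e3] at h2
  rw [e4] at h2
  have h3 := (h2.mul hZ).const_mul (√(2 * Real.pi))
  have e6 : √(2 * Real.pi) * ((√(2 * Real.pi))⁻¹ * (∫ s in a..b, g s) * 1) = ∫ s in a..b, g s := by
    have h3 : √(2 * Real.pi) ≠ 0 := by positivity
    field_simp
  rw [e6] at h3
  refine h3.congr fun n => ?_
  rw [Real.sqrt_mul (show (0 : ℝ) ≤ 2 * Real.pi by positivity) (L n)]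
  have := (wZ_pos (D n)).ne'
  field_simp

open Classical in
/-- **the local limit theorem**, on intervals, with a continuous weight -/
theorem lltW (D : ℕ → Wsc) (L : ℕ → ℝ) (hL : Tendsto L atTop atTop)
    (hW : ∀ η : ℝ, Tendsto (fun n => ((√(L n) : ℝ) : ℂ) * (D n).W η) atTop
      (𝓝 (Real.exp (-η ^ 2 / 2) : ℂ)))
    (k : ℝ → ℝ) (hk : Continuous k) (hk0 : ∀ s, 0 ≤ k s) {α β : ℝ} (hαβ : α < β) :
    Tendsto (fun n => √(2 * Real.pi * L n) *
      (D n).E (fun s => if α ≤ s ∧ s ≤ β then k s else 0)) atTop (𝓝 (∫ s in α..β, k s)) := by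
  obtain ⟨B, hB⟩ := (isCompact_Icc (a := α - 1) (b := β + 1)).exists_bound_of_continuousOn
    hk.continuousOn
  have hB0 : 0 ≤ B := (norm_nonneg _).trans (hB α ⟨by linarith, by linarith⟩)
  have hkB : ∀ s ∈ Set.Icc (α - 1) (β + 1), k s ≤ B := fun s hs => (Real.le_norm_self _).trans (hB s hs)
  have hint : ∀ a b : ℝ, IntervalIntegrable k volume a b := fun a b => hk.intervalIntegrable a b
  rw [Metric.tendsto_atTop]
  intro ε hε
  set δ : ℝ := min 1 (min ((β - α) / 2) (ε / (4 * (B + 1)))) with hδd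
  have hδ : 0 < δ := lt_min one_pos (lt_min (by linarith) (by positivity))
  have hδ1 : δ ≤ 1 := min_le_left _ _
  have hδ2 : δ ≤ (β - α) / 2 := (min_le_right _ _).trans (min_le_left _ _)
  have hδ3 : 2 * δ * B ≤ ε / 2 := by
    have h1 : δ ≤ ε / (4 * (B + 1)) := (min_le_right _ _).trans (min_le_right _ _)
    rw [le_div_iff₀ (by positivity)] at h1
    nlinarith
  have small : ∀ a b : ℝ, a ≤ b → α - 1 ≤ a → b ≤ β + 1 → ∫ s in a..b, k s ≤ (b - a) * B := by
    intro a b h1 h2 h3
    have := intervalIntegral.integral_mono_on h1 (hint a b) (intervalIntegrable_const (c := B))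
      (fun s hs => hkB s ⟨h2.trans hs.1, hs.2.trans h3⟩)
    simpa using this
  -- below
  set g1 : ℝ → ℝ := fun s => trap δ α β s * k s with hg1
  have c1 : Continuous g1 := (trap_cont δ α β).mul hk
  have t1 := weakW D L hL hW g1 c1 hαβ.le (fun s hs => by
    rw [hg1]; simp only; rw [trap_zero hδ hs, zero_mul])
  have l1 : (∫ s in α..β, k s) - ε / 2 ≤ ∫ s in α..β, g1 s := by
    have e1 : ∫ s in α..β, k s = (∫ s in α..(α + δ), k s) + (∫ s in (α + δ)..(β - δ), k s) +
        ∫ s in (β - δ)..β, k s := by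
      rw [intervalIntegral.integral_add_adjacent_intervals (hint _ _) (hint _ _),
        intervalIntegral.integral_add_adjacent_intervals (hint _ _) (hint _ _)]
    have e2 : ∫ s in α..β, g1 s = (∫ s in α..(α + δ), g1 s) + (∫ s in (α + δ)..(β - δ), g1 s) +
        ∫ s in (β - δ)..β, g1 s := by
      rw [intervalIntegral.integral_add_adjacent_intervals (c1.intervalIntegrable _ _)
        (c1.intervalIntegrable _ _),
        intervalIntegral.integral_add_adjacent_intervals (c1.intervalIntegrable _ _)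
        (c1.intervalIntegrable _ _)]
    have e3 : ∫ s in (α + δ)..(β - δ), g1 s = ∫ s in (α + δ)..(β - δ), k s := by
      apply intervalIntegral.integral_congr
      intro s hs
      rw [Set.uIcc_of_le (by linarith)] at hs
      rw [hg1]
      simp only
      rw [trap_one hδ hs.1 hs.2, one_mul]
    have p1 : 0 ≤ ∫ s in α..(α + δ), g1 s := intervalIntegral.integral_nonneg (by linarith)
      fun s _ => mul_nonneg (trap_nonneg _ _ _ _) (hk0 s)
    have p2 : 0 ≤ ∫ s in (β - δ)..β, g1 s := intervalIntegral.integral_nonneg (by linarith)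
      fun s _ => mul_nonneg (trap_nonneg _ _ _ _) (hk0 s)
    have q1 := small α (α + δ) (by linarith) (by linarith) (by linarith)
    have q2 := small (β - δ) β (by linarith) (by linarith) (by linarith)
    rw [e1, e2, e3]
    have q3 : (α + δ - α) * B + (β - (β - δ)) * B = 2 * δ * B := by ring
    linarith
  -- above
  set g2 : ℝ → ℝ := fun s => trap δ (α - δ) (β + δ) s * k s with hg2
  have c2 : Continuous g2 := (trap_cont _ _ _).mul hk
  have t2 := weakW D L hL hW g2 c2 (a := α - δ) (b := β + δ) (by linarith) (fun s hs => by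
    rw [hg2]; simp only; rw [trap_zero hδ hs, zero_mul])
  have l2 : ∫ s in (α - δ)..(β + δ), g2 s ≤ (∫ s in α..β, k s) + ε / 2 := by
    have h1 : ∫ s in (α - δ)..(β + δ), g2 s ≤ ∫ s in (α - δ)..(β + δ), k s := by
      apply intervalIntegral.integral_mono_on (by linarith) (c2.intervalIntegrable _ _) (hint _ _)
      intro s _
      calc g2 s ≤ 1 * k s := mul_le_mul_of_nonneg_right (trap_le_one _ _ _ _) (hk0 s)
        _ = k s := one_mul _
    have e1 : ∫ s in (α - δ)..(β + δ), k s = (∫ s in (α - δ)..α, k s) + (∫ s in α..β, k s) +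
        ∫ s in β..(β + δ), k s := by
      rw [intervalIntegral.integral_add_adjacent_intervals (hint _ _) (hint _ _),
        intervalIntegral.integral_add_adjacent_intervals (hint _ _) (hint _ _)]
    have q1 := small (α - δ) α (by linarith) (by linarith) (by linarith)
    have q2 := small β (β + δ) (by linarith) (by linarith) (by linarith)
    have q3 : (α - (α - δ)) * B + (β + δ - β) * B = 2 * δ * B := by ring
    linarith
  rw [Metric.tendsto_atTop] at t1 t2
  obtain ⟨n1, hn1⟩ := t1 (ε / 2) (by positivity)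
  obtain ⟨n2, hn2⟩ := t2 (ε / 2) (by positivity)
  refine ⟨max n1 n2, fun n hn => ?_⟩
  have a1 := hn1 n ((le_max_left _ _).trans hn)
  have a2 := hn2 n ((le_max_right _ _).trans hn)
  rw [Real.dist_eq, abs_lt] at a1 a2 ⊢
  have m1 : (D n).E g1 ≤ (D n).E (fun s => if α ≤ s ∧ s ≤ β then k s else 0) := by
    unfold Wsc.E
    refine sum_le_sum fun m _ => mul_le_mul_of_nonneg_left ?_ ((D n).w0 m)
    set s : ℝ := (D n).Y m
    rw [hg1]
    simp only
    split_ifs with h
    · calc _ ≤ 1 * k s := mul_le_mul_of_nonneg_right (trap_le_one _ _ _ _) (hk0 s)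
        _ = k s := one_mul _
    · rw [not_and_or, not_le, not_le] at h
      rw [trap_zero hδ (h.imp le_of_lt le_of_lt), zero_mul]
  have m2 : (D n).E (fun s => if α ≤ s ∧ s ≤ β then k s else 0) ≤ (D n).E g2 := by
    unfold Wsc.E
    refine sum_le_sum fun m _ => mul_le_mul_of_nonneg_left ?_ ((D n).w0 m)
    set s : ℝ := (D n).Y m
    rw [hg2]
    simp only
    split_ifs with h
    · rw [trap_one hδ (by linarith [h.1]) (by linarith [h.2]), one_mul]
    · exact mul_nonneg (trap_nonneg _ _ _ _) (hk0 s)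
  have hs : 0 ≤ √(2 * Real.pi * L n) := Real.sqrt_nonneg _
  have m3 := mul_le_mul_of_nonneg_left m1 hs
  have m4 := mul_le_mul_of_nonneg_left m2 hs
  constructor <;> linarith [a1.1, a2.2]

end Pool.Agent.T9h26.BD
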