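import Pool.Agent.T9h58.LN.Gen
import Pool.Agent.N430.CLT.Limit
import Pool.Agent.T9h26.BD.Lc

/-!
# The tilted local characteristic functions
-/

set_option autoImplicit false

namespace Pool.Agent.T9h26.BD

open Finset Filter Topology Pool.Agent.N430.CLT Pool.Agent.T9h58.LN

lemma rexp_rem (x : ℝ) (n : ℕ) :
    |Real.exp x - ∑ m ∈ range n, x ^ m / (m.factorial : ℝ)| ≤ |x| ^ n * Real.exp |x| := by
  have h := Complex.norm_exp_sub_sum_le_norm_mul_exp (x : ℂ) n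
  rw [Complex.norm_real, Real.norm_eq_abs] at h
  have e : Complex.exp (x : ℂ) - ∑ m ∈ range n, (x : ℂ) ^ m / (m.factorial : ℂ) =
      ((Real.exp x - ∑ m ∈ range n, x ^ m / (m.factorial : ℝ) : ℝ) : ℂ) := by
    push_cast
    rfl
  rw [e, Complex.norm_real, Real.norm_eq_abs] at h
  exact h

lemma rexp_rem3 (x : ℝ) : |Real.exp x - 1 - x - x ^ 2 / 2| ≤ |x| ^ 3 * Real.exp |x| := by
  have h := rexp_rem x 3
  have e : ∑ m ∈ range 3, x ^ m / (m.factorial : ℝ) = 1 + x + x ^ 2 / 2 := by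
    simp [Finset.sum_range_succ, Nat.factorial]
  rw [e] at h
  have e2 : Real.exp x - 1 - x - x ^ 2 / 2 = Real.exp x - (1 + x + x ^ 2 / 2) := by ring
  rw [e2]
  exact h

lemma cexp_rem3 (s : ℝ) :
    ‖Complex.exp (s * Complex.I) - (1 + s * Complex.I - ((s ^ 2 / 2 : ℝ) : ℂ))‖ ≤ |s| ^ 3 := by
  have h := norm_rem_le 3 s
  unfold rem at h
  have e : ∑ m ∈ range 3, ((s : ℂ) * Complex.I) ^ m / (m.factorial : ℂ) =
      1 + s * Complex.I - ((s ^ 2 / 2 : ℝ) : ℂ) := by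
    simp [Finset.sum_range_succ, Nat.factorial]
    rw [mul_pow, Complex.I_sq]
    ring
  rw [e] at h
  refine h.trans ?_
  have : (0 : ℝ) ≤ |s| ^ 3 := by positivity
  norm_num [Nat.factorial]
  linarith

lemma exp_mul_le {u y C : ℝ} (hy : |y| ≤ C) : Real.exp |u * y| ≤ Real.exp (|u| * C) := by
  apply Real.exp_le_exp.2
  rw [abs_mul]
  exact mul_le_mul_of_nonneg_left hy (abs_nonneg _)

lemma num_a {a v : ℝ} (ha : 0 ≤ a) (hv : 0 ≤ v) :
    a ^ 3 + v ^ 2 * a + v * (a ^ 2 / 2) ≤ (1 + v + v ^ 2) * (a + a ^ 3) := by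
  have h1 : a ^ 2 / 2 ≤ a + a ^ 3 := by
    have := mul_nonneg ha (sq_nonneg (a - 1 / 2))
    have e : a * (a - 1 / 2) ^ 2 = a ^ 3 - a ^ 2 + a / 4 := by ring
    nlinarith
  have h2 := mul_le_mul_of_nonneg_left h1 hv
  have h3 : 0 ≤ v ^ 2 * a ^ 3 := by positivity
  have e : (1 + v + v ^ 2) * (a + a ^ 3) = a + a ^ 3 + v * (a + a ^ 3) + v ^ 2 * a + v ^ 2 * a ^ 3 := by
    ring
  rw [e]
  linarith

lemma pt (u ξ y C : ℝ) (hy : |y| ≤ C) :
    ‖(Real.exp (u * y) : ℂ) * (Complex.exp ((ξ * y : ℝ) * Complex.I) - 1) -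
      (((ξ * (y + u * y ^ 2) : ℝ) : ℂ) * Complex.I - ((ξ ^ 2 * y ^ 2 / 2 : ℝ) : ℂ))‖ ≤
      Real.exp (|u| * C) * (1 + |u| + |u| ^ 2) * (|ξ| + |ξ| ^ 3) * |y| ^ 3 := by
  set A : ℝ := Real.exp (|u| * C) with hA
  have hA0 : 0 < A := Real.exp_pos _
  have e : (Real.exp (u * y) : ℂ) * (Complex.exp ((ξ * y : ℝ) * Complex.I) - 1) -
      (((ξ * (y + u * y ^ 2) : ℝ) : ℂ) * Complex.I - ((ξ ^ 2 * y ^ 2 / 2 : ℝ) : ℂ)) =
      (Real.exp (u * y) : ℂ) * (Complex.exp ((ξ * y : ℝ) * Complex.I) -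
        (1 + (ξ * y : ℝ) * Complex.I - (((ξ * y) ^ 2 / 2 : ℝ) : ℂ))) +
      ((Real.exp (u * y) - 1 - u * y : ℝ) : ℂ) * (((ξ * y : ℝ) : ℂ) * Complex.I) -
      (((Real.exp (u * y) - 1) * (ξ ^ 2 * y ^ 2 / 2) : ℝ) : ℂ) := by
    push_cast
    ring
  have hE := exp_mul_le (u := u) hy
  have b0 : Real.exp (u * y) ≤ A := (Real.exp_le_exp.2 (le_abs_self _)).trans hE
  have b1 : |Real.exp (u * y) - 1| ≤ |u| * |y| * A := by
    have h := rexp_rem (u * y) 1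
    simp only [sum_range_one, pow_zero, Nat.factorial_zero, Nat.cast_one, div_one, pow_one] at h
    rw [abs_mul u y] at h
    refine h.trans (mul_le_mul_of_nonneg_left ?_ (by positivity))
    rw [← abs_mul]
    exact hE
  have b2 : |Real.exp (u * y) - 1 - u * y| ≤ |u| ^ 2 * |y| ^ 2 * A := by
    have h := rexp_rem (u * y) 2
    simp only [sum_range_succ, range_zero, sum_empty, zero_add, pow_zero, Nat.factorial_zero,
      Nat.cast_one, div_one, pow_one, Nat.factorial_one] at h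
    rw [sub_sub]
    refine h.trans ?_
    rw [abs_mul u y, mul_pow]
    refine mul_le_mul_of_nonneg_left ?_ (by positivity)
    rw [← abs_mul]
    exact hE
  rw [e]
  refine (norm_sub_le _ _).trans ?_
  refine (add_le_add (norm_add_le _ _) le_rfl).trans ?_
  have t1 : ‖(Real.exp (u * y) : ℂ) * (Complex.exp ((ξ * y : ℝ) * Complex.I) -
        (1 + (ξ * y : ℝ) * Complex.I - (((ξ * y) ^ 2 / 2 : ℝ) : ℂ)))‖ ≤ A * (|ξ| ^ 3 * |y| ^ 3) := by
    rw [norm_mul, Complex.norm_real, Real.norm_eq_abs, abs_of_pos (Real.exp_pos _)]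
    refine mul_le_mul b0 ?_ (norm_nonneg _) hA0.le
    refine (cexp_rem3 (ξ * y)).trans (le_of_eq ?_)
    rw [abs_mul, mul_pow]
  have t2 : ‖((Real.exp (u * y) - 1 - u * y : ℝ) : ℂ) * (((ξ * y : ℝ) : ℂ) * Complex.I)‖ ≤
      |u| ^ 2 * |y| ^ 2 * A * (|ξ| * |y|) := by
    rw [norm_mul, norm_mul, Complex.norm_I, mul_one, Complex.norm_real, Complex.norm_real,
      Real.norm_eq_abs, Real.norm_eq_abs, abs_mul ξ y]
    exact mul_le_mul_of_nonneg_right b2 (by positivity)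
  have t3 : ‖(((Real.exp (u * y) - 1) * (ξ ^ 2 * y ^ 2 / 2) : ℝ) : ℂ)‖ ≤
      |u| * |y| * A * (|ξ| ^ 2 * |y| ^ 2 / 2) := by
    rw [Complex.norm_real, Real.norm_eq_abs, abs_mul]
    refine mul_le_mul b1 (le_of_eq ?_) (abs_nonneg _) (by positivity)
    rw [abs_of_nonneg (by positivity), sq_abs, sq_abs]
  have h5 := num_a (abs_nonneg ξ) (abs_nonneg u)
  have h6 : 0 ≤ A * |y| ^ 3 := by positivity
  have h7 := mul_le_mul_of_nonneg_left h5 h6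
  calc _ ≤ A * (|ξ| ^ 3 * |y| ^ 3) + |u| ^ 2 * |y| ^ 2 * A * (|ξ| * |y|) +
        |u| * |y| * A * (|ξ| ^ 2 * |y| ^ 2 / 2) := add_le_add (add_le_add t1 t2) t3
    _ = A * |y| ^ 3 * (|ξ| ^ 3 + |u| ^ 2 * |ξ| + |u| * (|ξ| ^ 2 / 2)) := by ring
    _ ≤ A * |y| ^ 3 * ((1 + |u| + |u| ^ 2) * (|ξ| + |ξ| ^ 3)) := h7
    _ = _ := by ring

/-- the local exponential moment -/
noncomputable def Zp (l : Loc) (u : ℝ) (p : ℕ) : ℝ := avgP p (fun m => Real.exp (u * l.G p m))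

/-- the local tilted transform -/
noncomputable def ap (l : Loc) (u : ℝ) (p : ℕ) (ξ : ℝ) : ℂ :=
  avgP p (fun m => (Real.exp (u * l.G p m) : ℂ) * Complex.exp ((ξ * l.G p m : ℝ) * Complex.I))

lemma avgP_ofReal (p : ℕ) (F : ℕ → ℝ) : avgP p (fun m => ((F m : ℝ) : ℂ)) = ((avgP p F : ℝ) : ℂ) := by
  unfold avgP
  push_cast
  rfl

lemma G_cube (l : Loc) {p : ℕ} (hp : p.Prime) (m : ℕ) : |l.G p m| ≤ l.C ∧
    |l.G p m| ^ 3 ≤ l.C ^ 3 / (p * √p) := by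
  have hC0 : 0 < l.C := lt_of_lt_of_le one_pos l.hC
  have hp0 : (0 : ℝ) < p := by exact_mod_cast hp.pos
  have hp1 : (1 : ℝ) ≤ p := by exact_mod_cast hp.one_le
  have hsp : 0 < √(p : ℝ) := Real.sqrt_pos.2 hp0
  have hs1 : 1 ≤ √(p : ℝ) := by rw [Real.one_le_sqrt]; exact hp1
  have hss : √(p : ℝ) * √(p : ℝ) = p := Real.mul_self_sqrt hp0.le
  have h := l.bd p hp m
  refine ⟨h.trans (div_le_self hC0.le hs1), ?_⟩
  calc |l.G p m| ^ 3 ≤ (l.C / √p) ^ 3 := pow_le_pow_left₀ (abs_nonneg _) h 3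
    _ = l.C ^ 3 / (p * √p) := by
        rw [div_pow]
        congr 1
        rw [← hss, Real.sqrt_mul_self hsp.le]
        ring

lemma avgP_re_le {p : ℕ} (hp : 0 < p) {F : ℕ → ℂ} {c : ℝ} (h : ∀ m, ‖F m‖ ≤ c) :
    ‖avgP p F‖ ≤ c := by
  have := norm_avgP_le (N := p) F (fun _ => c) h
  rwa [avgP_const hp] at this

lemma pp_le {p : ℕ} (hp : p.Prime) : (p : ℝ) * √p ≤ p * p ∧ (0 : ℝ) < p * √p := by
  have hp0 : (0 : ℝ) < p := by exact_mod_cast hp.pos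
  have hp1 : (1 : ℝ) ≤ p := by exact_mod_cast hp.one_le
  have hsp : 0 < √(p : ℝ) := Real.sqrt_pos.2 hp0
  have hs1 : 1 ≤ √(p : ℝ) := by rw [Real.one_le_sqrt]; exact hp1
  have hss : √(p : ℝ) * √(p : ℝ) = p := Real.mul_self_sqrt hp0.le
  refine ⟨mul_le_mul_of_nonneg_left ?_ hp0.le, by positivity⟩
  nlinarith

/-- the difference of the transform and the moment -/
lemma ap_sub (l : Loc) (u : ℝ) : ∃ K : ℝ, 0 ≤ K ∧ ∀ p, p.Prime → ∀ ξ : ℝ,
    ‖ap l u p ξ - (Zp l u p : ℂ) -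
      (((ξ * (l.κ + u) / p : ℝ) : ℂ) * Complex.I - ((ξ ^ 2 / (2 * p) : ℝ) : ℂ))‖ ≤
      K * (|ξ| + |ξ| ^ 3) / (p * √p) := by
  have hC0 : 0 < l.C := lt_of_lt_of_le one_pos l.hC
  set K₁ : ℝ := Real.exp (|u| * l.C) * (1 + |u| + |u| ^ 2) * l.C ^ 3 with hK₁
  have hK₁0 : 0 ≤ K₁ := by positivity
  refine ⟨K₁ + (2 + |u|) * l.C, by positivity, fun p hp ξ => ?_⟩
  have hp0 : (0 : ℝ) < p := by exact_mod_cast hp.pos
  obtain ⟨_, hpp0⟩ := pp_le hp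
  set g1 : ℝ := avgP p (l.G p) with hg1
  set g2 : ℝ := avgP p (fun m => l.G p m ^ 2) with hg2
  have hm : |g1 - l.κ / p| ≤ l.C / (p * √p) := l.mean p hp
  have hq : |g2 - 1 / p| ≤ l.C / (p * √p) := l.sq p hp
  -- the averages
  have e1 : ap l u p ξ - (Zp l u p : ℂ) - (((ξ * (g1 + u * g2) : ℝ) : ℂ) * Complex.I -
      ((ξ ^ 2 * g2 / 2 : ℝ) : ℂ)) = avgP p (fun m => (Real.exp (u * l.G p m) : ℂ) *
        (Complex.exp ((ξ * l.G p m : ℝ) * Complex.I) - 1) -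
      (((ξ * (l.G p m + u * l.G p m ^ 2) : ℝ) : ℂ) * Complex.I -
        ((ξ ^ 2 * l.G p m ^ 2 / 2 : ℝ) : ℂ))) := by
    rw [avgP_sub', avgP_sub']
    have f1 : avgP p (fun m => (Real.exp (u * l.G p m) : ℂ) *
        (Complex.exp ((ξ * l.G p m : ℝ) * Complex.I) - 1)) = ap l u p ξ - (Zp l u p : ℂ) := by
      unfold ap Zp
      rw [← avgP_ofReal, ← avgP_sub']
      congr 1
      funext m
      ring
    have f2 : avgP p (fun m => ((ξ * (l.G p m + u * l.G p m ^ 2) : ℝ) : ℂ) * Complex.I) =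
        ((ξ * (g1 + u * g2) : ℝ) : ℂ) * Complex.I := by
      have h1 : (fun m => ((ξ * (l.G p m + u * l.G p m ^ 2) : ℝ) : ℂ) * Complex.I) =
          fun m => Complex.I * ((ξ * (l.G p m + u * l.G p m ^ 2) : ℝ) : ℂ) := by
        funext m; ring
      rw [h1, avgP_mul_left, avgP_ofReal, avgP_mul_left, avgP_add, avgP_mul_left]
      ring
    have f3 : avgP p (fun m => ((ξ ^ 2 * l.G p m ^ 2 / 2 : ℝ) : ℂ)) =
        ((ξ ^ 2 * g2 / 2 : ℝ) : ℂ) := by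
      have h1 : (fun m => ((ξ ^ 2 * l.G p m ^ 2 / 2 : ℝ) : ℂ)) =
          fun m => (((ξ ^ 2 / 2) * l.G p m ^ 2 : ℝ) : ℂ) := by
        funext m; congr 1; ring
      rw [h1, avgP_ofReal, avgP_mul_left]
      congr 1
      ring
    rw [f1, f2, f3]
  have b1 : ‖ap l u p ξ - (Zp l u p : ℂ) - (((ξ * (g1 + u * g2) : ℝ) : ℂ) * Complex.I -
      ((ξ ^ 2 * g2 / 2 : ℝ) : ℂ))‖ ≤ K₁ * (|ξ| + |ξ| ^ 3) / (p * √p) := by
    rw [e1]
    apply avgP_re_le hp.pos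
    intro m
    obtain ⟨g3, g4⟩ := G_cube l hp m
    refine (pt u ξ (l.G p m) l.C g3).trans ?_
    calc _ ≤ Real.exp (|u| * l.C) * (1 + |u| + |u| ^ 2) * (|ξ| + |ξ| ^ 3) * (l.C ^ 3 / (p * √p)) :=
          mul_le_mul_of_nonneg_left g4 (by positivity)
      _ = _ := by rw [hK₁]; ring
  have e2 : ap l u p ξ - (Zp l u p : ℂ) -
      (((ξ * (l.κ + u) / p : ℝ) : ℂ) * Complex.I - ((ξ ^ 2 / (2 * p) : ℝ) : ℂ)) =
      (ap l u p ξ - (Zp l u p : ℂ) - (((ξ * (g1 + u * g2) : ℝ) : ℂ) * Complex.I -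
      ((ξ ^ 2 * g2 / 2 : ℝ) : ℂ))) + ((ξ * ((g1 - l.κ / p) + u * (g2 - 1 / p)) : ℝ) : ℂ) * Complex.I -
      ((ξ ^ 2 / 2 * (g2 - 1 / p) : ℝ) : ℂ) := by
    push_cast
    ring
  rw [e2]
  refine (norm_sub_le _ _).trans ?_
  refine (add_le_add (norm_add_le _ _) le_rfl).trans ?_
  have b2 : ‖((ξ * ((g1 - l.κ / p) + u * (g2 - 1 / p)) : ℝ) : ℂ) * Complex.I‖ ≤
      |ξ| * ((1 + |u|) * (l.C / (p * √p))) := by
    rw [norm_mul, Complex.norm_I, mul_one, Complex.norm_real, Real.norm_eq_abs, abs_mul]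
    refine mul_le_mul_of_nonneg_left ?_ (abs_nonneg _)
    refine (abs_add_le _ _).trans ?_
    rw [abs_mul, add_mul, one_mul]
    exact add_le_add hm (mul_le_mul_of_nonneg_left hq (abs_nonneg _))
  have b3 : ‖((ξ ^ 2 / 2 * (g2 - 1 / p) : ℝ) : ℂ)‖ ≤ |ξ| ^ 2 / 2 * (l.C / (p * √p)) := by
    rw [Complex.norm_real, Real.norm_eq_abs, abs_mul, abs_of_nonneg (by positivity : 0 ≤ ξ ^ 2 / 2),
      sq_abs]
    exact mul_le_mul_of_nonneg_left hq (by positivity)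
  have h1 : |ξ| ^ 2 / 2 ≤ |ξ| + |ξ| ^ 3 := by
    have := num_a (abs_nonneg ξ) (v := 1) zero_le_one
    have h2 := mul_nonneg (abs_nonneg ξ) (sq_nonneg (|ξ| - 1 / 2))
    have e : |ξ| * (|ξ| - 1 / 2) ^ 2 = |ξ| ^ 3 - |ξ| ^ 2 + |ξ| / 4 := by ring
    have h3 := abs_nonneg ξ
    nlinarith [sq_nonneg |ξ|]
  have hD : 0 ≤ l.C / (p * √(p : ℝ)) := by positivity
  have h3 := mul_le_mul_of_nonneg_right h1 hD
  have h4 : |ξ| * ((1 + |u|) * (l.C / (p * √p))) ≤ (|ξ| + |ξ| ^ 3) * ((1 + |u|) * (l.C / (p * √p))) := by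
    apply mul_le_mul_of_nonneg_right _ (by positivity)
    have : 0 ≤ |ξ| ^ 3 := by positivity
    linarith
  calc _ ≤ K₁ * (|ξ| + |ξ| ^ 3) / (p * √p) + |ξ| * ((1 + |u|) * (l.C / (p * √p))) +
        |ξ| ^ 2 / 2 * (l.C / (p * √p)) := add_le_add (add_le_add b1 b2) b3
    _ ≤ K₁ * (|ξ| + |ξ| ^ 3) / (p * √p) + (|ξ| + |ξ| ^ 3) * ((1 + |u|) * (l.C / (p * √p))) +
        (|ξ| + |ξ| ^ 3) * (l.C / (p * √p)) := by linarith
    _ = _ := by ring

/-- the local exponential moment -/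
lemma Zp_near (l : Loc) (u : ℝ) : ∃ K : ℝ, 0 ≤ K ∧ ∀ p, p.Prime →
    |Zp l u p - 1 - (l.κ * u + u ^ 2 / 2) / p| ≤ K / (p * √p) ∧
      Real.exp (-(|u| * l.C)) ≤ Zp l u p := by
  have hC0 : 0 < l.C := lt_of_lt_of_le one_pos l.hC
  set K₁ : ℝ := |u| ^ 3 * Real.exp (|u| * l.C) * l.C ^ 3 with hK₁
  refine ⟨K₁ + (|u| + |u| ^ 2 / 2) * l.C, by positivity, fun p hp => ?_⟩
  have hp0 : (0 : ℝ) < p := by exact_mod_cast hp.pos
  obtain ⟨_, hpp0⟩ := pp_le hp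
  set g1 : ℝ := avgP p (l.G p) with hg1
  set g2 : ℝ := avgP p (fun m => l.G p m ^ 2) with hg2
  have hm : |g1 - l.κ / p| ≤ l.C / (p * √p) := l.mean p hp
  have hq : |g2 - 1 / p| ≤ l.C / (p * √p) := l.sq p hp
  constructor
  · have e1 : Zp l u p - 1 - u * g1 - u ^ 2 / 2 * g2 = avgP p (fun m => Real.exp (u * l.G p m) - 1 -
        u * l.G p m - u ^ 2 / 2 * l.G p m ^ 2) := by
      rw [avgP_sub', avgP_sub', avgP_sub', avgP_const hp.pos, avgP_mul_left, avgP_mul_left]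
      rfl
    have b1 : |Zp l u p - 1 - u * g1 - u ^ 2 / 2 * g2| ≤ K₁ / (p * √p) := by
      rw [e1]
      apply abs_avgP_le hp.pos
      intro m
      obtain ⟨g3, g4⟩ := G_cube l hp m
      have h := rexp_rem3 (u * l.G p m)
      have e2 : Real.exp (u * l.G p m) - 1 - u * l.G p m - u ^ 2 / 2 * l.G p m ^ 2 =
          Real.exp (u * l.G p m) - 1 - u * l.G p m - (u * l.G p m) ^ 2 / 2 := by
        ring
      rw [e2]
      refine h.trans ?_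
      have h5 := exp_mul_le (u := u) g3
      calc |u * l.G p m| ^ 3 * Real.exp |u * l.G p m|
          ≤ |u| ^ 3 * (l.C ^ 3 / (p * √p)) * Real.exp (|u| * l.C) := by
            refine mul_le_mul ?_ h5 (Real.exp_pos _).le (by positivity)
            rw [abs_mul, mul_pow]
            exact mul_le_mul_of_nonneg_left g4 (by positivity)
        _ = _ := by rw [hK₁]; ring
    have e3 : Zp l u p - 1 - (l.κ * u + u ^ 2 / 2) / p = (Zp l u p - 1 - u * g1 - u ^ 2 / 2 * g2) +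
        (u * (g1 - l.κ / p) + u ^ 2 / 2 * (g2 - 1 / p)) := by ring
    rw [e3]
    refine (abs_add_le _ _).trans ?_
    have b2 : |u * (g1 - l.κ / p) + u ^ 2 / 2 * (g2 - 1 / p)| ≤
        |u| * (l.C / (p * √p)) + |u| ^ 2 / 2 * (l.C / (p * √p)) := by
      refine (abs_add_le _ _).trans ?_
      rw [abs_mul, abs_mul, abs_of_nonneg (by positivity : 0 ≤ u ^ 2 / 2), sq_abs]
      exact add_le_add (mul_le_mul_of_nonneg_left hm (abs_nonneg _))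
        (mul_le_mul_of_nonneg_left hq (by positivity))
    calc _ ≤ K₁ / (p * √p) + (|u| * (l.C / (p * √p)) + |u| ^ 2 / 2 * (l.C / (p * √p))) :=
          add_le_add b1 b2
      _ = _ := by ring
  · unfold Zp
    have h1 := avgP_mono (N := p) (fun _ => Real.exp (-(|u| * l.C)))
      (fun m => Real.exp (u * l.G p m)) (fun m => by
        apply Real.exp_le_exp.2
        have h2 := (G_cube l hp m).1
        have h3 : |u * l.G p m| ≤ |u| * l.C := by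
          rw [abs_mul]
          exact mul_le_mul_of_nonneg_left h2 (abs_nonneg _)
        exact (abs_le.1 h3).1)
    rwa [avgP_const hp.pos] at h1

/-- **the tilted local characteristic function** -/
theorem tilt (l : Loc) (u : ℝ) : ∃ K : ℝ, 1 ≤ K ∧ ∀ p, p.Prime → ∀ ξ : ℝ,
    ‖ap l u p ξ / (Zp l u p : ℂ) -
      (1 + (((ξ * (l.κ + u) / p : ℝ) : ℂ) * Complex.I - ((ξ ^ 2 / (2 * p) : ℝ) : ℂ)))‖ ≤
      K * (|ξ| + |ξ| ^ 3) / (p * √p) := by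
  obtain ⟨K₁, hK₁, h1⟩ := ap_sub l u
  obtain ⟨K₂, hK₂, h2⟩ := Zp_near l u
  set lam : ℝ := l.κ * u + u ^ 2 / 2 with hlam
  set c₀ : ℝ := Real.exp (|u| * l.C) with hc₀
  have hc₀0 : 0 < c₀ := Real.exp_pos _
  refine ⟨c₀ * (K₁ + (|lam| + K₂) * (|l.κ + u| + 1)) + 1, by
    have : 0 ≤ c₀ * (K₁ + (|lam| + K₂) * (|l.κ + u| + 1)) := by positivity
    linarith, fun p hp ξ => ?_⟩
  have hp0 : (0 : ℝ) < p := by exact_mod_cast hp.pos
  obtain ⟨hpp1, hpp0⟩ := pp_le hp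
  have a1 := h1 p hp ξ
  obtain ⟨a2, a3⟩ := h2 p hp
  set Z : ℝ := Zp l u p with hZ
  have hZ0 : 0 < Z := lt_of_lt_of_le (Real.exp_pos _) a3
  set z : ℂ := ((ξ * (l.κ + u) / p : ℝ) : ℂ) * Complex.I - ((ξ ^ 2 / (2 * p) : ℝ) : ℂ) with hz
  have hZc : (Z : ℂ) ≠ 0 := by exact_mod_cast hZ0.ne'
  have hZinv : 1 / Z ≤ c₀ := by
    rw [div_le_iff₀ hZ0]
    have h4 := mul_le_mul_of_nonneg_left a3 hc₀0.le
    rw [hc₀, ← Real.exp_add, add_neg_cancel, Real.exp_zero] at h4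
    exact h4
  have e1 : ap l u p ξ / (Z : ℂ) - (1 + z) =
      ((ap l u p ξ - (Z : ℂ) - z) - ((Z - 1 : ℝ) : ℂ) * z) / (Z : ℂ) := by
    push_cast
    field_simp
    ring
  have b1 : |Z - 1| ≤ (|lam| + K₂) / p := by
    have h4 : K₂ / (p * √p) ≤ K₂ / p := by
      apply div_le_div_of_nonneg_left hK₂ hp0
      have hp1 : (1 : ℝ) ≤ p := by exact_mod_cast hp.one_le
      have hs1 : 1 ≤ √(p : ℝ) := by rw [Real.one_le_sqrt]; exact hp1
      nlinarith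
    have h5 : |lam / (p : ℝ)| = |lam| / p := by rw [abs_div, abs_of_pos hp0]
    calc |Z - 1| = |(Z - 1 - lam / p) + lam / p| := by congr 1; ring
      _ ≤ K₂ / (p * √p) + |lam| / p := by
          rw [← h5]; exact (abs_add_le _ _).trans (add_le_add a2 le_rfl)
      _ ≤ (|lam| + K₂) / p := by
          rw [add_div]; linarith
  have b2 : ‖z‖ ≤ (|l.κ + u| + 1) * (|ξ| + |ξ| ^ 3) / p := by
    rw [hz]
    refine (norm_sub_le _ _).trans ?_
    rw [norm_mul, Complex.norm_I, mul_one, Complex.norm_real, Complex.norm_real, Real.norm_eq_abs,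
      Real.norm_eq_abs, abs_div, abs_mul, abs_of_pos hp0,
      abs_of_nonneg (by positivity : 0 ≤ ξ ^ 2 / (2 * (p : ℝ)))]
    have h4 : |ξ| ^ 2 / 2 ≤ |ξ| + |ξ| ^ 3 := by
      have h2 := mul_nonneg (abs_nonneg ξ) (sq_nonneg (|ξ| - 1 / 2))
      have e : |ξ| * (|ξ| - 1 / 2) ^ 2 = |ξ| ^ 3 - |ξ| ^ 2 + |ξ| / 4 := by ring
      have h3 := abs_nonneg ξ
      nlinarith [sq_nonneg |ξ|]
    have h5 : 0 ≤ |l.κ + u| * |ξ| ^ 3 := by positivity
    have e : |ξ| * |l.κ + u| / p + ξ ^ 2 / (2 * p) = (|l.κ + u| * |ξ| + |ξ| ^ 2 / 2) / p := by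
      rw [sq_abs]
      field_simp
    rw [e]
    apply div_le_div_of_nonneg_right _ hp0.le
    nlinarith
  rw [e1, norm_div, Complex.norm_real, Real.norm_eq_abs, abs_of_pos hZ0, div_eq_mul_one_div]
  have b3 : ‖(ap l u p ξ - (Z : ℂ) - z) - ((Z - 1 : ℝ) : ℂ) * z‖ ≤
      (K₁ + (|lam| + K₂) * (|l.κ + u| + 1)) * (|ξ| + |ξ| ^ 3) / (p * √p) := by
    refine (norm_sub_le _ _).trans ?_
    rw [norm_mul, Complex.norm_real, Real.norm_eq_abs]
    have h6 : |Z - 1| * ‖z‖ ≤ (|lam| + K₂) * (|l.κ + u| + 1) * (|ξ| + |ξ| ^ 3) / (p * √p) := by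
      calc |Z - 1| * ‖z‖ ≤ ((|lam| + K₂) / p) * ((|l.κ + u| + 1) * (|ξ| + |ξ| ^ 3) / p) :=
            mul_le_mul b1 b2 (norm_nonneg _) (by positivity)
        _ = (|lam| + K₂) * (|l.κ + u| + 1) * (|ξ| + |ξ| ^ 3) / (p * p) := by
            field_simp
        _ ≤ _ := div_le_div_of_nonneg_left (by positivity) hpp0 hpp1
    calc _ ≤ K₁ * (|ξ| + |ξ| ^ 3) / (p * √p) +
          (|lam| + K₂) * (|l.κ + u| + 1) * (|ξ| + |ξ| ^ 3) / (p * √p) := add_le_add a1 h6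
      _ = _ := by ring
  calc _ ≤ ((K₁ + (|lam| + K₂) * (|l.κ + u| + 1)) * (|ξ| + |ξ| ^ 3) / (p * √p)) * c₀ :=
        mul_le_mul b3 hZinv (by positivity) (by positivity)
    _ = c₀ * (K₁ + (|lam| + K₂) * (|l.κ + u| + 1)) * (|ξ| + |ξ| ^ 3) / (p * √p) := by ring
    _ ≤ _ := by
        apply div_le_div_of_nonneg_right _ hpp0.le
        apply mul_le_mul_of_nonneg_right _ (by positivity)
        linarith

end Pool.Agent.T9h26.BD
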