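import Pool.Agent.T9h26.BD.Ta
import Pool.Agent.H305R2.MertensM

/-!
# The tilted characteristic functions of sums over primes
-/

set_option autoImplicit false

namespace Pool.Agent.T9h26.BD

open Finset Filter Topology Pool.Agent.N430.CLT Pool.Agent.T9h58.LN

/-- `log log x` -/
noncomputable def ll (x : ℕ) : ℝ := Real.log (Real.log x)

/-- the sum of the reciprocals of the primes -/
noncomputable def Hs (x : ℕ) : ℝ := ∑ p ∈ PP x, (1 : ℝ) / p

lemma mert_lim : ∃ M : ℝ, Tendsto (fun x : ℕ => Hs x - ll x) atTop (𝓝 M) := by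
  obtain ⟨M, hM⟩ := Pool.Agent.H305R2.mertens_inv_tendsto
  refine ⟨M, hM.congr fun x => ?_⟩
  have e : PP x = (Icc 1 x).filter Nat.Prime := by
    ext p
    rw [mem_PP, mem_filter, mem_Icc]
    exact ⟨fun h => ⟨⟨h.2.one_le, h.1⟩, h.2⟩, fun h => ⟨h.1.2, h.2⟩⟩
  unfold Hs ll
  rw [e]

/-- the exponential moment -/
noncomputable def Mx (l : Loc) (u : ℝ) (x : ℕ) : ℝ := ∏ p ∈ PP x, Zp l u p

lemma Zp_pos (l : Loc) (u : ℝ) {p : ℕ} (hp : p.Prime) : 0 < Zp l u p := by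
  obtain ⟨K, _, h⟩ := Zp_near l u
  exact lt_of_lt_of_le (Real.exp_pos _) (h p hp).2

lemma Mx_pos (l : Loc) (u : ℝ) (x : ℕ) : 0 < Mx l u x :=
  prod_pos fun _ hp => Zp_pos l u (mem_PP.1 hp).2

lemma log_near {z : ℝ} (hz : 0 < z) : |Real.log z - (z - 1)| ≤ (z - 1) ^ 2 / z := by
  have h1 := Real.log_le_sub_one_of_pos hz
  have h2 := Real.one_sub_inv_le_log_of_pos hz
  rw [abs_le]
  constructor
  · have e : z - 1 - (z - 1) ^ 2 / z = 1 - z⁻¹ := by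
      field_simp
      ring
    linarith
  · have : 0 ≤ (z - 1) ^ 2 / z := by positivity
    linarith

/-- the local logarithms -/
lemma logZ (l : Loc) (u : ℝ) : ∃ K : ℝ, 0 ≤ K ∧ ∀ p, p.Prime →
    |Real.log (Zp l u p) - (l.κ * u + u ^ 2 / 2) / p| ≤ K * (1 / (p * √p)) := by
  obtain ⟨K₂, hK₂, h2⟩ := Zp_near l u
  set lam : ℝ := l.κ * u + u ^ 2 / 2 with hlam
  set c₀ : ℝ := Real.exp (|u| * l.C) with hc₀
  have hc₀0 : 0 < c₀ := Real.exp_pos _
  refine ⟨K₂ + (|lam| + K₂) ^ 2 * c₀, by positivity, fun p hp => ?_⟩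
  have hp0 : (0 : ℝ) < p := by exact_mod_cast hp.pos
  obtain ⟨hpp1, hpp0⟩ := pp_le hp
  obtain ⟨a2, a3⟩ := h2 p hp
  set Z : ℝ := Zp l u p with hZ
  have hZ0 : 0 < Z := lt_of_lt_of_le (Real.exp_pos _) a3
  have hZinv : 1 / Z ≤ c₀ := by
    rw [div_le_iff₀ hZ0]
    have h4 := mul_le_mul_of_nonneg_left a3 hc₀0.le
    rw [hc₀, ← Real.exp_add, add_neg_cancel, Real.exp_zero] at h4
    exact h4
  have b1 : |Z - 1| ≤ (|lam| + K₂) / p := by
    have h4 : K₂ / (p * √p) ≤ K₂ / p := by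
      apply div_le_div_of_nonneg_left hK₂ hp0
      have hp1 : (1 : ℝ) ≤ p := by exact_mod_cast hp.one_le
      have hs1 : 1 ≤ √(p : ℝ) := by rw [Real.one_le_sqrt]; exact hp1
      nlinarith
    have h5 : |lam / (p : ℝ)| = |lam| / p := by rw [abs_div, abs_of_pos hp0]
    calc |Z - 1| = |(Z - 1 - lam / p) + lam / p| := by congr 1; ring
      _ ≤ K₂ / (p * √p) + |lam| / p := by
          rw [← h5]; exact (abs_add_le _ _).trans (add_le_add a2 le_rfl)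
      _ ≤ (|lam| + K₂) / p := by
          rw [add_div]; linarith
  have b2 : (Z - 1) ^ 2 / Z ≤ (|lam| + K₂) ^ 2 * c₀ * (1 / (p * √p)) := by
    calc (Z - 1) ^ 2 / Z = |Z - 1| ^ 2 * (1 / Z) := by rw [sq_abs]; ring
      _ ≤ ((|lam| + K₂) / p) ^ 2 * c₀ :=
          mul_le_mul (pow_le_pow_left₀ (abs_nonneg _) b1 2) hZinv (by positivity) (by positivity)
      _ = (|lam| + K₂) ^ 2 * c₀ * (1 / (p * p)) := by
          field_simp
      _ ≤ _ := by
          apply mul_le_mul_of_nonneg_left _ (by positivity)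
          exact div_le_div_of_nonneg_left zero_le_one hpp0 hpp1
  have e : Real.log Z - lam / p = (Real.log Z - (Z - 1)) + (Z - 1 - lam / p) := by ring
  rw [e]
  refine (abs_add_le _ _).trans ?_
  calc _ ≤ (|lam| + K₂) ^ 2 * c₀ * (1 / (p * √p)) + K₂ / (p * √p) :=
        add_le_add ((log_near hZ0).trans b2) a2
    _ = _ := by ring

/-- **the asymptotics of the exponential moments** -/
theorem Mx_lim (l : Loc) (u : ℝ) : ∃ A : ℝ, 0 < A ∧
    Tendsto (fun x : ℕ => Mx l u x * Real.exp (-((l.κ * u + u ^ 2 / 2) * ll x))) atTop (𝓝 A) := by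
  obtain ⟨K, hK, h1⟩ := logZ l u
  obtain ⟨M, hM⟩ := mert_lim
  set lam : ℝ := l.κ * u + u ^ 2 / 2 with hlam
  set f : ℕ → ℝ := fun p => if p.Prime then Real.log (Zp l u p) - lam / p else 0 with hf
  have hs : Summable (fun n : ℕ => K * (1 / ((n : ℝ) * √n))) := by
    have h2 : Summable (fun n : ℕ => 1 / (n : ℝ) ^ (3 / 2 : ℝ)) :=
      Real.summable_one_div_nat_rpow.2 (by norm_num)
    refine (h2.congr fun n => ?_).mul_left K
    congr 1
    rcases Nat.eq_zero_or_pos n with h | h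
    · rw [h, Nat.cast_zero, zero_mul, Real.zero_rpow (by norm_num)]
    · have hn : (0 : ℝ) < n := by exact_mod_cast h
      rw [Real.sqrt_eq_rpow, show (3 / 2 : ℝ) = 1 + 1 / 2 by norm_num, Real.rpow_add hn,
        Real.rpow_one]
  have hfs : Summable f := by
    apply Summable.of_norm_bounded hs
    intro n
    rw [hf, Real.norm_eq_abs]
    simp only
    split_ifs with hp
    · exact h1 n hp
    · rw [abs_zero]; positivity
  have hlim : Tendsto (fun x : ℕ => ∑ p ∈ PP x, (Real.log (Zp l u p) - lam / p)) atTop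
      (𝓝 (∑' n, f n)) := by
    have h3 := (hfs.hasSum.tendsto_sum_nat).comp (tendsto_add_atTop_nat 1)
    refine h3.congr fun x => ?_
    simp only [Function.comp_def]
    unfold PP
    rw [sum_filter]
  refine ⟨Real.exp ((∑' n, f n) + lam * M), Real.exp_pos _, ?_⟩
  have h4 := (Real.continuous_exp.tendsto _).comp (hlim.add (hM.const_mul lam))
  refine h4.congr fun x => ?_
  simp only [Function.comp_def]
  have e1 : Mx l u x = Real.exp (∑ p ∈ PP x, Real.log (Zp l u p)) := by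
    unfold Mx
    rw [Real.exp_sum]
    exact prod_congr rfl fun p hp => (Real.exp_log (Zp_pos l u (mem_PP.1 hp).2)).symm
  rw [e1, ← Real.exp_add]
  congr 1
  have e2 : ∑ p ∈ PP x, (Real.log (Zp l u p) - lam / p) =
      ∑ p ∈ PP x, Real.log (Zp l u p) - lam * Hs x := by
    rw [sum_sub_distrib]
    unfold Hs
    rw [mul_sum]
    congr 1
    exact sum_congr rfl fun p _ => by ring
  rw [e2]
  ring

/-! ### the characteristic functions -/

/-- the tilted characteristic function modulo `p` -/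
noncomputable def fp (l : Loc) (u : ℝ) (p : ℕ) (ξ : ℝ) : ℂ := ap l u p ξ / (Zp l u p : ℂ)

lemma fp_le_one (l : Loc) (u : ℝ) {p : ℕ} (hp : p.Prime) (ξ : ℝ) : ‖fp l u p ξ‖ ≤ 1 := by
  unfold fp
  have hZ := Zp_pos l u hp
  rw [norm_div, Complex.norm_real, Real.norm_eq_abs, abs_of_pos hZ, div_le_one hZ]
  unfold ap Zp
  apply norm_avgP_le
  intro m
  rw [norm_mul, Complex.norm_exp_ofReal_mul_I, mul_one, Complex.norm_real, Real.norm_eq_abs,
    abs_of_pos (Real.exp_pos _)]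

lemma norm_one_add {y v : ℝ} (hy : y ≤ 1 / 2) :
    ‖(1 : ℂ) + ((v : ℂ) * Complex.I - (y : ℂ))‖ ≤ 1 - y + v ^ 2 := by
  have e : (1 : ℂ) + ((v : ℂ) * Complex.I - (y : ℂ)) = ((1 - y : ℝ) : ℂ) + (v : ℂ) * Complex.I := by
    push_cast; ring
  have h0 : 0 ≤ 1 - y + v ^ 2 := by
    have := sq_nonneg v
    linarith
  rw [e, Complex.norm_add_mul_I]
  rw [Real.sqrt_le_left h0]
  have h1 := sq_nonneg v
  have h2 : 0 ≤ (v ^ 2) * (1 - y - 1 / 2) := mul_nonneg h1 (by linarith)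
  nlinarith [sq_nonneg (v ^ 2)]

/-- the size of the local factors -/
lemma fp_le (l : Loc) (u : ℝ) : ∃ K : ℝ, 1 ≤ K ∧ ∀ p, p.Prime → ∀ ξ : ℝ,
    ‖fp l u p ξ - (1 + (((ξ * (l.κ + u) / p : ℝ) : ℂ) * Complex.I -
      ((ξ ^ 2 / (2 * p) : ℝ) : ℂ)))‖ ≤ K * (|ξ| + |ξ| ^ 3) / (p * √p) ∧
    (ξ ^ 2 ≤ p → ‖fp l u p ξ‖ ≤ Real.exp (-(ξ ^ 2 / (2 * p)) + (ξ * (l.κ + u) / p) ^ 2 +
      K * (|ξ| + |ξ| ^ 3) / (p * √p))) := by
  obtain ⟨K, hK, h⟩ := tilt l u
  refine ⟨K, hK, fun p hp ξ => ⟨h p hp ξ, fun hξ => ?_⟩⟩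
  have hp0 : (0 : ℝ) < p := by exact_mod_cast hp.pos
  have h1 := h p hp ξ
  have hy : ξ ^ 2 / (2 * (p : ℝ)) ≤ 1 / 2 := by
    rw [div_le_div_iff₀ (by positivity) (by norm_num)]
    linarith
  have h2 := norm_one_add (v := ξ * (l.κ + u) / p) hy
  have h3 := Real.add_one_le_exp (-(ξ ^ 2 / (2 * p)) + (ξ * (l.κ + u) / p) ^ 2 +
      K * (|ξ| + |ξ| ^ 3) / (p * √p))
  have h4 : ‖fp l u p ξ‖ ≤ ‖fp l u p ξ - (1 + (((ξ * (l.κ + u) / p : ℝ) : ℂ) * Complex.I -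
      ((ξ ^ 2 / (2 * p) : ℝ) : ℂ)))‖ + ‖(1 : ℂ) + (((ξ * (l.κ + u) / p : ℝ) : ℂ) * Complex.I -
      ((ξ ^ 2 / (2 * p) : ℝ) : ℂ))‖ := by
    have := norm_add_le (fp l u p ξ - (1 + (((ξ * (l.κ + u) / p : ℝ) : ℂ) * Complex.I -
      ((ξ ^ 2 / (2 * p) : ℝ) : ℂ)))) ((1 : ℂ) + (((ξ * (l.κ + u) / p : ℝ) : ℂ) * Complex.I -
      ((ξ ^ 2 / (2 * p) : ℝ) : ℂ)))
    rwa [sub_add_cancel] at this
  refine h4.trans ?_
  have h5 : ‖fp l u p ξ - (1 + (((ξ * (l.κ + u) / p : ℝ) : ℂ) * Complex.I -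
      ((ξ ^ 2 / (2 * p) : ℝ) : ℂ)))‖ ≤ K * (|ξ| + |ξ| ^ 3) / (p * √p) := h1
  linarith

/-- the tilted and centred characteristic function -/
noncomputable def Fx (l : Loc) (u : ℝ) (x : ℕ) (ξ : ℝ) : ℂ :=
  Complex.exp ((-(ξ * ((l.κ + u) * ll x)) : ℝ) * Complex.I) * ∏ p ∈ PP x, fp l u p ξ

lemma norm_Fx (l : Loc) (u : ℝ) (x : ℕ) (ξ : ℝ) : ‖Fx l u x ξ‖ = ∏ p ∈ PP x, ‖fp l u p ξ‖ := by
  unfold Fx
  rw [norm_mul, Complex.norm_exp_ofReal_mul_I, one_mul, norm_prod]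

/-- small arguments -/
lemma Fx_small (l : Loc) (u : ℝ) : ∃ K : ℝ, 0 ≤ K ∧ ∀ x : ℕ, 3 ≤ x → ∀ ξ : ℝ, |ξ| ≤ 1 →
    ‖Fx l u x ξ‖ ≤ Real.exp (K - ξ ^ 2 / 2 * ll x) := by
  obtain ⟨K, hK, h⟩ := fp_le l u
  obtain ⟨K1, hK1, h1⟩ := sum_p32
  obtain ⟨K3, hK3, h3⟩ := mertens
  refine ⟨((l.κ + u) ^ 2 + 2 * K) * K1 + K3, by positivity, fun x hx ξ hξ => ?_⟩
  have hξ2 : ξ ^ 2 ≤ 1 := by rw [← sq_abs]; exact pow_le_one₀ (abs_nonneg _) hξ
  have hξ3 : |ξ| ^ 3 ≤ 1 := pow_le_one₀ (abs_nonneg _) hξ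
  rw [norm_Fx]
  have key : ∀ p ∈ PP x, ‖fp l u p ξ‖ ≤
      Real.exp (-(ξ ^ 2 / 2) * (1 / p) + ((l.κ + u) ^ 2 + 2 * K) * (1 / (p * √p))) := by
    intro p hp
    have hpp := (mem_PP.1 hp).2
    have hp0 : (0 : ℝ) < p := by exact_mod_cast hpp.pos
    have hp1 : (1 : ℝ) ≤ p := by exact_mod_cast hpp.one_le
    obtain ⟨hq1, hq0⟩ := pp_le hpp
    refine ((h p hpp ξ).2 (hξ2.trans hp1)).trans ?_
    apply Real.exp_le_exp.2
    have b1 : (ξ * (l.κ + u) / p) ^ 2 ≤ (l.κ + u) ^ 2 * (1 / (p * √p)) := by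
      calc (ξ * (l.κ + u) / p) ^ 2 = ξ ^ 2 * ((l.κ + u) ^ 2 * (1 / (p * p))) := by
            field_simp
        _ ≤ 1 * ((l.κ + u) ^ 2 * (1 / (p * p))) := mul_le_mul_of_nonneg_right hξ2 (by positivity)
        _ ≤ _ := by
            rw [one_mul]
            apply mul_le_mul_of_nonneg_left _ (by positivity)
            exact div_le_div_of_nonneg_left zero_le_one hq0 hq1
    have b2 : K * (|ξ| + |ξ| ^ 3) / (p * √p) ≤ 2 * K * (1 / (p * √p)) := by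
      rw [mul_one_div]
      apply div_le_div_of_nonneg_right _ hq0.le
      nlinarith
    have e : -(ξ ^ 2 / (2 * (p : ℝ))) = -(ξ ^ 2 / 2) * (1 / p) := by
      field_simp
    rw [e]
    linarith
  refine (prod_le_prod (fun _ _ => norm_nonneg _) key).trans ?_
  rw [← Real.exp_sum]
  apply Real.exp_le_exp.2
  rw [sum_add_distrib, ← mul_sum, ← mul_sum]
  have c1 := (abs_le.1 (h3 x hx)).1
  have c2 := mul_le_mul_of_nonneg_left (h1 (PP x)) (by positivity : 0 ≤ (l.κ + u) ^ 2 + 2 * K)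
  have c3 : ξ ^ 2 / 2 * (ll x - K3) ≤ ξ ^ 2 / 2 * ∑ p ∈ PP x, (1 : ℝ) / p := by
    apply mul_le_mul_of_nonneg_left _ (by positivity)
    unfold ll
    linarith
  have c4 : ξ ^ 2 / 2 * K3 ≤ K3 := by nlinarith
  linarith

/-- large arguments -/
lemma Fx_large (l : Loc) (u : ℝ) : ∀ᶠ x : ℕ in atTop, ∀ ξ : ℝ, 1 ≤ |ξ| → |ξ| ≤ √(ll x) →
    ‖Fx l u x ξ‖ ≤ Real.exp (-(ξ ^ 2 / 8 * ll x)) := by
  obtain ⟨K, hK, h⟩ := fp_le l u
  obtain ⟨K3, hK3, h3⟩ := mertens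
  set K5 : ℝ := 256 * K ^ 2 + 8 * (l.κ + u) ^ 2 + 1 with hK5
  have hK50 : 0 < K5 := by positivity
  have hlim : Tendsto (fun y : ℝ => y / 2 - Real.log y) atTop atTop := by
    have h1 : Tendsto (fun y : ℝ => Real.log y / y) atTop (𝓝 0) := by
      have := Real.isLittleO_log_id_atTop.tendsto_div_nhds_zero
      simpa using this
    have h2 : Tendsto (fun y : ℝ => (1 / 2 - Real.log y / y) * y) atTop atTop := by
      have h4 : Tendsto (fun y : ℝ => 1 / 2 - Real.log y / y) atTop (𝓝 (1 / 2 - 0)) := h1.const_sub _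
      exact h4.pos_mul_atTop (by norm_num) tendsto_id
    refine h2.congr' ?_
    filter_upwards [eventually_gt_atTop 0] with y hy
    field_simp
  have hll : Tendsto ll atTop atTop := tendsto_loglog
  filter_upwards [(hlim.comp hll).eventually_ge_atTop (K3 + 1 + Real.log K5),
    hll.eventually_ge_atTop 1, eventually_ge_atTop 3] with x hx1 hx2 hx3 ξ hξ1 hξ2
  simp only [Function.comp_def] at hx1
  set L : ℝ := ll x with hL
  have hL0 : 0 < L := by linarith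
  have hξsq1 : 1 ≤ ξ ^ 2 := by
    rw [← sq_abs]; exact one_le_pow₀ hξ1
  have hξsqL : ξ ^ 2 ≤ L := by
    rw [← sq_abs, ← Real.sq_sqrt hL0.le]
    exact pow_le_pow_left₀ (abs_nonneg _) hξ2 2
  rw [norm_Fx]
  set T : Finset ℕ := (PP x).filter (fun p : ℕ => K5 * ξ ^ 2 ≤ p) with hT
  have key : ∀ p ∈ PP x, ‖fp l u p ξ‖ ≤
      Real.exp (if K5 * ξ ^ 2 ≤ p then -(ξ ^ 2 / 4) * (1 / p) else 0) := by
    intro p hp
    have hpp := (mem_PP.1 hp).2
    have hp0 : (0 : ℝ) < p := by exact_mod_cast hpp.pos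
    have hsp : 0 < √(p : ℝ) := Real.sqrt_pos.2 hp0
    split_ifs with hc
    · have hp1 : ξ ^ 2 ≤ p := by
        have : 1 * ξ ^ 2 ≤ K5 * ξ ^ 2 := by
          apply mul_le_mul_of_nonneg_right _ (sq_nonneg _)
          have := sq_nonneg (l.κ + u)
          have := sq_nonneg K
          linarith
        linarith
      have hp2 : 8 * (l.κ + u) ^ 2 ≤ p := by
        have h5 : 8 * (l.κ + u) ^ 2 ≤ K5 := by
          have := sq_nonneg K
          linarith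
        have h6 : K5 * 1 ≤ K5 * ξ ^ 2 := mul_le_mul_of_nonneg_left hξsq1 hK50.le
        linarith
      have hp3 : 16 * K * |ξ| ≤ √(p : ℝ) := by
        apply Real.le_sqrt_of_sq_le
        have h5 : 256 * K ^ 2 ≤ K5 := by
          have := sq_nonneg (l.κ + u)
          linarith
        have h6 := mul_le_mul_of_nonneg_right h5 (sq_nonneg ξ)
        calc (16 * K * |ξ|) ^ 2 = 256 * K ^ 2 * ξ ^ 2 := by
              rw [mul_pow, sq_abs]; ring
          _ ≤ K5 * ξ ^ 2 := h6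
          _ ≤ p := hc
      refine ((h p hpp ξ).2 hp1).trans ?_
      apply Real.exp_le_exp.2
      have b1 : (ξ * (l.κ + u) / p) ^ 2 ≤ ξ ^ 2 / 8 * (1 / p) := by
        have e : (ξ * (l.κ + u) / p) ^ 2 = ξ ^ 2 * (1 / p) * ((l.κ + u) ^ 2 / p) := by
          field_simp
        have h6 : (l.κ + u) ^ 2 / (p : ℝ) ≤ 1 / 8 := by
          rw [div_le_iff₀ hp0]; linarith
        rw [e]
        calc _ ≤ ξ ^ 2 * (1 / p) * (1 / 8) := mul_le_mul_of_nonneg_left h6 (by positivity)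
          _ = _ := by ring
      have b2 : K * (|ξ| + |ξ| ^ 3) / (p * √p) ≤ ξ ^ 2 / 8 * (1 / p) := by
        have h6 : |ξ| + |ξ| ^ 3 ≤ 2 * |ξ| ^ 3 := by
          have : |ξ| ≤ |ξ| ^ 3 := le_self_pow₀ hξ1 (by norm_num)
          linarith
        have h7 : K * (|ξ| + |ξ| ^ 3) ≤ ξ ^ 2 / 8 * √p := by
          calc K * (|ξ| + |ξ| ^ 3) ≤ K * (2 * |ξ| ^ 3) :=
                mul_le_mul_of_nonneg_left h6 (by linarith)
            _ = |ξ| ^ 2 / 8 * (16 * K * |ξ|) := by ring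
            _ ≤ |ξ| ^ 2 / 8 * √p := mul_le_mul_of_nonneg_left hp3 (by positivity)
            _ = _ := by rw [sq_abs]
        rw [div_le_iff₀ (by positivity)]
        calc _ ≤ ξ ^ 2 / 8 * √p := h7
          _ = _ := by field_simp
      have e : -(ξ ^ 2 / (2 * (p : ℝ))) = -(ξ ^ 2 / 2) * (1 / p) := by
        field_simp
      rw [e]
      linarith
    · rw [Real.exp_zero]
      exact fp_le_one l u hpp ξ
  refine (prod_le_prod (fun _ _ => norm_nonneg _) key).trans ?_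
  rw [← Real.exp_sum]
  apply Real.exp_le_exp.2
  rw [← sum_filter, ← mul_sum]
  have hsmall : ∑ p ∈ (PP x).filter (fun p : ℕ => ¬ K5 * ξ ^ 2 ≤ p), (1 : ℝ) / p ≤
      1 + Real.log (K5 * L) := by
    have hsub : (PP x).filter (fun p : ℕ => ¬ K5 * ξ ^ 2 ≤ p) ⊆ Icc 1 ⌊K5 * L⌋₊ := by
      intro p hp
      rw [mem_filter, not_le] at hp
      rw [mem_Icc]
      refine ⟨(mem_PP.1 hp.1).2.one_le, Nat.le_floor ?_⟩
      have := mul_le_mul_of_nonneg_left hξsqL hK50.le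
      linarith [hp.2]
    have h6 : (1 : ℝ) ≤ K5 * L := by
      have h7 : 1 ≤ K5 := by
        have := sq_nonneg (l.κ + u)
        have := sq_nonneg K
        linarith
      nlinarith
    have h5 : (1 : ℕ) ≤ ⌊K5 * L⌋₊ := Nat.le_floor (by push_cast; exact h6)
    calc _ ≤ ∑ p ∈ Icc 1 ⌊K5 * L⌋₊, (1 : ℝ) / p :=
          sum_le_sum_of_subset_of_nonneg hsub fun _ _ _ => by positivity
      _ = ((harmonic ⌊K5 * L⌋₊ : ℚ) : ℝ) := by
          rw [harmonic_eq_sum_Icc]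
          push_cast
          exact sum_congr rfl fun p _ => one_div _
      _ ≤ 1 + Real.log ⌊K5 * L⌋₊ := harmonic_le_one_add_log _
      _ ≤ 1 + Real.log (K5 * L) := by
          have h8 : Real.log (⌊K5 * L⌋₊ : ℝ) ≤ Real.log (K5 * L) :=
            Real.log_le_log (by exact_mod_cast h5) (Nat.floor_le (by linarith))
          linarith
  rw [Real.log_mul hK50.ne' hL0.ne'] at hsmall
  have hsplit := sum_filter_add_sum_filter_not (PP x) (fun p : ℕ => K5 * ξ ^ 2 ≤ p)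
    (fun p : ℕ => (1 : ℝ) / p)
  have c1 := (abs_le.1 (h3 x hx3)).1
  have c2 : Real.log (Real.log x) = L := rfl
  rw [c2] at c1
  have c3 : L / 2 ≤ ∑ p ∈ (PP x).filter (fun p : ℕ => K5 * ξ ^ 2 ≤ p), (1 : ℝ) / p := by
    linarith
  have c4 := mul_le_mul_of_nonneg_left c3 (by positivity : 0 ≤ ξ ^ 2 / 4)
  linarith

/-- the domination -/
lemma Fx_dom (l : Loc) (u : ℝ) : ∃ K : ℝ, 0 ≤ K ∧ ∀ᶠ x : ℕ in atTop, ∀ ξ : ℝ, |ξ| ≤ √(ll x) →
    ‖Fx l u x ξ‖ * (1 + ξ ^ 2 * ll x) ≤ K := by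
  obtain ⟨K, hK, h⟩ := Fx_small l u
  have hll : Tendsto ll atTop atTop := tendsto_loglog
  refine ⟨8 * Real.exp K, by positivity, ?_⟩
  filter_upwards [Fx_large l u, eventually_ge_atTop 3, hll.eventually_ge_atTop 0] with x h1 h2 h3 ξ hξ
  have h0 : 0 ≤ ξ ^ 2 * ll x := mul_nonneg (sq_nonneg _) h3
  have hb : ‖Fx l u x ξ‖ ≤ Real.exp K * Real.exp (-(ξ ^ 2 * ll x / 8)) := by
    rw [← Real.exp_add]
    rcases le_total |ξ| 1 with hc | hc
    · refine (h x h2 ξ hc).trans (Real.exp_le_exp.2 ?_)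
      linarith
    · refine (h1 ξ hc hξ).trans (Real.exp_le_exp.2 ?_)
      linarith
  have h4 : 1 + ξ ^ 2 * ll x ≤ 8 * Real.exp (ξ ^ 2 * ll x / 8) := by
    have := Real.add_one_le_exp (ξ ^ 2 * ll x / 8)
    linarith
  calc ‖Fx l u x ξ‖ * (1 + ξ ^ 2 * ll x)
      ≤ (Real.exp K * Real.exp (-(ξ ^ 2 * ll x / 8))) * (8 * Real.exp (ξ ^ 2 * ll x / 8)) :=
        mul_le_mul hb h4 (by linarith) (by positivity)
    _ = 8 * Real.exp K * (Real.exp (-(ξ ^ 2 * ll x / 8)) * Real.exp (ξ ^ 2 * ll x / 8)) := by ring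
    _ = 8 * Real.exp K := by
        rw [← Real.exp_add]
        simp

end Pool.Agent.T9h26.BD
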