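import Pool.Agent.T9h26.BD.Tb

/-!
# The tilted laws of sums over primes
-/

set_option autoImplicit false

namespace Pool.Agent.T9h26.BD

open Finset Filter Topology Pool.Agent.N430.CLT Pool.Agent.T9h58.LN

lemma tendsto_ll : Tendsto ll atTop atTop := tendsto_loglog

/-- the product of the exponentials -/
lemma prod_exp (x : ℕ) (a b : ℝ) :
    ∏ p ∈ PP x, Complex.exp (((b / p : ℝ) : ℂ) * Complex.I - ((a / (2 * p) : ℝ) : ℂ)) =
      Complex.exp (((b * Hs x : ℝ) : ℂ) * Complex.I - ((a / 2 * Hs x : ℝ) : ℂ)) := by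
  rw [← Complex.exp_sum, sum_sub_distrib, ← sum_mul, ← Complex.ofReal_sum, ← Complex.ofReal_sum]
  congr 3
  · unfold Hs
    rw [mul_sum]
    congr 1
    exact sum_congr rfl fun p _ => by ring
  · unfold Hs
    rw [mul_sum]
    refine sum_congr rfl fun p _ => ?_
    by_cases h : (p : ℝ) = 0
    · rw [h]; simp
    · field_simp

/-- small arguments, comparison with the normal law -/
lemma Fx_near (l : Loc) (u : ℝ) : ∃ K : ℝ, 0 ≤ K ∧ ∀ x : ℕ, ∀ ξ : ℝ,
    |ξ| * (|l.κ + u| + 1) ≤ 1 →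
    ‖Fx l u x ξ - Complex.exp (((ξ * ((l.κ + u) * (Hs x - ll x)) : ℝ) : ℂ) * Complex.I -
      ((ξ ^ 2 / 2 * Hs x : ℝ) : ℂ))‖ ≤ K * |ξ| := by
  obtain ⟨K, hK, h⟩ := fp_le l u
  obtain ⟨K1, hK1, h1⟩ := sum_p32
  refine ⟨(2 * K + (|l.κ + u| + 1)) * K1, by positivity, fun x ξ hξ => ?_⟩
  have hξ1 : |ξ| ≤ 1 := by
    have h2 : |ξ| * 1 ≤ |ξ| * (|l.κ + u| + 1) :=
      mul_le_mul_of_nonneg_left (by linarith [abs_nonneg (l.κ + u)]) (abs_nonneg _)
    linarith
  have hξ3 : |ξ| ^ 3 ≤ |ξ| := by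
    calc |ξ| ^ 3 ≤ |ξ| ^ 1 := pow_le_pow_of_le_one (abs_nonneg _) hξ1 (by norm_num)
      _ = |ξ| := pow_one _
  set b : ℕ → ℂ := fun p => Complex.exp (((ξ * (l.κ + u) / p : ℝ) : ℂ) * Complex.I -
      ((ξ ^ 2 / (2 * p) : ℝ) : ℂ)) with hb
  have e1 : Fx l u x ξ - Complex.exp (((ξ * ((l.κ + u) * (Hs x - ll x)) : ℝ) : ℂ) * Complex.I -
      ((ξ ^ 2 / 2 * Hs x : ℝ) : ℂ)) = Complex.exp ((-(ξ * ((l.κ + u) * ll x)) : ℝ) * Complex.I) *
        (∏ p ∈ PP x, fp l u p ξ - ∏ p ∈ PP x, b p) := by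
    have e2 : Complex.exp (((ξ * ((l.κ + u) * (Hs x - ll x)) : ℝ) : ℂ) * Complex.I -
        ((ξ ^ 2 / 2 * Hs x : ℝ) : ℂ)) = Complex.exp ((-(ξ * ((l.κ + u) * ll x)) : ℝ) * Complex.I) *
        Complex.exp (((ξ * (l.κ + u) * Hs x : ℝ) : ℂ) * Complex.I -
          ((ξ ^ 2 / 2 * Hs x : ℝ) : ℂ)) := by
      rw [← Complex.exp_add]
      congr 1
      push_cast
      ring
    rw [hb, prod_exp, e2]
    unfold Fx
    ring
  rw [e1, norm_mul, Complex.norm_exp_ofReal_mul_I, one_mul]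
  refine (norm_prod_sub_prod (PP x) (fun p => fp l u p ξ) b
    (fun p hp => fp_le_one l u (mem_PP.1 hp).2 ξ) (fun p hp => ?_)).trans ?_
  · have hp0 : (0 : ℝ) < p := by exact_mod_cast (mem_PP.1 hp).2.pos
    rw [hb]
    simp only
    rw [Complex.norm_exp, Real.exp_le_one_iff]
    have : (((ξ * (l.κ + u) / p : ℝ) : ℂ) * Complex.I - ((ξ ^ 2 / (2 * p) : ℝ) : ℂ)).re =
        -(ξ ^ 2 / (2 * p)) := by
      rw [Complex.sub_re, Complex.re_ofReal_mul, Complex.I_re, Complex.ofReal_re]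
      ring
    rw [this]
    have : 0 ≤ ξ ^ 2 / (2 * (p : ℝ)) := by positivity
    linarith
  · have key : ∀ p ∈ PP x, ‖fp l u p ξ - b p‖ ≤
        ((2 * K + (|l.κ + u| + 1)) * |ξ|) * (1 / (p * √p)) := by
      intro p hp
      have hpp := (mem_PP.1 hp).2
      have hp0 : (0 : ℝ) < p := by exact_mod_cast hpp.pos
      have hp1 : (1 : ℝ) ≤ p := by exact_mod_cast hpp.one_le
      obtain ⟨hq1, hq0⟩ := pp_le hpp
      set z : ℂ := ((ξ * (l.κ + u) / p : ℝ) : ℂ) * Complex.I - ((ξ ^ 2 / (2 * p) : ℝ) : ℂ) with hz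
      have a1 := (h p hpp ξ).1
      rw [← hz] at a1
      have a2 : ‖z‖ ≤ (|ξ| * (|l.κ + u| + 1)) / p := by
        rw [hz]
        refine (norm_sub_le _ _).trans ?_
        rw [norm_mul, Complex.norm_I, mul_one, Complex.norm_real, Complex.norm_real,
          Real.norm_eq_abs, Real.norm_eq_abs, abs_div, abs_mul, abs_of_pos hp0,
          abs_of_nonneg (by positivity : 0 ≤ ξ ^ 2 / (2 * (p : ℝ)))]
        have h4 : ξ ^ 2 / 2 ≤ |ξ| := by
          rw [← sq_abs]
          have := abs_nonneg ξ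
          nlinarith
        have e : |ξ| * |l.κ + u| / p + ξ ^ 2 / (2 * p) = (|ξ| * |l.κ + u| + ξ ^ 2 / 2) / p := by
          field_simp
        rw [e]
        apply div_le_div_of_nonneg_right _ hp0.le
        linarith
      have a3 : ‖z‖ ≤ 1 := by
        refine a2.trans ?_
        rw [div_le_one hp0]
        linarith
      have a4 := Complex.norm_exp_sub_one_sub_id_le a3
      have a5 : ‖z‖ ^ 2 ≤ (|l.κ + u| + 1) * |ξ| * (1 / (p * √p)) := by
        calc ‖z‖ ^ 2 ≤ ((|ξ| * (|l.κ + u| + 1)) / p) ^ 2 := pow_le_pow_left₀ (norm_nonneg _) a2 2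
          _ = (|ξ| * (|l.κ + u| + 1)) * (|ξ| * (|l.κ + u| + 1)) * (1 / (p * p)) := by
              field_simp
          _ ≤ 1 * (|ξ| * (|l.κ + u| + 1)) * (1 / (p * p)) := by
              apply mul_le_mul_of_nonneg_right _ (by positivity)
              exact mul_le_mul_of_nonneg_right hξ (by positivity)
          _ ≤ 1 * (|ξ| * (|l.κ + u| + 1)) * (1 / (p * √p)) := by
              apply mul_le_mul_of_nonneg_left _ (by positivity)
              exact div_le_div_of_nonneg_left zero_le_one hq0 hq1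
          _ = _ := by ring
      have a6 : K * (|ξ| + |ξ| ^ 3) / (p * √p) ≤ 2 * K * |ξ| * (1 / (p * √p)) := by
        rw [mul_one_div]
        apply div_le_div_of_nonneg_right _ hq0.le
        nlinarith
      have e2 : fp l u p ξ - b p = (fp l u p ξ - (1 + z)) - (Complex.exp z - 1 - z) := by
        rw [hb]
        simp only
        rw [← hz]
        ring
      rw [e2]
      refine (norm_sub_le _ _).trans ?_
      calc _ ≤ K * (|ξ| + |ξ| ^ 3) / (p * √p) + ‖z‖ ^ 2 := add_le_add a1 a4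
        _ ≤ 2 * K * |ξ| * (1 / (p * √p)) + (|l.κ + u| + 1) * |ξ| * (1 / (p * √p)) :=
            add_le_add a6 a5
        _ = _ := by ring
    refine (sum_le_sum key).trans ?_
    rw [← mul_sum]
    calc _ ≤ ((2 * K + (|l.κ + u| + 1)) * |ξ|) * K1 :=
          mul_le_mul_of_nonneg_left (h1 _) (by positivity)
      _ = _ := by ring

/-- **the central limit theorem for the tilted laws** -/
theorem Fx_clt (l : Loc) (u t : ℝ) :
    Tendsto (fun x : ℕ => Fx l u x (t / √(ll x))) atTop (𝓝 (Real.exp (-t ^ 2 / 2) : ℂ)) := by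
  obtain ⟨K, hK, h⟩ := Fx_near l u
  obtain ⟨M, hM⟩ := mert_lim
  have hs : Tendsto (fun x => √(ll x)) atTop atTop := Real.tendsto_sqrt_atTop.comp tendsto_ll
  have hζ : Tendsto (fun x => t / √(ll x)) atTop (𝓝 0) := hs.const_div_atTop t
  have hζa : Tendsto (fun x => |t / √(ll x)|) atTop (𝓝 0) := by
    have := hζ.abs
    rwa [abs_zero] at this
  have hpos : ∀ᶠ x in atTop, 0 < ll x := tendsto_ll.eventually_gt_atTop 0
  -- the limit of the main term
  have hm : Tendsto (fun x : ℕ => Complex.exp (((t / √(ll x) * ((l.κ + u) * (Hs x - ll x)) : ℝ) : ℂ) *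
      Complex.I - (((t / √(ll x)) ^ 2 / 2 * Hs x : ℝ) : ℂ))) atTop
      (𝓝 (Complex.exp (((0 * ((l.κ + u) * M) : ℝ) : ℂ) * Complex.I - ((t ^ 2 / 2 : ℝ) : ℂ)))) := by
    refine (Complex.continuous_exp.tendsto _).comp ?_
    refine Tendsto.sub ?_ ?_
    · exact ((Complex.continuous_ofReal.tendsto _).comp (hζ.mul (hM.const_mul _))).mul_const _
    · refine (Complex.continuous_ofReal.tendsto _).comp ?_
      have h1 : Tendsto (fun x : ℕ => (t / √(ll x)) ^ 2 / 2 * (Hs x - ll x) + t ^ 2 / 2) atTop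
          (𝓝 (0 ^ 2 / 2 * M + t ^ 2 / 2)) :=
        (((hζ.pow 2).div_const 2).mul hM).add_const _
      have e : (0 : ℝ) ^ 2 / 2 * M + t ^ 2 / 2 = t ^ 2 / 2 := by ring
      rw [e] at h1
      refine h1.congr' ?_
      filter_upwards [hpos] with x hx
      have h2 : √(ll x) ^ 2 = ll x := Real.sq_sqrt hx.le
      rw [div_pow, h2]
      field_simp
      ring
  have e0 : Complex.exp (((0 * ((l.κ + u) * M) : ℝ) : ℂ) * Complex.I - ((t ^ 2 / 2 : ℝ) : ℂ)) =
      (Real.exp (-t ^ 2 / 2) : ℂ) := by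
    rw [Complex.ofReal_exp]
    congr 1
    push_cast
    ring
  rw [e0] at hm
  have hd : Tendsto (fun x : ℕ => Fx l u x (t / √(ll x)) -
      Complex.exp (((t / √(ll x) * ((l.κ + u) * (Hs x - ll x)) : ℝ) : ℂ) *
      Complex.I - (((t / √(ll x)) ^ 2 / 2 * Hs x : ℝ) : ℂ))) atTop (𝓝 0) := by
    rw [tendsto_zero_iff_norm_tendsto_zero]
    have h2 : Tendsto (fun x => K * |t / √(ll x)|) atTop (𝓝 0) := by
      have := hζa.const_mul K
      rwa [mul_zero] at this
    have h3 : Tendsto (fun x => |t / √(ll x)| * (|l.κ + u| + 1)) atTop (𝓝 0) := by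
      have := hζa.mul_const (|l.κ + u| + 1)
      rwa [zero_mul] at this
    refine squeeze_zero' (Eventually.of_forall fun _ => norm_nonneg _) ?_ h2
    filter_upwards [h3.eventually (gt_mem_nhds (show (0 : ℝ) < 1 by norm_num))] with x hx
    exact h x _ hx.le
  have := hd.add hm
  simpa using this

/-! ### the laws -/

/-- the sum over the primes `p ≤ x` -/
noncomputable def Sx (l : Loc) (x m : ℕ) : ℝ := ∑ p ∈ PP x, l.G p m

lemma avgP_exp_S (l : Loc) (u : ℝ) (x : ℕ) :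
    avgP (prim x) (fun m => Real.exp (u * Sx l x m)) = Mx l u x := by
  have e : (fun m => Real.exp (u * Sx l x m)) = fun m => ∏ p ∈ PP x, Real.exp (u * l.G p m) := by
    funext m
    rw [← Real.exp_sum]
    unfold Sx
    rw [mul_sum]
  rw [e]
  unfold prim
  rw [avgP_prod (PP x) (fun p hp => (mem_PP.1 hp).2) (fun p m => Real.exp (u * l.G p m))
    (fun p hp m => by rw [l.per p (mem_PP.1 hp).2])]
  rfl

/-- the tilted law -/
noncomputable def Dx (l : Loc) (u : ℝ) (x : ℕ) : Dsc where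
  T := range (prim x)
  w m := Real.exp (u * Sx l x m) / (prim x * Mx l u x)
  Y m := Sx l x m - (l.κ + u) * ll x
  w0 m := by
    have := Mx_pos l u x
    positivity
  w1 := by
    have h := avgP_exp_S l u x
    unfold avgP at h
    have hp : (prim x : ℝ) ≠ 0 := by exact_mod_cast (prim_pos x).ne'
    have hM := (Mx_pos l u x).ne'
    rw [← sum_div]
    rw [div_eq_iff hp] at h
    rw [h, div_eq_one_iff_eq (mul_ne_zero hp hM)]
    ring

lemma Dx_phi (l : Loc) (u : ℝ) (x : ℕ) (ξ : ℝ) : (Dx l u x).phi ξ = Fx l u x ξ := by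
  have hp : (prim x : ℂ) ≠ 0 := by exact_mod_cast (prim_pos x).ne'
  have hM : (Mx l u x : ℂ) ≠ 0 := by exact_mod_cast (Mx_pos l u x).ne'
  have e1 : avgP (prim x) (fun m => (Real.exp (u * Sx l x m) : ℂ) *
      Complex.exp ((ξ * Sx l x m : ℝ) * Complex.I)) = ∏ p ∈ PP x, ap l u p ξ := by
    have e : (fun m => (Real.exp (u * Sx l x m) : ℂ) *
        Complex.exp ((ξ * Sx l x m : ℝ) * Complex.I)) =
        fun m => ∏ p ∈ PP x, ((Real.exp (u * l.G p m) : ℂ) *
          Complex.exp ((ξ * l.G p m : ℝ) * Complex.I)) := by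
      funext m
      rw [prod_mul_distrib, ← Complex.exp_sum, ← Complex.ofReal_prod, ← Real.exp_sum]
      unfold Sx
      rw [mul_sum, mul_sum, Complex.ofReal_sum, sum_mul]
    rw [e]
    unfold prim
    rw [avgP_prod (PP x) (fun p hp => (mem_PP.1 hp).2) (fun p m => (Real.exp (u * l.G p m) : ℂ) *
          Complex.exp ((ξ * l.G p m : ℝ) * Complex.I))
      (fun p hp m => by rw [l.per p (mem_PP.1 hp).2])]
    rfl
  have e2 : ∏ p ∈ PP x, fp l u p ξ = (∏ p ∈ PP x, ap l u p ξ) / (Mx l u x : ℂ) := by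
    unfold fp Mx
    rw [prod_div_distrib, Complex.ofReal_prod]
  unfold Fx
  rw [e2, ← e1]
  unfold avgP Dsc.phi Dx
  simp only
  rw [sum_div, sum_div, mul_sum]
  refine sum_congr rfl fun m _ => ?_
  have e3 : ((ξ * (Sx l x m - (l.κ + u) * ll x) : ℝ) : ℂ) * Complex.I =
      ((-(ξ * ((l.κ + u) * ll x)) : ℝ) : ℂ) * Complex.I + ((ξ * Sx l x m : ℝ) : ℂ) * Complex.I := by
    push_cast
    ring
  rw [e3, Complex.exp_add]
  push_cast
  field_simp

/-- an event in the model, by means of the tilted law -/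
lemma tilt_event (l : Loc) (u : ℝ) (x : ℕ) (k : ℝ → ℝ) :
    avgP (prim x) (fun m => k (Sx l x m - (l.κ + u) * ll x)) =
      Mx l u x * Real.exp (-(u * ((l.κ + u) * ll x))) *
        (Dx l u x).E (fun s => Real.exp (-u * s) * k s) := by
  have hp : (prim x : ℝ) ≠ 0 := by exact_mod_cast (prim_pos x).ne'
  have hM := (Mx_pos l u x).ne'
  unfold avgP Dsc.E Dx
  simp only
  rw [sum_div, mul_sum]
  refine sum_congr rfl fun m _ => ?_
  have e : Real.exp (-u * (Sx l x m - (l.κ + u) * ll x)) =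
      Real.exp (-(u * Sx l x m)) * Real.exp (u * ((l.κ + u) * ll x)) := by
    rw [← Real.exp_add]
    congr 1
    ring
  rw [e]
  have e1 : Real.exp (-(u * ((l.κ + u) * ll x))) * Real.exp (u * ((l.κ + u) * ll x)) = 1 := by
    rw [← Real.exp_add]; simp
  have e2 : Real.exp (u * Sx l x m) * Real.exp (-(u * Sx l x m)) = 1 := by
    rw [← Real.exp_add]; simp
  have e3 : Mx l u x * Real.exp (-(u * ((l.κ + u) * ll x))) *
      (Real.exp (u * Sx l x m) / (prim x * Mx l u x) *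
        (Real.exp (-(u * Sx l x m)) * Real.exp (u * ((l.κ + u) * ll x)) *
          k (Sx l x m - (l.κ + u) * ll x))) =
      (Mx l u x / Mx l u x) * (Real.exp (-(u * ((l.κ + u) * ll x))) *
        Real.exp (u * ((l.κ + u) * ll x))) * (Real.exp (u * Sx l x m) *
        Real.exp (-(u * Sx l x m))) * (k (Sx l x m - (l.κ + u) * ll x) / prim x) := by
    field_simp
  rw [e3, e1, e2, div_self hM]
  ring

end Pool.Agent.T9h26.BD
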