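import Pool.Agent.T9h26.BD.Tc

/-!
# Comparison of the characteristic functions over long intervals and over periods
-/

set_option autoImplicit false

namespace Pool.Agent.T9h26.BD

open Finset Filter Topology Pool.Agent.N430.CLT Pool.Agent.T9h58.LN

lemma sum_inv_sqrt (k : ℕ) : ∑ n ∈ Icc 1 k, 1 / √(n : ℝ) ≤ 2 * √k := by
  induction k with
  | zero => simp
  | succ k ih =>
    rw [sum_Icc_succ_top (by omega)]
    have h1 : 0 < √((k + 1 : ℕ) : ℝ) := Real.sqrt_pos.2 (by positivity)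
    have h2 : 0 ≤ √(k : ℝ) := Real.sqrt_nonneg _
    have h3 : √((k + 1 : ℕ) : ℝ) * √((k + 1 : ℕ) : ℝ) = k + 1 := by
      rw [Real.mul_self_sqrt (by positivity)]; push_cast; ring
    have h4 : √(k : ℝ) * √(k : ℝ) = k := Real.mul_self_sqrt (Nat.cast_nonneg _)
    have h5 : 1 / √((k + 1 : ℕ) : ℝ) ≤ 2 * √((k + 1 : ℕ) : ℝ) - 2 * √(k : ℝ) := by
      rw [div_le_iff₀ h1]
      nlinarith [sq_nonneg (√((k + 1 : ℕ) : ℝ) - √(k : ℝ))]
    linarith

/-- local exponential moments, for all parameters -/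
lemma loc_exp (l : Loc) {p : ℕ} (hp : p.Prime) (s : ℝ) :
    avgP p (fun m => Real.exp (s * l.dat.X p m)) ≤
      Real.exp (s ^ 2 * (1 / p) + if (p : ℝ) ≤ s ^ 2 then |s| * (1 / √p) else 0) := by
  have hp0 : (0 : ℝ) < p := by exact_mod_cast hp.pos
  have hsp : 0 < √(p : ℝ) := Real.sqrt_pos.2 hp0
  have hX : ∀ m, |s * l.dat.X p m| ≤ |s| * (1 / √p) := fun m => by
    rw [abs_mul]
    exact mul_le_mul_of_nonneg_left (l.X_bd hp m) (abs_nonneg _)
  split_ifs with hc
  · have h1 := avgP_mono (N := p) (fun m => Real.exp (s * l.dat.X p m))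
      (fun _ => Real.exp (|s| * (1 / √p))) (fun m =>
        Real.exp_le_exp.2 ((le_abs_self _).trans (hX m)))
    rw [avgP_const hp.pos] at h1
    refine h1.trans (Real.exp_le_exp.2 ?_)
    have : 0 ≤ s ^ 2 * (1 / (p : ℝ)) := by positivity
    linarith
  · have hs1 : |s| ≤ √(p : ℝ) := by
      rw [← Real.sqrt_sq_eq_abs]
      exact Real.sqrt_le_sqrt (not_le.1 hc).le
    have h1 : avgP p (fun m => Real.exp (s * l.dat.X p m)) ≤
        avgP p (fun m => 1 + s * l.dat.X p m + s ^ 2 * (1 / p)) := by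
      apply avgP_mono
      intro m
      have hb : |s * l.dat.X p m| ≤ 1 := by
        refine (hX m).trans ?_
        rw [mul_one_div, div_le_one hsp]
        exact hs1
      refine (exp_le_quad hb).trans ?_
      have h2 : (s * l.dat.X p m) ^ 2 ≤ s ^ 2 * (1 / p) := by
        rw [mul_pow]
        apply mul_le_mul_of_nonneg_left _ (sq_nonneg _)
        rw [← sq_abs]
        calc |l.dat.X p m| ^ 2 ≤ (1 / √p) ^ 2 := pow_le_pow_left₀ (abs_nonneg _) (l.X_bd hp m) 2
          _ = 1 / p := by rw [div_pow, one_pow, Real.sq_sqrt hp0.le]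
      linarith
    rw [avgP_add, avgP_add, avgP_const hp.pos, avgP_mul_left, l.dat.mean p hp,
      avgP_const hp.pos] at h1
    have h3 := Real.add_one_le_exp (s ^ 2 * (1 / (p : ℝ)))
    rw [add_zero]
    linarith

/-- exponential moments, for all parameters -/
lemma exp_all (l : Loc) (x : ℕ) (s : ℝ) :
    avgP (prim x) (fun m => Real.exp (s * l.dat.S x m)) ≤ Real.exp (s ^ 2 * (Hs x + 2)) := by
  have e : (fun m => Real.exp (s * l.dat.S x m)) =
      fun m => ∏ p ∈ PP x, Real.exp (s * l.dat.X p m) := by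
    funext m
    rw [← Real.exp_sum]
    unfold Dat.S
    rw [Finset.mul_sum]
  rw [e]
  unfold prim
  rw [avgP_prod (PP x) (fun p hp => (mem_PP.1 hp).2) (fun p m => Real.exp (s * l.dat.X p m))
    (fun p hp m => by rw [l.dat.per p (mem_PP.1 hp).2])]
  refine (prod_le_prod (fun p _ => avgP_nonneg' _ fun m => (Real.exp_pos _).le)
    (fun p hp => loc_exp l (mem_PP.1 hp).2 s)).trans ?_
  rw [← Real.exp_sum]
  apply Real.exp_le_exp.2
  rw [sum_add_distrib, ← mul_sum, ← sum_filter, ← mul_sum]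
  have h1 : ∑ p ∈ (PP x).filter (fun p : ℕ => (p : ℝ) ≤ s ^ 2), 1 / √(p : ℝ) ≤ 2 * |s| := by
    have hsub : (PP x).filter (fun p : ℕ => (p : ℝ) ≤ s ^ 2) ⊆ Icc 1 ⌊s ^ 2⌋₊ := by
      intro p hp
      rw [mem_filter] at hp
      rw [mem_Icc]
      exact ⟨(mem_PP.1 hp.1).2.one_le, Nat.le_floor hp.2⟩
    calc _ ≤ ∑ p ∈ Icc 1 ⌊s ^ 2⌋₊, 1 / √(p : ℝ) :=
          sum_le_sum_of_subset_of_nonneg hsub fun _ _ _ => by positivity
      _ ≤ 2 * √(⌊s ^ 2⌋₊ : ℝ) := sum_inv_sqrt _
      _ ≤ 2 * |s| := by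
          rw [← Real.sqrt_sq_eq_abs]
          have := Real.sqrt_le_sqrt (Nat.floor_le (sq_nonneg s))
          linarith
  have h2 := mul_le_mul_of_nonneg_left h1 (abs_nonneg s)
  have e2 : |s| * (2 * |s|) = s ^ 2 * 2 := by
    rw [← sq_abs s]; ring
  rw [e2] at h2
  have e3 : s ^ 2 * (Hs x + 2) = s ^ 2 * ∑ p ∈ PP x, 1 / (p : ℝ) + s ^ 2 * 2 := by
    unfold Hs
    ring
  rw [e3]
  linarith

/-- moments, for all parameters -/
lemma mom_all (l : Loc) (x K : ℕ) {s : ℝ} (hs : 0 ≤ s) :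
    s ^ K / (K.factorial : ℝ) * avgP (prim x) (fun m => |l.dat.S x m| ^ K) ≤
      2 * Real.exp (s ^ 2 * (Hs x + 2)) := by
  have h1 : ∀ m, s ^ K / (K.factorial : ℝ) * |l.dat.S x m| ^ K ≤
      Real.exp (s * l.dat.S x m) + Real.exp (-s * l.dat.S x m) := by
    intro m
    have h := Real.pow_div_factorial_le_exp (s * |l.dat.S x m|) (by positivity) K
    rw [mul_pow] at h
    have h2 : Real.exp (s * |l.dat.S x m|) ≤
        Real.exp (s * l.dat.S x m) + Real.exp (-s * l.dat.S x m) := by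
      rcases abs_cases (l.dat.S x m) with ⟨h3, _⟩ | ⟨h3, _⟩
      · rw [h3]
        have := Real.exp_pos (-s * l.dat.S x m)
        linarith
      · rw [h3, show s * -l.dat.S x m = -s * l.dat.S x m by ring]
        have := Real.exp_pos (s * l.dat.S x m)
        linarith
    calc s ^ K / (K.factorial : ℝ) * |l.dat.S x m| ^ K =
          s ^ K * |l.dat.S x m| ^ K / K.factorial := by ring
      _ ≤ _ := h.trans h2
  have h2 := avgP_mono (N := prim x) _ _ h1
  rw [avgP_mul_left, avgP_add] at h2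
  have h3 := exp_all l x s
  have h4 := exp_all l x (-s)
  rw [neg_sq] at h4
  linarith

/-- comparison of the characteristic functions -/
lemma cmp (d : Dat) (x N K : ℕ) (hx : 1 ≤ x) (hN : 0 < N) (hK : Even K) (y : ℝ) :
    ‖avg N (fun m => Complex.exp ((y * d.S x m : ℝ) * Complex.I)) -
      avgP (prim x) (fun m => Complex.exp ((y * d.S x m : ℝ) * Complex.I))‖ ≤
      4 * Real.exp |y| * (x : ℝ) ^ (2 * K) / N +
        2 * (|y| ^ K / (K.factorial : ℝ) * avgP (prim x) (fun m => |d.S x m| ^ K)) := by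
  have hN0 : (0 : ℝ) < N := by exact_mod_cast hN
  have hx1 : (1 : ℝ) ≤ x := by exact_mod_cast hx
  have e : ∀ m, Complex.exp ((y * d.S x m : ℝ) * Complex.I) =
      ∑ j ∈ range K, ((y : ℂ) * Complex.I) ^ j / (j.factorial : ℂ) * ((d.S x m ^ j : ℝ) : ℂ) +
        rem K (y * d.S x m) := by
    intro m
    have : ∑ j ∈ range K, ((y : ℂ) * Complex.I) ^ j / (j.factorial : ℂ) * ((d.S x m ^ j : ℝ) : ℂ) =
        ∑ j ∈ range K, (((y * d.S x m : ℝ) : ℂ) * Complex.I) ^ j / (j.factorial : ℂ) := by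
      refine Finset.sum_congr rfl fun j _ => ?_
      push_cast
      ring
    rw [this]
    unfold rem
    ring
  have hreal : ∀ (j : ℕ), avg N (fun m => ((d.S x m ^ j : ℝ) : ℂ)) =
      ((avg N (fun m => d.S x m ^ j) : ℝ) : ℂ) := by
    intro j
    unfold avg
    push_cast
    rfl
  have hrealP : ∀ (j : ℕ), avgP (prim x) (fun m => ((d.S x m ^ j : ℝ) : ℂ)) =
      ((avgP (prim x) (fun m => d.S x m ^ j) : ℝ) : ℂ) := by
    intro j
    unfold avgP
    push_cast
    rfl
  have e1 : avg N (fun m => Complex.exp ((y * d.S x m : ℝ) * Complex.I)) =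
      ∑ j ∈ range K, ((y : ℂ) * Complex.I) ^ j / (j.factorial : ℂ) *
        ((avg N (fun m => d.S x m ^ j) : ℝ) : ℂ) + avg N (fun m => rem K (y * d.S x m)) := by
    rw [show (fun m => Complex.exp ((y * d.S x m : ℝ) * Complex.I)) = fun m =>
      ∑ j ∈ range K, ((y : ℂ) * Complex.I) ^ j / (j.factorial : ℂ) * ((d.S x m ^ j : ℝ) : ℂ) +
        rem K (y * d.S x m) from funext e, avg_add, avg_sum]
    congr 1
    refine Finset.sum_congr rfl fun j _ => ?_
    rw [avg_mul_left, hreal]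
  have e2 : avgP (prim x) (fun m => Complex.exp ((y * d.S x m : ℝ) * Complex.I)) =
      ∑ j ∈ range K, ((y : ℂ) * Complex.I) ^ j / (j.factorial : ℂ) *
        ((avgP (prim x) (fun m => d.S x m ^ j) : ℝ) : ℂ) +
        avgP (prim x) (fun m => rem K (y * d.S x m)) := by
    rw [show (fun m => Complex.exp ((y * d.S x m : ℝ) * Complex.I)) = fun m =>
      ∑ j ∈ range K, ((y : ℂ) * Complex.I) ^ j / (j.factorial : ℂ) * ((d.S x m ^ j : ℝ) : ℂ) +
        rem K (y * d.S x m) from funext e, avgP_add, avgP_sum]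
    congr 1
    refine Finset.sum_congr rfl fun j _ => ?_
    rw [avgP_mul_left, hrealP]
  have e3 : avg N (fun m => Complex.exp ((y * d.S x m : ℝ) * Complex.I)) -
      avgP (prim x) (fun m => Complex.exp ((y * d.S x m : ℝ) * Complex.I)) =
      ∑ j ∈ range K, ((y : ℂ) * Complex.I) ^ j / (j.factorial : ℂ) *
        ((avg N (fun m => d.S x m ^ j) - avgP (prim x) (fun m => d.S x m ^ j) : ℝ) : ℂ) +
      (avg N (fun m => rem K (y * d.S x m)) - avgP (prim x) (fun m => rem K (y * d.S x m))) := by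
    rw [e1, e2]
    have : ∀ j ∈ range K, ((y : ℂ) * Complex.I) ^ j / (j.factorial : ℂ) *
        ((avg N (fun m => d.S x m ^ j) - avgP (prim x) (fun m => d.S x m ^ j) : ℝ) : ℂ) =
        ((y : ℂ) * Complex.I) ^ j / (j.factorial : ℂ) * ((avg N (fun m => d.S x m ^ j) : ℝ) : ℂ) -
        ((y : ℂ) * Complex.I) ^ j / (j.factorial : ℂ) *
          ((avgP (prim x) (fun m => d.S x m ^ j) : ℝ) : ℂ) := by
      intro j _
      push_cast
      ring
    rw [Finset.sum_congr rfl this, Finset.sum_sub_distrib]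
    ring
  set B : ℝ := 2 * (x : ℝ) ^ (2 * K) / N with hB
  have hB0 : 0 ≤ B := by positivity
  have h1 : ‖∑ j ∈ range K, ((y : ℂ) * Complex.I) ^ j / (j.factorial : ℂ) *
        ((avg N (fun m => d.S x m ^ j) - avgP (prim x) (fun m => d.S x m ^ j) : ℝ) : ℂ)‖ ≤
        Real.exp |y| * B := by
    refine (norm_sum_le _ _).trans ?_
    have : ∀ j ∈ range K, ‖((y : ℂ) * Complex.I) ^ j / (j.factorial : ℂ) *
        ((avg N (fun m => d.S x m ^ j) - avgP (prim x) (fun m => d.S x m ^ j) : ℝ) : ℂ)‖ ≤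
        |y| ^ j / (j.factorial : ℝ) * B := by
      intro j hj
      rw [mem_range] at hj
      rw [norm_mul, norm_div, norm_pow, norm_mul, Complex.norm_real, Complex.norm_I, mul_one,
        Complex.norm_natCast, Complex.norm_real, Real.norm_eq_abs, Real.norm_eq_abs]
      have h2 := moment d j x N hx hN
      have h4 : 2 * (x : ℝ) ^ (2 * j) / N ≤ B := by
        rw [hB]
        gcongr
      exact mul_le_mul_of_nonneg_left (h2.trans h4) (by positivity)
    refine (Finset.sum_le_sum this).trans ?_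
    rw [← sum_mul]
    exact mul_le_mul_of_nonneg_right (Real.sum_le_exp_of_nonneg (abs_nonneg y) K) hB0
  have habs : ∀ m, d.S x m ^ K = |d.S x m| ^ K := fun m => (hK.pow_abs _).symm
  have h5 : ‖avg N (fun m => rem K (y * d.S x m))‖ ≤
      |y| ^ K / (K.factorial : ℝ) * avg N (fun m => d.S x m ^ K) := by
    have := norm_avg_le (N := N) (fun m => rem K (y * d.S x m))
      (fun m => |y| ^ K / (K.factorial : ℝ) * d.S x m ^ K) (fun m => by
        refine (norm_rem_le K _).trans (le_of_eq ?_)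
        rw [abs_mul, mul_pow, habs]
        ring)
    rwa [avg_mul_left] at this
  have h6 : ‖avgP (prim x) (fun m => rem K (y * d.S x m))‖ ≤
      |y| ^ K / (K.factorial : ℝ) * avgP (prim x) (fun m => d.S x m ^ K) := by
    have := norm_avgP_le (N := prim x) (fun m => rem K (y * d.S x m))
      (fun m => |y| ^ K / (K.factorial : ℝ) * d.S x m ^ K) (fun m => by
        refine (norm_rem_le K _).trans (le_of_eq ?_)
        rw [abs_mul, mul_pow, habs]
        ring)
    rwa [avgP_mul_left] at this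
  have h7 := (abs_le.1 (moment d K x N hx hN)).2
  have hc0 : 0 ≤ |y| ^ K / (K.factorial : ℝ) := by positivity
  have hc1 : |y| ^ K / (K.factorial : ℝ) ≤ Real.exp |y| :=
    Real.pow_div_factorial_le_exp |y| (abs_nonneg y) K
  have h8 : avg N (fun m => d.S x m ^ K) ≤ avgP (prim x) (fun m => d.S x m ^ K) + B := by
    rw [hB]; linarith
  have h9 : |y| ^ K / (K.factorial : ℝ) * avg N (fun m => d.S x m ^ K) ≤
      |y| ^ K / (K.factorial : ℝ) * avgP (prim x) (fun m => d.S x m ^ K) + Real.exp |y| * B := by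
    calc _ ≤ |y| ^ K / (K.factorial : ℝ) * (avgP (prim x) (fun m => d.S x m ^ K) + B) :=
          mul_le_mul_of_nonneg_left h8 hc0
      _ ≤ _ := by
          rw [mul_add]
          have := mul_le_mul_of_nonneg_right hc1 hB0
          linarith
  rw [e3]
  refine (norm_add_le _ _).trans ?_
  have h10 := norm_sub_le (avg N (fun m => rem K (y * d.S x m)))
    (avgP (prim x) (fun m => rem K (y * d.S x m)))
  have h11 : avgP (prim x) (fun m => d.S x m ^ K) = avgP (prim x) (fun m => |d.S x m| ^ K) := by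
    congr 1
    funext m
    exact habs m
  rw [← h11]
  have h12 : 4 * Real.exp |y| * (x : ℝ) ^ (2 * K) / N = 2 * (Real.exp |y| * B) := by rw [hB]; ring
  rw [h12]
  linarith

/-- `exp (B log log x + c) ≤ x` for all large `x` -/
lemma ev_exp (B c : ℝ) : ∀ᶠ x : ℕ in atTop, Real.exp (B * ll x + c) ≤ x := by
  filter_upwards [tendsto_ll.eventually_ge_atTop (2 * (|B| + |c|) + 2), eventually_ge_atTop 3]
    with x h1 h2
  have hx : (3 : ℝ) ≤ x := by exact_mod_cast h2
  have hx0 : (0 : ℝ) < x := by linarith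
  have hlog : 0 < Real.log x := Real.log_pos (by linarith)
  have e : Real.exp (Real.exp (ll x)) = x := by
    unfold ll
    rw [Real.exp_log hlog, Real.exp_log hx0]
  rw [← e]
  apply Real.exp_le_exp.2
  set y : ℝ := ll x
  have hB := abs_nonneg B
  have hc := abs_nonneg c
  have hy : 0 ≤ y := by linarith
  have h3 := Real.quadratic_le_exp_of_nonneg hy
  have h4 : B * y ≤ |B| * y := mul_le_mul_of_nonneg_right (le_abs_self B) hy
  have h5 := le_abs_self c
  have h6 : y * (2 * (|B| + |c|) + 2) ≤ y * y := mul_le_mul_of_nonneg_left h1 hy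
  have h7 : |c| ≤ |c| * y := by nlinarith
  nlinarith

/-- the logarithm as a centred sum -/
lemma Sx_eq (l : Loc) (x m : ℕ) :
    Sx l x m = 2 * l.C * l.dat.S x m + ∑ p ∈ PP x, avgP p (l.G p) := by
  have hC0 : 0 < l.C := lt_of_lt_of_le one_pos l.hC
  unfold Sx Dat.S
  rw [mul_sum, ← sum_add_distrib]
  refine sum_congr rfl fun p _ => ?_
  have e : l.dat.X p m = (l.G p m - avgP p (l.G p)) / (2 * l.C) := rfl
  rw [e]
  field_simp
  ring

/-- the numbers of moments needed -/
lemma evK (a : ℝ) (ha : 0 ≤ a) : ∀ᶠ x : ℕ in atTop, ∀ N : ℕ, (x : ℝ) ^ (ll x ^ 3) ≤ N →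
    ∀ K : ℕ, (K : ℝ) ≤ a * (ll x) ^ 2 → (x : ℝ) ^ (2 * K) / N ≤ 1 / x ∧ 0 < N := by
  filter_upwards [tendsto_ll.eventually_ge_atTop (2 * a + 1), eventually_ge_atTop 3]
    with x h1 h2 N hN K hK
  have hx : (3 : ℝ) ≤ x := by exact_mod_cast h2
  have hx0 : (0 : ℝ) < x := by linarith
  have hN0 : (0 : ℝ) < N := lt_of_lt_of_le (Real.rpow_pos_of_pos hx0 _) hN
  refine ⟨?_, by exact_mod_cast hN0⟩
  rw [div_le_div_iff₀ hN0 hx0, one_mul]
  refine le_trans ?_ hN
  rw [← pow_succ, ← Real.rpow_natCast]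
  apply Real.rpow_le_rpow_of_exponent_le (by linarith)
  set y : ℝ := ll x
  have hy1 : 1 ≤ y := by linarith
  push_cast
  have h3 : 1 ≤ y ^ 2 := one_le_pow₀ hy1
  have h4 : (2 * a + 1) * y ^ 2 ≤ y * y ^ 2 := mul_le_mul_of_nonneg_right h1 (by positivity)
  have e : y ^ 3 = y * y ^ 2 := by ring
  rw [e]
  linarith

end Pool.Agent.T9h26.BD
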