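import Pool.Agent.T9h26.BD.Tm
import Pool.Agent.T9h26.BD.Lw

/-!
# The comparison of long intervals and periods, and the local limit theorem for intervals
-/

set_option autoImplicit false

namespace Pool.Agent.T9h26.BD

open Finset Filter Topology MeasureTheory Pool.Agent.N430.CLT Pool.Agent.T9h58.LN

lemma Hs_le : ∃ K : ℝ, 0 ≤ K ∧ ∀ x : ℕ, 3 ≤ x → Hs x ≤ ll x + K := by
  obtain ⟨K, hK, h⟩ := mertens
  refine ⟨K, hK, fun x hx => ?_⟩
  have := (abs_le.1 (h x hx)).2
  unfold Hs ll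
  linarith

lemma third_pow (K : ℕ) : (1 / 3 : ℝ) ^ K ≤ Real.exp (-(K : ℝ)) := by
  have h1 : (1 / 3 : ℝ) ≤ Real.exp (-1) := by
    rw [Real.exp_neg, one_div]
    apply inv_anti₀ (Real.exp_pos _)
    have := Real.exp_one_lt_d9
    linarith
  calc (1 / 3 : ℝ) ^ K ≤ (Real.exp (-1)) ^ K := pow_le_pow_left₀ (by norm_num) h1 K
    _ = Real.exp (-(K : ℝ)) := by
        rw [← Real.exp_nat_mul]
        congr 1
        ring

/-- **comparison of the characteristic functions** -/
theorem F1 (l : Loc) {A : ℝ} (hA : 0 < A) : ∀ᶠ x : ℕ in atTop, ∀ N : ℕ,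
    (x : ℝ) ^ (ll x ^ 3) ≤ N → ∀ ζ : ℝ, ζ ^ 2 ≤ A * ll x →
    ‖avg N (fun m => Complex.exp ((ζ * Sx l x m : ℝ) * Complex.I)) -
      avgP (prim x) (fun m => Complex.exp ((ζ * Sx l x m : ℝ) * Complex.I))‖ ≤
      Real.exp (-(A * ll x)) := by
  obtain ⟨K₃, hK₃, hH⟩ := Hs_le
  have hC0 : 0 < l.C := lt_of_lt_of_le one_pos l.hC
  set q : ℝ := 4 * l.C ^ 2 * A with hq
  have hq0 : 0 < q := by positivity
  set a₀ : ℝ := 9 * q * (K₃ + 3) + A + 3 with ha₀
  have ha₀0 : 0 < a₀ := by positivity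
  filter_upwards [evK (2 * a₀ + 2) (by positivity), ev_exp (q + A) (1 + Real.log 8),
    tendsto_ll.eventually_ge_atTop 1, eventually_ge_atTop 3] with x h1 h2 h3 h4 N hN ζ hζ
  have hx : (3 : ℝ) ≤ x := by exact_mod_cast h4
  have hx0 : (0 : ℝ) < x := by linarith
  set y : ℝ := ll x with hy
  have hy0 : 0 < y := by linarith
  have hy2 : y ≤ y ^ 2 := by nlinarith
  -- reduction to the centred sum
  have e1 : ∀ m, Complex.exp ((ζ * Sx l x m : ℝ) * Complex.I) =
      Complex.exp ((ζ * ∑ p ∈ PP x, avgP p (l.G p) : ℝ) * Complex.I) *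
        Complex.exp ((2 * l.C * ζ * l.dat.S x m : ℝ) * Complex.I) := by
    intro m
    rw [← Complex.exp_add, Sx_eq]
    congr 1
    push_cast
    ring
  simp only [e1]
  rw [avg_mul_left, avgP_mul_left, ← mul_sub, norm_mul, Complex.norm_exp_ofReal_mul_I, one_mul]
  -- the degree
  set K : ℕ := 2 * ⌈a₀ * y ^ 2⌉₊ with hK
  have hKe : Even K := even_two_mul _
  have hK1 : a₀ * y ^ 2 ≤ K := by
    have := Nat.le_ceil (a₀ * y ^ 2)
    have h5 : (0 : ℝ) ≤ ⌈a₀ * y ^ 2⌉₊ := Nat.cast_nonneg _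
    rw [hK]
    push_cast
    linarith
  have hK2 : (K : ℝ) ≤ (2 * a₀ + 2) * y ^ 2 := by
    have h5 := (Nat.ceil_lt_add_one (by positivity : 0 ≤ a₀ * y ^ 2)).le
    rw [hK]
    push_cast
    nlinarith
  obtain ⟨h6, hN0⟩ := h1 N hN K hK2
  have hN0' : (0 : ℝ) < N := by exact_mod_cast hN0
  refine (cmp l.dat x N K (by omega) hN0 hKe (2 * l.C * ζ)).trans ?_
  set Q : ℝ := q * y with hQ
  have hQ0 : 0 < Q := by positivity
  set z : ℝ := |2 * l.C * ζ| with hz
  have hz0 : 0 ≤ z := abs_nonneg _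
  have hz2 : z ^ 2 ≤ Q := by
    rw [hz, sq_abs, hQ, hq]
    calc (2 * l.C * ζ) ^ 2 = 4 * l.C ^ 2 * ζ ^ 2 := by ring
      _ ≤ 4 * l.C ^ 2 * (A * y) := mul_le_mul_of_nonneg_left hζ (by positivity)
      _ = _ := by ring
  have hzQ : z ≤ √Q := Real.le_sqrt_of_sq_le hz2
  have hz1 : z ≤ Q + 1 := by nlinarith
  -- first term
  have t1 : 4 * Real.exp z * (x : ℝ) ^ (2 * K) / N ≤ 1 / 2 * Real.exp (-(A * y)) := by
    have h7 : 4 * Real.exp z * (x : ℝ) ^ (2 * K) / N ≤ 4 * Real.exp (Q + 1) * (1 / x) := by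
      rw [mul_div_assoc]
      apply mul_le_mul _ h6 (by positivity) (by positivity)
      have := Real.exp_le_exp.2 hz1
      linarith
    refine h7.trans ?_
    rw [mul_one_div, div_le_iff₀ hx0]
    have h8 : Real.exp ((q + A) * y + (1 + Real.log 8)) = 8 * (Real.exp (Q + 1) * Real.exp (A * y)) := by
      have e2 : (q + A) * y + (1 + Real.log 8) = (Q + 1) + A * y + Real.log 8 := by rw [hQ]; ring
      rw [e2, Real.exp_add, Real.exp_add, Real.exp_log (by norm_num)]
      ring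
    rw [h8] at h2
    have h9 : Real.exp (-(A * y)) * Real.exp (A * y) = 1 := by
      rw [← Real.exp_add]; simp
    have h10 := mul_le_mul_of_nonneg_left h2 (Real.exp_pos (-(A * y))).le
    have e3 : Real.exp (-(A * y)) * (8 * (Real.exp (Q + 1) * Real.exp (A * y))) =
        8 * Real.exp (Q + 1) * (Real.exp (-(A * y)) * Real.exp (A * y)) := by ring
    rw [e3, h9] at h10
    linarith
  -- second term
  have t2 : 2 * (z ^ K / (K.factorial : ℝ) * avgP (prim x) (fun m => |l.dat.S x m| ^ K)) ≤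
      1 / 2 * Real.exp (-(A * y)) := by
    have h7 := mom_all l x K (s := 3 * √Q) (by positivity)
    have h8 : (3 * √Q) ^ 2 = 9 * Q := by
      rw [mul_pow, Real.sq_sqrt hQ0.le]; ring
    rw [h8] at h7
    have h9 : z ^ K ≤ (1 / 3 : ℝ) ^ K * (3 * √Q) ^ K := by
      rw [← mul_pow]
      apply pow_le_pow_left₀ hz0
      linarith
    have h10 : 0 ≤ avgP (prim x) (fun m => |l.dat.S x m| ^ K) := avgP_nonneg' _ fun m => by positivity
    have h11 : (0 : ℝ) < K.factorial := by exact_mod_cast K.factorial_pos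
    have h12 : 9 * Q * (Hs x + 2) - K ≤ -(A * y) - 3 := by
      have h13 := hH x h4
      have h14 : 9 * Q * (Hs x + 2) ≤ 9 * Q * (y + K₃ + 2) :=
        mul_le_mul_of_nonneg_left (by linarith) (by positivity)
      have h15 : 9 * Q * (y + K₃ + 2) ≤ 9 * q * (K₃ + 3) * y ^ 2 := by
        rw [hQ]
        have h16 : y + K₃ + 2 ≤ (K₃ + 3) * y := by nlinarith
        calc 9 * (q * y) * (y + K₃ + 2) ≤ 9 * (q * y) * ((K₃ + 3) * y) :=
              mul_le_mul_of_nonneg_left h16 (by positivity)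
          _ = _ := by ring
      have h17 : A * y ≤ A * y ^ 2 := mul_le_mul_of_nonneg_left hy2 hA.le
      have h18 : a₀ * y ^ 2 = 9 * q * (K₃ + 3) * y ^ 2 + A * y ^ 2 + 3 * y ^ 2 := by rw [ha₀]; ring
      have h19 : 1 ≤ y ^ 2 := by nlinarith
      linarith
    have h20 : Real.exp (-3) ≤ 1 / 8 := by
      have h21 : (8 : ℝ) ≤ Real.exp 3 := by
        have h22 := Real.exp_one_gt_d9
        have e : Real.exp 3 = Real.exp 1 ^ 3 := by rw [← Real.exp_nat_mul]; norm_num
        rw [e]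
        calc (8 : ℝ) = 2 ^ 3 := by norm_num
          _ ≤ Real.exp 1 ^ 3 := pow_le_pow_left₀ (by norm_num) (by linarith) 3
      rw [Real.exp_neg, one_div]
      exact inv_anti₀ (by norm_num) h21
    calc 2 * (z ^ K / (K.factorial : ℝ) * avgP (prim x) (fun m => |l.dat.S x m| ^ K))
        ≤ 2 * ((1 / 3 : ℝ) ^ K * (3 * √Q) ^ K / (K.factorial : ℝ) *
          avgP (prim x) (fun m => |l.dat.S x m| ^ K)) := by gcongr
      _ = 2 * (1 / 3 : ℝ) ^ K * ((3 * √Q) ^ K / (K.factorial : ℝ) *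
          avgP (prim x) (fun m => |l.dat.S x m| ^ K)) := by ring
      _ ≤ 2 * Real.exp (-(K : ℝ)) * (2 * Real.exp (9 * Q * (Hs x + 2))) := by
          apply mul_le_mul _ h7 (by positivity) (by positivity)
          have := third_pow K
          linarith
      _ = 4 * Real.exp (9 * Q * (Hs x + 2) - K) := by
          rw [sub_eq_add_neg, Real.exp_add]
          ring
      _ ≤ 4 * Real.exp (-(A * y) - 3) := by
          have := Real.exp_le_exp.2 h12
          linarith
      _ = 4 * Real.exp (-3) * Real.exp (-(A * y)) := by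
          rw [sub_eq_add_neg, Real.exp_add]
          ring
      _ ≤ _ := by
          apply mul_le_mul_of_nonneg_right _ (Real.exp_pos _).le
          linarith
  linarith

open Classical in
/-- the far tail -/
theorem F2 (l : Loc) {A : ℝ} (hA : 0 < A) : ∀ᶠ x : ℕ in atTop, ∀ N : ℕ,
    (x : ℝ) ^ (ll x ^ 3) ≤ N →
    avg N (fun m => if ll x ^ 2 < |l.dat.S x m| then (1 : ℝ) else 0) ≤ Real.exp (-(A * ll x)) := by
  obtain ⟨K₃, hK₃, hH⟩ := Hs_le
  filter_upwards [evK 1 zero_le_one, ev_exp A (Real.log 4),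
    tendsto_ll.eventually_ge_atTop (4 * (1 + A + K₃ + 6)), eventually_ge_atTop 3]
    with x h1 h2 h3 h4 N hN
  have hx : (3 : ℝ) ≤ x := by exact_mod_cast h4
  have hx0 : (0 : ℝ) < x := by linarith
  set y : ℝ := ll x with hy
  have hy4 : 4 ≤ y := by linarith
  have hT1 : 1 ≤ y ^ 2 := by nlinarith
  set K : ℕ := 2 * ⌊y ^ 2 / 8⌋₊ with hK
  have hKe : Even K := even_two_mul _
  have hK1 : (K : ℝ) ≤ y ^ 2 / 4 := by
    have := Nat.floor_le (by positivity : 0 ≤ y ^ 2 / 8)
    rw [hK]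
    push_cast
    linarith
  have hK2 : y ^ 2 / 4 - 2 ≤ K := by
    have := (Nat.lt_floor_add_one (y ^ 2 / 8)).le
    rw [hK]
    push_cast
    linarith
  obtain ⟨h6, hN0⟩ := h1 N hN K (by
    rw [one_mul]
    have : 0 ≤ y ^ 2 := sq_nonneg y
    linarith)
  have hN0' : (0 : ℝ) < N := by exact_mod_cast hN0
  set T : ℝ := y ^ 2 with hT
  have hT0 : 0 < T := by linarith
  have hTK : 1 ≤ T ^ K := one_le_pow₀ hT1
  have a1 : avg N (fun m => if T < |l.dat.S x m| then (1 : ℝ) else 0) ≤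
      (1 / T ^ K) * avg N (fun m => l.dat.S x m ^ K) := by
    rw [← avg_mul_left]
    apply avg_mono
    intro m
    have hab : l.dat.S x m ^ K = |l.dat.S x m| ^ K := (hKe.pow_abs _).symm
    have hTK0 : 0 < T ^ K := by linarith
    rw [hab]
    split_ifs with hc
    · rw [one_div, ← div_eq_inv_mul, le_div_iff₀ hTK0, one_mul]
      exact pow_le_pow_left₀ hT0.le hc.le K
    · positivity
  have a2 := (abs_le.1 (moment l.dat K x N (by omega) hN0)).2
  have a3 := mom_all l x K (s := 1) zero_le_one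
  have eabs : avgP (prim x) (fun m => l.dat.S x m ^ K) =
      avgP (prim x) (fun m => |l.dat.S x m| ^ K) := by
    congr 1
    funext m
    exact (hKe.pow_abs _).symm
  rw [eabs] at a2
  rw [one_pow, one_pow, one_mul, div_mul_eq_mul_div, one_mul, div_le_iff₀
    (by exact_mod_cast K.factorial_pos : (0 : ℝ) < K.factorial)] at a3
  have a4 : (K.factorial : ℝ) / T ^ K ≤ Real.exp (-(K : ℝ)) := by
    have h7 : (K.factorial : ℝ) ≤ (K : ℝ) ^ K := by exact_mod_cast Nat.factorial_le_pow K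
    calc (K.factorial : ℝ) / T ^ K ≤ (K : ℝ) ^ K / T ^ K :=
          div_le_div_of_nonneg_right h7 (by positivity)
      _ = (K / T) ^ K := (div_pow _ _ _).symm
      _ ≤ (1 / 3) ^ K := by
          apply pow_le_pow_left₀ (by positivity)
          rw [div_le_iff₀ hT0]
          linarith
      _ ≤ _ := third_pow K
  have a5 : 2 * (x : ℝ) ^ (2 * K) / N ≤ 2 / x := by
    rw [mul_div_assoc]
    calc 2 * ((x : ℝ) ^ (2 * K) / N) ≤ 2 * (1 / x) := by linarith
      _ = 2 / x := by ring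
  have a6 : 2 / (x : ℝ) ≤ 1 / 2 * Real.exp (-(A * y)) := by
    rw [div_le_iff₀ hx0]
    rw [Real.exp_add, Real.exp_log (by norm_num)] at h2
    have h9 : Real.exp (-(A * y)) * Real.exp (A * y) = 1 := by
      rw [← Real.exp_add]; simp
    have h10 := mul_le_mul_of_nonneg_left h2 (Real.exp_pos (-(A * y))).le
    have e3 : Real.exp (-(A * y)) * (Real.exp (A * y) * 4) =
        4 * (Real.exp (-(A * y)) * Real.exp (A * y)) := by ring
    rw [e3, h9] at h10
    linarith
  have a7 : (1 / T ^ K) * avg N (fun m => l.dat.S x m ^ K) ≤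
      2 * Real.exp (Hs x + 2 - K) + 2 / x := by
    have h8 : avg N (fun m => l.dat.S x m ^ K) ≤
        2 * Real.exp (Hs x + 2) * K.factorial + 2 / x := by linarith
    calc (1 / T ^ K) * avg N (fun m => l.dat.S x m ^ K)
        ≤ (1 / T ^ K) * (2 * Real.exp (Hs x + 2) * K.factorial + 2 / x) :=
          mul_le_mul_of_nonneg_left h8 (by positivity)
      _ = 2 * Real.exp (Hs x + 2) * (K.factorial / T ^ K) + (1 / T ^ K) * (2 / x) := by ring
      _ ≤ 2 * Real.exp (Hs x + 2) * Real.exp (-(K : ℝ)) + 1 * (2 / x) := by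
          apply add_le_add
          · exact mul_le_mul_of_nonneg_left a4 (by positivity)
          · apply mul_le_mul_of_nonneg_right _ (by positivity)
            rw [div_le_one (by positivity)]
            exact hTK
      _ = _ := by
          rw [one_mul, mul_assoc, ← Real.exp_add]
          rfl
  have a8 : 2 * Real.exp (Hs x + 2 - K) ≤ 1 / 2 * Real.exp (-(A * y)) := by
    have h13 := hH x h4
    have h14 : Hs x + 2 - K ≤ -(A * y) - 2 := by
      have h15 : y * (4 * (1 + A + K₃ + 6)) ≤ y * y := mul_le_mul_of_nonneg_left h3 (by linarith)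
      have h16 : K₃ + 6 ≤ y * (K₃ + 6) := by nlinarith
      nlinarith
    have h20 : Real.exp (-2) ≤ 1 / 4 := by
      have h21 : (4 : ℝ) ≤ Real.exp 2 := by
        have h22 := Real.exp_one_gt_d9
        have e : Real.exp 2 = Real.exp 1 ^ 2 := by rw [← Real.exp_nat_mul]; norm_num
        rw [e]
        calc (4 : ℝ) = 2 ^ 2 := by norm_num
          _ ≤ Real.exp 1 ^ 2 := pow_le_pow_left₀ (by norm_num) (by linarith) 2
      rw [Real.exp_neg, one_div]
      exact inv_anti₀ (by norm_num) h21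
    calc 2 * Real.exp (Hs x + 2 - K) ≤ 2 * Real.exp (-(A * y) - 2) := by
          have := Real.exp_le_exp.2 h14
          linarith
      _ = 2 * Real.exp (-2) * Real.exp (-(A * y)) := by
          rw [sub_eq_add_neg, Real.exp_add]
          ring
      _ ≤ _ := by
          apply mul_le_mul_of_nonneg_right _ (Real.exp_pos _).le
          linarith
  linarith

/-- comparison of Gaussian averages -/
lemma gauss_cmp {N M : ℕ} (hN : 0 < N) (hM : 0 < M) (Y : ℕ → ℝ) {δ Q : ℝ} (hδ : 0 ≤ δ)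
    (hD : ∀ ζ : ℝ, ζ ^ 2 ≤ Q → ‖avg N (fun m => Complex.exp ((ζ * Y m : ℝ) * Complex.I)) -
      avgP M (fun m => Complex.exp ((ζ * Y m : ℝ) * Complex.I))‖ ≤ δ) (η v : ℝ) :
    ‖avg N (fun m => Complex.exp ((η * Y m : ℝ) * Complex.I) *
        (Real.exp (-(Y m - v) ^ 2 / 2) : ℂ)) -
      avgP M (fun m => Complex.exp ((η * Y m : ℝ) * Complex.I) *
        (Real.exp (-(Y m - v) ^ 2 / 2) : ℂ))‖ ≤
      δ + 2 * √(4 * Real.pi) * Real.exp (η ^ 2 / 4 - Q / 8) := by
  set f : ℝ → ℕ → ℂ := fun ξ m => Complex.exp (((η + ξ) * Y m : ℝ) * Complex.I) with hf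
  have hint : ∀ y : ℝ, Integrable (fun ξ : ℝ => (Complex.exp ((-(ξ * v) : ℝ) * Complex.I) *
      (gs ξ : ℂ)) * Complex.exp (((η + ξ) * y : ℝ) * Complex.I)) := by
    intro y
    refine gs_int.mono (by fun_prop) (Eventually.of_forall fun ξ => ?_)
    rw [norm_mul, norm_mul, Complex.norm_exp_ofReal_mul_I, Complex.norm_exp_ofReal_mul_I, one_mul,
      mul_one, Complex.norm_real]
  have hrep : ∀ y : ℝ, Complex.exp ((η * y : ℝ) * Complex.I) * (Real.exp (-(y - v) ^ 2 / 2) : ℂ) =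
      ∫ ξ : ℝ, (Complex.exp ((-(ξ * v) : ℝ) * Complex.I) * (gs ξ : ℂ)) *
        Complex.exp (((η + ξ) * y : ℝ) * Complex.I) := by
    intro y
    rw [← fourier_gs, ← integral_const_mul]
    congr 1
    funext ξ
    have e1 : ((ξ * (y - v) : ℝ) : ℂ) * Complex.I =
        ((-(ξ * v) : ℝ) : ℂ) * Complex.I + ((ξ * y : ℝ) : ℂ) * Complex.I := by push_cast; ring
    have e2 : (((η + ξ) * y : ℝ) : ℂ) * Complex.I =
        ((η * y : ℝ) : ℂ) * Complex.I + ((ξ * y : ℝ) : ℂ) * Complex.I := by push_cast; ring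
    rw [e1, e2, Complex.exp_add, Complex.exp_add]
    ring
  have hav : avg N (fun m => Complex.exp ((η * Y m : ℝ) * Complex.I) *
        (Real.exp (-(Y m - v) ^ 2 / 2) : ℂ)) =
      ∫ ξ : ℝ, (Complex.exp ((-(ξ * v) : ℝ) * Complex.I) * (gs ξ : ℂ)) * avg N (f ξ) := by
    unfold avg
    simp only [hrep]
    rw [← integral_finsetSum _ (fun m _ => hint (Y m)), ← integral_div]
    congr 1
    funext ξ
    rw [hf, ← mul_sum, mul_div_assoc]
  have havP : avgP M (fun m => Complex.exp ((η * Y m : ℝ) * Complex.I) *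
        (Real.exp (-(Y m - v) ^ 2 / 2) : ℂ)) =
      ∫ ξ : ℝ, (Complex.exp ((-(ξ * v) : ℝ) * Complex.I) * (gs ξ : ℂ)) * avgP M (f ξ) := by
    unfold avgP
    simp only [hrep]
    rw [← integral_finsetSum _ (fun m _ => hint (Y m)), ← integral_div]
    congr 1
    funext ξ
    rw [hf, ← mul_sum, mul_div_assoc]
  have hb1 : ∀ ξ, ‖avg N (f ξ)‖ ≤ 1 := by
    intro ξ
    have := norm_avg_le (N := N) (f ξ) (fun _ => 1) (fun m => by
      rw [hf]; exact (Complex.norm_exp_ofReal_mul_I _).le)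
    rwa [avg_const hN] at this
  have hb2 : ∀ ξ, ‖avgP M (f ξ)‖ ≤ 1 := by
    intro ξ
    have := norm_avgP_le (N := M) (f ξ) (fun _ => 1) (fun m => by
      rw [hf]; exact (Complex.norm_exp_ofReal_mul_I _).le)
    rwa [avgP_const hM] at this
  have hc1 : Continuous (fun ξ => avg N (f ξ)) := by
    unfold avg
    rw [hf]
    fun_prop
  have hc2 : Continuous (fun ξ => avgP M (f ξ)) := by
    unfold avgP
    rw [hf]
    fun_prop
  have hi : ∀ F : ℝ → ℂ, Continuous F → (∀ ξ, ‖F ξ‖ ≤ 1) → Integrable (fun ξ : ℝ =>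
      (Complex.exp ((-(ξ * v) : ℝ) * Complex.I) * (gs ξ : ℂ)) * F ξ) := by
    intro F hF1 hF2
    refine gs_int.mono (by fun_prop) (Eventually.of_forall fun ξ => ?_)
    rw [norm_mul, norm_mul, Complex.norm_exp_ofReal_mul_I, one_mul, Complex.norm_real]
    exact mul_le_of_le_one_right (norm_nonneg _) (hF2 ξ)
  rw [hav, havP, ← integral_sub (hi _ hc1 hb1) (hi _ hc2 hb2)]
  have hbd : ∀ ξ : ℝ, ‖(Complex.exp ((-(ξ * v) : ℝ) * Complex.I) * (gs ξ : ℂ)) * avg N (f ξ) -
      (Complex.exp ((-(ξ * v) : ℝ) * Complex.I) * (gs ξ : ℂ)) * avgP M (f ξ)‖ ≤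
      δ * gs ξ + 2 * Real.exp (η ^ 2 / 4 - Q / 8) * Real.exp (-(1 / 4) * ξ ^ 2) := by
    intro ξ
    rw [← mul_sub, norm_mul, norm_mul, Complex.norm_exp_ofReal_mul_I, one_mul, Complex.norm_real,
      Real.norm_eq_abs, abs_of_nonneg (gs_nonneg ξ)]
    by_cases hc : (η + ξ) ^ 2 ≤ Q
    · have h1 := hD (η + ξ) hc
      have h2 : gs ξ * ‖avg N (f ξ) - avgP M (f ξ)‖ ≤ gs ξ * δ :=
        mul_le_mul_of_nonneg_left h1 (gs_nonneg ξ)
      have h3 : 0 ≤ 2 * Real.exp (η ^ 2 / 4 - Q / 8) * Real.exp (-(1 / 4) * ξ ^ 2) := by positivity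
      linarith
    · have h1 : ‖avg N (f ξ) - avgP M (f ξ)‖ ≤ 2 := by
        have := norm_sub_le (avg N (f ξ)) (avgP M (f ξ))
        have := hb1 ξ
        have := hb2 ξ
        linarith
      have h2 : gs ξ ≤ Real.exp (η ^ 2 / 4 - Q / 8) * Real.exp (-(1 / 4) * ξ ^ 2) := by
        have h4 : gs ξ ≤ Real.exp (-ξ ^ 2 / 2) := by
          unfold gs
          calc _ ≤ 1 * Real.exp (-ξ ^ 2 / 2) :=
                mul_le_mul_of_nonneg_right inv_sqrt_le (Real.exp_pos _).le
            _ = _ := one_mul _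
        refine h4.trans ?_
        rw [← Real.exp_add]
        apply Real.exp_le_exp.2
        have h5 := not_le.1 hc
        have h6 := sq_nonneg (η - ξ)
        nlinarith
      have h3 : 0 ≤ δ * gs ξ := mul_nonneg hδ (gs_nonneg ξ)
      calc gs ξ * ‖avg N (f ξ) - avgP M (f ξ)‖ ≤
            (Real.exp (η ^ 2 / 4 - Q / 8) * Real.exp (-(1 / 4) * ξ ^ 2)) * 2 :=
            mul_le_mul h2 h1 (norm_nonneg _) (by positivity)
        _ ≤ _ := by linarith
  have hgi : Integrable (fun ξ : ℝ => Real.exp (-(1 / 4) * ξ ^ 2)) :=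
    integrable_exp_neg_mul_sq (by norm_num)
  have h1 := norm_integral_le_of_norm_le (μ := volume)
    ((gs_int.const_mul δ).add (hgi.const_mul (2 * Real.exp (η ^ 2 / 4 - Q / 8))))
    (Eventually.of_forall hbd)
  refine h1.trans (le_of_eq ?_)
  simp only [Pi.add_apply]
  rw [integral_add (gs_int.const_mul δ) (hgi.const_mul _), integral_const_mul, integral_const_mul,
    integral_gaussian]
  have e1 : ∫ ξ, gs ξ = 1 := by
    have := ProbabilityTheory.integral_gaussianPDFReal_eq_one 0 (v := 1) one_ne_zero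
    simp only [gs_eq] at this
    exact this
  rw [e1]
  have e2 : Real.pi / (1 / 4) = 4 * Real.pi := by ring
  rw [e2]
  ring

end Pool.Agent.T9h26.BD
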