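import Pool.Agent.T9h26.BD.Tn

/-!
# Precise deviations of sums over primes of local functions, over intervals
-/

set_option autoImplicit false

namespace Pool.Agent.T9h26.BD

open Finset Filter Topology MeasureTheory Pool.Agent.N430.CLT Pool.Agent.T9h58.LN

/-- the shifted sum -/
noncomputable def Yx (l : Loc) (u : ℝ) (x m : ℕ) : ℝ := Sx l x m - (l.κ + u) * ll x

/-- the normalisation of the weights -/
noncomputable def cx (l : Loc) (u : ℝ) (x : ℕ) : ℝ :=
  Real.exp (u * ((l.κ + u) * ll x)) / Mx l u x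

/-- the normalised exponential moment -/
noncomputable def Ax (l : Loc) (u : ℝ) (x : ℕ) : ℝ :=
  Mx l u x * Real.exp (-((l.κ * u + u ^ 2 / 2) * ll x))

lemma Ax_pos (l : Loc) (u : ℝ) (x : ℕ) : 0 < Ax l u x := mul_pos (Mx_pos l u x) (Real.exp_pos _)

lemma cx_eq (l : Loc) (u : ℝ) (x : ℕ) : cx l u x = Real.exp (u ^ 2 / 2 * ll x) * (Ax l u x)⁻¹ := by
  unfold cx Ax
  rw [mul_inv, ← Real.exp_neg, neg_neg]
  have e : Real.exp (u * ((l.κ + u) * ll x)) =
      Real.exp (u ^ 2 / 2 * ll x) * Real.exp ((l.κ * u + u ^ 2 / 2) * ll x) := by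
    rw [← Real.exp_add]
    congr 1
    ring
  rw [e, div_eq_mul_inv]
  ring

lemma cx_mul (l : Loc) (u : ℝ) (x : ℕ) : Ax l u x * cx l u x = Real.exp (u ^ 2 / 2 * ll x) := by
  rw [cx_eq]
  have := (Ax_pos l u x).ne'
  field_simp

/-- the weighted system over an interval -/
noncomputable def DN (l : Loc) (u : ℝ) (x N : ℕ) (hN : 0 < N) : Wsc where
  T := Icc 1 N
  w m := Real.exp (u * Sx l x m) / (N * Mx l u x)
  Y m := Yx l u x m
  w0 m := by
    have := Mx_pos l u x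
    positivity
  wpos := by
    have := Mx_pos l u x
    have hN' : (0 : ℝ) < N := by exact_mod_cast hN
    exact sum_pos (fun m _ => by positivity) ⟨1, mem_Icc.2 ⟨le_rfl, hN⟩⟩

lemma exp_split (l : Loc) (u : ℝ) (x m : ℕ) : Real.exp (u * Sx l x m) =
    Real.exp (u * ((l.κ + u) * ll x)) * Real.exp (u * Yx l u x m) := by
  rw [← Real.exp_add]
  congr 1
  unfold Yx
  ring

lemma exp_gauss (u y : ℝ) : Real.exp (u * y) * Real.exp (-y ^ 2 / 2) =
    Real.exp (u ^ 2 / 2) * Real.exp (-(y - u) ^ 2 / 2) := by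
  rw [← Real.exp_add, ← Real.exp_add]
  congr 1
  ring

lemma DN_W (l : Loc) (u : ℝ) (x N : ℕ) (hN : 0 < N) (η : ℝ) : (DN l u x N hN).W η =
    ((cx l u x * Real.exp (u ^ 2 / 2) : ℝ) : ℂ) *
      avg N (fun m => Complex.exp ((η * Yx l u x m : ℝ) * Complex.I) *
        (Real.exp (-(Yx l u x m - u) ^ 2 / 2) : ℂ)) := by
  unfold avg Wsc.W DN
  simp only
  rw [mul_div_assoc', mul_sum, sum_div]
  refine sum_congr rfl fun m _ => ?_
  have e : ((Real.exp (u * Sx l x m) / (N * Mx l u x) : ℝ) : ℂ) *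
      (Real.exp (-(Yx l u x m) ^ 2 / 2) : ℂ) =
      ((cx l u x * Real.exp (u ^ 2 / 2) : ℝ) : ℂ) * (Real.exp (-(Yx l u x m - u) ^ 2 / 2) : ℂ) /
        (N : ℂ) := by
    rw [← Complex.ofReal_mul, ← Complex.ofReal_mul, ← Complex.ofReal_natCast, ← Complex.ofReal_div]
    congr 1
    have h := exp_gauss u (Yx l u x m)
    rw [exp_split]
    unfold cx
    calc _ = Real.exp (u * ((l.κ + u) * ll x)) / Mx l u x * (Real.exp (u * Yx l u x m) *
          Real.exp (-(Yx l u x m) ^ 2 / 2)) / N := by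
          rw [mul_comm (N : ℝ), ← div_div]; ring
      _ = _ := by rw [h]; ring
  linear_combination Complex.exp ((η * Yx l u x m : ℝ) * Complex.I) * e

lemma Dx_W (l : Loc) (u : ℝ) (x : ℕ) (η : ℝ) : (Dx l u x).W η =
    ((cx l u x * Real.exp (u ^ 2 / 2) : ℝ) : ℂ) *
      avgP (prim x) (fun m => Complex.exp ((η * Yx l u x m : ℝ) * Complex.I) *
        (Real.exp (-(Yx l u x m - u) ^ 2 / 2) : ℂ)) := by
  unfold avgP Dsc.W Dx
  simp only
  rw [mul_div_assoc', mul_sum, sum_div]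
  refine sum_congr rfl fun m _ => ?_
  have e0 : Sx l x m - (l.κ + u) * ll x = Yx l u x m := rfl
  rw [e0]
  have e : ((Real.exp (u * Sx l x m) / (prim x * Mx l u x) : ℝ) : ℂ) *
      (Real.exp (-(Yx l u x m) ^ 2 / 2) : ℂ) =
      ((cx l u x * Real.exp (u ^ 2 / 2) : ℝ) : ℂ) * (Real.exp (-(Yx l u x m - u) ^ 2 / 2) : ℂ) /
        (prim x : ℂ) := by
    rw [← Complex.ofReal_mul, ← Complex.ofReal_mul, ← Complex.ofReal_natCast, ← Complex.ofReal_div]
    congr 1
    have h := exp_gauss u (Yx l u x m)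
    rw [exp_split]
    unfold cx
    calc _ = Real.exp (u * ((l.κ + u) * ll x)) / Mx l u x * (Real.exp (u * Yx l u x m) *
          Real.exp (-(Yx l u x m) ^ 2 / 2)) / prim x := by
          rw [mul_comm (prim x : ℝ), ← div_div]; ring
      _ = _ := by rw [h]; ring
  linear_combination Complex.exp ((η * Yx l u x m : ℝ) * Complex.I) * e

/-- the comparison, with a shift -/
lemma shift_cmp (l : Loc) (x N M : ℕ) (c ζ : ℝ) :
    ‖avg N (fun m => Complex.exp ((ζ * (Sx l x m - c) : ℝ) * Complex.I)) -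
      avgP M (fun m => Complex.exp ((ζ * (Sx l x m - c) : ℝ) * Complex.I))‖ =
    ‖avg N (fun m => Complex.exp ((ζ * Sx l x m : ℝ) * Complex.I)) -
      avgP M (fun m => Complex.exp ((ζ * Sx l x m : ℝ) * Complex.I))‖ := by
  have e1 : ∀ m, Complex.exp ((ζ * (Sx l x m - c) : ℝ) * Complex.I) =
      Complex.exp ((-(ζ * c) : ℝ) * Complex.I) * Complex.exp ((ζ * Sx l x m : ℝ) * Complex.I) := by
    intro m
    rw [← Complex.exp_add]
    congr 1
    push_cast
    ring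
  simp only [e1]
  rw [avg_mul_left, avgP_mul_left, ← mul_sub, norm_mul, Complex.norm_exp_ofReal_mul_I, one_mul]

/-- the constant in the comparison of the Gaussian averages -/
noncomputable def cη (η : ℝ) : ℝ := 1 + 2 * √(4 * Real.pi) * Real.exp (η ^ 2 / 4)

lemma cη_nonneg (η : ℝ) : 0 ≤ cη η := by unfold cη; positivity

/-- comparison of the Gaussian averages -/
lemma gcmp (l : Loc) (u : ℝ) : ∀ᶠ x : ℕ in atTop, ∀ N : ℕ, (x : ℝ) ^ (ll x ^ 3) ≤ N →
    ∀ c η v : ℝ,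
    ‖avg N (fun m => Complex.exp ((η * (Sx l x m - c) : ℝ) * Complex.I) *
        (Real.exp (-(Sx l x m - c - v) ^ 2 / 2) : ℂ)) -
      avgP (prim x) (fun m => Complex.exp ((η * (Sx l x m - c) : ℝ) * Complex.I) *
        (Real.exp (-(Sx l x m - c - v) ^ 2 / 2) : ℂ))‖ ≤
      cη η * Real.exp (-((u ^ 2 / 2 + 1) * ll x)) := by
  have hA : 0 < 8 * (u ^ 2 / 2 + 1) := by positivity
  filter_upwards [F1 l hA, evK 0 le_rfl, tendsto_ll.eventually_ge_atTop 0] with x h1 h2 h3 N hN c η v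
  have hN0 : 0 < N := (h2 N hN 0 (by simp)).2
  refine (gauss_cmp hN0 (prim_pos x) (fun m => Sx l x m - c) (Real.exp_pos _).le (fun ζ hζ => by
    rw [shift_cmp]
    exact h1 N hN ζ hζ) η v).trans ?_
  have e1 : η ^ 2 / 4 - 8 * (u ^ 2 / 2 + 1) * ll x / 8 = η ^ 2 / 4 + -((u ^ 2 / 2 + 1) * ll x) := by
    ring
  have h4 : Real.exp (-(8 * (u ^ 2 / 2 + 1) * ll x)) ≤ Real.exp (-((u ^ 2 / 2 + 1) * ll x)) := by
    apply Real.exp_le_exp.2
    have : 0 ≤ (u ^ 2 / 2 + 1) * ll x := by positivity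
    linarith
  rw [e1, Real.exp_add]
  unfold cη
  linarith

lemma y3_exp : Tendsto (fun x : ℕ => ll x ^ 3 * Real.exp (-ll x)) atTop (𝓝 0) :=
  (Real.tendsto_pow_mul_exp_neg_atTop_nhds_zero 3).comp tendsto_ll

/-- the convergence of the transforms, over intervals -/
theorem DN_tendsto (l : Loc) (u : ℝ) (N : ℕ → ℕ) (hN0 : ∀ x, 0 < N x)
    (hN : ∀ᶠ x : ℕ in atTop, (x : ℝ) ^ (ll x ^ 3) ≤ N x) (η : ℝ) :
    Tendsto (fun x : ℕ => ((√(ll x) : ℝ) : ℂ) * (DN l u x (N x) (hN0 x)).W η) atTop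
      (𝓝 (Real.exp (-η ^ 2 / 2) : ℂ)) := by
  obtain ⟨K, hK, hD⟩ := Fx_dom l u
  obtain ⟨A, hA, hAl⟩ := Mx_lim l u
  have hP : ∀ η : ℝ, Tendsto (fun x : ℕ => ((√(ll x) : ℝ) : ℂ) * (Dx l u x).W η) atTop
      (𝓝 (Real.exp (-η ^ 2 / 2) : ℂ)) := by
    apply W_tendsto (Dx l u) ll tendsto_ll _ hK
    · simp only [Dx_phi]
      exact hD
    · intro t
      simp only [Dx_phi]
      exact Fx_clt l u t
  have hdiff : Tendsto (fun x : ℕ => ((√(ll x) : ℝ) : ℂ) * (DN l u x (N x) (hN0 x)).W η -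
      ((√(ll x) : ℝ) : ℂ) * (Dx l u x).W η) atTop (𝓝 0) := by
    rw [tendsto_zero_iff_norm_tendsto_zero]
    have hinv : Tendsto (fun x => (Ax l u x)⁻¹) atTop (𝓝 A⁻¹) := hAl.inv₀ hA.ne'
    have hb : Tendsto (fun x : ℕ => (Ax l u x)⁻¹ * (Real.exp (u ^ 2 / 2) * cη η) *
        (ll x ^ 3 * Real.exp (-ll x))) atTop (𝓝 (A⁻¹ * (Real.exp (u ^ 2 / 2) * cη η) * 0)) :=
      (hinv.mul_const _).mul y3_exp
    rw [mul_zero] at hb
    refine squeeze_zero' (Eventually.of_forall fun _ => norm_nonneg _) ?_ hb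
    filter_upwards [gcmp l u, hN, tendsto_ll.eventually_ge_atTop 1] with x h1 h2 h3
    have h4 := h1 (N x) h2 ((l.κ + u) * ll x) η u
    have hc0 : 0 ≤ cx l u x := by
      rw [cx_eq]
      have := Ax_pos l u x
      positivity
    rw [← mul_sub, DN_W, Dx_W, ← mul_sub, norm_mul, norm_mul, Complex.norm_real, Complex.norm_real,
      Real.norm_eq_abs, Real.norm_eq_abs, abs_of_nonneg (Real.sqrt_nonneg _),
      abs_of_nonneg (by positivity : 0 ≤ cx l u x * Real.exp (u ^ 2 / 2))]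
    have hs : √(ll x) ≤ ll x ^ 3 := by
      have h5 : √(ll x) ≤ ll x := by
        rw [Real.sqrt_le_left (by linarith)]
        nlinarith
      have h6 : ll x ≤ ll x ^ 3 := le_self_pow₀ h3 (by norm_num)
      linarith
    have hA0 := Ax_pos l u x
    have hcη := cη_nonneg η
    calc √(ll x) * (cx l u x * Real.exp (u ^ 2 / 2) * _)
        ≤ ll x ^ 3 * (cx l u x * Real.exp (u ^ 2 / 2) *
          (cη η * Real.exp (-((u ^ 2 / 2 + 1) * ll x)))) := by
          apply mul_le_mul hs _ (by positivity) (by positivity)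
          exact mul_le_mul_of_nonneg_left h4 (by positivity)
      _ = (Ax l u x)⁻¹ * (Real.exp (u ^ 2 / 2) * cη η) * (ll x ^ 3 *
          (Real.exp (u ^ 2 / 2 * ll x) * Real.exp (-((u ^ 2 / 2 + 1) * ll x)))) := by
          rw [cx_eq]
          ring
      _ = _ := by
          rw [← Real.exp_add]
          congr 3
          ring
  have := hdiff.add (hP η)
  simpa using this

lemma DN_E (l : Loc) (u : ℝ) (x N : ℕ) (hN : 0 < N) (k : ℝ → ℝ) :
    (DN l u x N hN).E (fun s => Real.exp (-u * s) * k s) =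
      cx l u x * avg N (fun m => k (Yx l u x m)) := by
  unfold Wsc.E DN avg cx
  simp only
  rw [mul_div_assoc', mul_sum, sum_div]
  refine sum_congr rfl fun m _ => ?_
  rw [exp_split]
  have e2 : Real.exp (u * Yx l u x m) * Real.exp (-u * Yx l u x m) = 1 := by
    rw [← Real.exp_add]; simp
  calc _ = Real.exp (u * ((l.κ + u) * ll x)) / Mx l u x * (Real.exp (u * Yx l u x m) *
        Real.exp (-u * Yx l u x m)) * k (Yx l u x m) / N := by
        rw [mul_comm (N : ℝ), ← div_div]; ring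
    _ = _ := by rw [e2]; ring

open Classical in
/-- **windows** -/
theorem fin_window (l : Loc) (u : ℝ) {A : ℝ} (hA : Tendsto (Ax l u) atTop (𝓝 A)) (N : ℕ → ℕ)
    (hN0 : ∀ x, 0 < N x) (hN : ∀ᶠ x : ℕ in atTop, (x : ℝ) ^ (ll x ^ 3) ≤ N x) {α β : ℝ}
    (hαβ : α < β) :
    Tendsto (fun x : ℕ => √(2 * Real.pi * ll x) * Real.exp (u ^ 2 / 2 * ll x) *
      avg (N x) (fun m => if α ≤ Yx l u x m ∧ Yx l u x m ≤ β then (1 : ℝ) else 0)) atTop
      (𝓝 (A * ∫ s in α..β, Real.exp (-u * s))) := by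
  have h := lltW (fun x => DN l u x (N x) (hN0 x)) ll tendsto_ll (DN_tendsto l u N hN0 hN)
    (fun s => Real.exp (-u * s)) (by fun_prop) (fun s => (Real.exp_pos _).le) hαβ
  refine (hA.mul h).congr fun x => ?_
  have e1 : (fun s : ℝ => if α ≤ s ∧ s ≤ β then Real.exp (-u * s) else 0) =
      fun s => Real.exp (-u * s) * (if α ≤ s ∧ s ≤ β then (1 : ℝ) else 0) := by
    funext s
    split_ifs <;> simp
  rw [e1, DN_E]
  rw [← cx_mul l u x]
  ring

/-- real Gaussian averages -/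
lemma gcmp_real (l : Loc) (u : ℝ) : ∀ᶠ x : ℕ in atTop, ∀ N : ℕ, (x : ℝ) ^ (ll x ^ 3) ≤ N →
    ∀ c v : ℝ, avg N (fun m => Real.exp (-(Sx l x m - c - v) ^ 2 / 2)) ≤
      avgP (prim x) (fun m => Real.exp (-(Sx l x m - c - v) ^ 2 / 2)) +
        cη 0 * Real.exp (-((u ^ 2 / 2 + 1) * ll x)) := by
  filter_upwards [gcmp l u] with x h N hN c v
  have h1 := h N hN c 0 v
  have e : ∀ m, Complex.exp ((0 * (Sx l x m - c) : ℝ) * Complex.I) *
      (Real.exp (-(Sx l x m - c - v) ^ 2 / 2) : ℂ) =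
      ((Real.exp (-(Sx l x m - c - v) ^ 2 / 2) : ℝ) : ℂ) := by
    intro m
    simp
  simp only [e] at h1
  have e1 : avg N (fun m => ((Real.exp (-(Sx l x m - c - v) ^ 2 / 2) : ℝ) : ℂ)) =
      ((avg N (fun m => Real.exp (-(Sx l x m - c - v) ^ 2 / 2)) : ℝ) : ℂ) := by
    unfold avg
    push_cast
    rfl
  rw [e1, avgP_ofReal, ← Complex.ofReal_sub, Complex.norm_real, Real.norm_eq_abs] at h1
  have := (abs_le.1 h1).2
  linarith

/-- Gaussian averages in the model -/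
lemma model_bd (l : Loc) (u : ℝ) : ∃ K : ℝ, 0 ≤ K ∧ ∀ᶠ x : ℕ in atTop, ∀ y : ℝ,
    √(ll x) * avgP (prim x) (fun m => Real.exp (-(Sx l x m - (l.κ + u) * ll x - y) ^ 2 / 2)) ≤
      K * Ax l u x * Real.exp (-(u ^ 2 / 2 * ll x)) * Real.exp (-u * y) := by
  obtain ⟨K, hK, hD⟩ := Fx_dom l u
  have hpi := Real.pi_pos
  refine ⟨Real.exp (u ^ 2 / 2) * ((K + 33) * Real.pi), by positivity, ?_⟩
  filter_upwards [hD, tendsto_ll.eventually_gt_atTop 0] with x h1 h2 y
  have h3 := unif (Dx l u x) h2 hK (fun ζ hζ => by rw [Dx_phi]; exact h1 ζ hζ) (y - u)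
  have h4 := tilt_event l u x (fun s => Real.exp (-(s - y) ^ 2 / 2))
  rw [h4]
  have e1 : (Dx l u x).E (fun s => Real.exp (-u * s) * Real.exp (-(s - y) ^ 2 / 2)) =
      Real.exp (u ^ 2 / 2) * Real.exp (-u * y) * ∑ m ∈ (Dx l u x).T,
        (Dx l u x).w m * Real.exp (-((Dx l u x).Y m - (y - u)) ^ 2 / 2) := by
    unfold Dsc.E
    rw [mul_sum]
    refine sum_congr rfl fun m _ => ?_
    have e2 : Real.exp (-u * (Dx l u x).Y m) * Real.exp (-((Dx l u x).Y m - y) ^ 2 / 2) =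
        Real.exp (u ^ 2 / 2) * Real.exp (-u * y) *
          Real.exp (-((Dx l u x).Y m - (y - u)) ^ 2 / 2) := by
      rw [← Real.exp_add, ← Real.exp_add, ← Real.exp_add]
      congr 1
      ring
    dsimp only
    rw [e2]
    ring
  rw [e1]
  have e3 : Mx l u x * Real.exp (-(u * ((l.κ + u) * ll x))) =
      Ax l u x * Real.exp (-(u ^ 2 / 2 * ll x)) := by
    unfold Ax
    rw [mul_assoc, ← Real.exp_add]
    congr 2
    ring
  rw [e3]
  have hA0 := Ax_pos l u x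
  calc _ = (Ax l u x * Real.exp (-(u ^ 2 / 2 * ll x)) * (Real.exp (u ^ 2 / 2) *
        Real.exp (-u * y))) * (√(ll x) * ∑ m ∈ (Dx l u x).T,
        (Dx l u x).w m * Real.exp (-((Dx l u x).Y m - (y - u)) ^ 2 / 2)) := by ring
    _ ≤ (Ax l u x * Real.exp (-(u ^ 2 / 2 * ll x)) * (Real.exp (u ^ 2 / 2) *
        Real.exp (-u * y))) * ((K + 33) * Real.pi) := mul_le_mul_of_nonneg_left h3 (by positivity)
    _ = _ := by ring

end Pool.Agent.T9h26.BD
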